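import Pool.Agent.Lib_MP_70e04f_strip.SCurveA

/-!
# Piece SCURVE: uniform vanishing on irreducible curves
-/

set_option autoImplicit false

namespace Pool.MP_70e04f_ag.Strip

open MvPolynomial

/-- the hypotheses of `curve_step` -/
theorem SCurve_cond {n : ℕ} (D E T : ℕ) (M : Fin n → ℕ) {k : Type} [Field k]
    (p : Fin n → Fin 2 → k) {F : A2 k} (hF0 : F ≠ 0) (hE : F.totalDegree ≤ E)
    (hM : ∀ i, M i = 0 → mu (p i) F ≤ 1) (hN : 1 ≤ dotp D M p F) (j t : ℕ) (β : Fin n → ℕ)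
    (hj : T * ((n + 1) * E) + T + E + E * ((2 * E ^ 2 + 2) * D) + 1 ≤ j) (h1 : j * D ≤ t + T)
    (h3 : ∀ i, j * M i ≤ β i + T) (h4 : ∀ i, β i ≤ j * M i + T) :
    (∀ i, mu (p i) F ≤ β i + 1) ∧ E + E * ((2 * E ^ 2 + 2) * D) ≤ t ∧
      ∑ i, (mu (p i) F : ℤ) * β i ≤ (t : ℤ) * F.totalDegree := by
  have hD : 1 ≤ D := by
    by_contra h
    have h0 : D = 0 := by omega
    subst h0
    unfold dotp at hN
    have h5 : 0 ≤ ∑ i, (M i : ℤ) * mu (p i) F := Finset.sum_nonneg fun i _ => by positivity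
    rw [Nat.cast_zero, zero_mul] at hN
    linarith
  have hjD : j ≤ j * D := Nat.le_mul_of_pos_right _ hD
  have hmu : ∀ i, mu (p i) F ≤ E := fun i => (mu_le_deg hF0).trans hE
  refine ⟨fun i => ?_, by omega, ?_⟩
  · rcases Nat.eq_zero_or_pos (M i) with h | h
    · have := hM i h
      omega
    · have h5 : j ≤ j * M i := Nat.le_mul_of_pos_right _ h
      have := h3 i
      have := hmu i
      omega
  · have s1 : ∑ i, (mu (p i) F : ℤ) * β i ≤ ∑ i, (mu (p i) F : ℤ) * (j * M i + T) :=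
      Finset.sum_le_sum fun i _ => mul_le_mul_of_nonneg_left (by exact_mod_cast h4 i)
        (Int.natCast_nonneg _)
    have s2 : ∑ i, (mu (p i) F : ℤ) * (j * M i + T) =
        j * ∑ i, (M i : ℤ) * mu (p i) F + T * ∑ i, (mu (p i) F : ℤ) := by
      rw [Finset.mul_sum, Finset.mul_sum, ← Finset.sum_add_distrib]
      refine Finset.sum_congr rfl fun i _ => ?_
      ring
    have s3 : ∑ i, (mu (p i) F : ℤ) ≤ n * E := by
      calc ∑ i, (mu (p i) F : ℤ) ≤ ∑ _i : Fin n, (E : ℤ) :=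
            Finset.sum_le_sum fun i _ => by exact_mod_cast hmu i
        _ = n * E := by simp
    have s4 : ((j : ℤ) * D - T) * F.totalDegree ≤ t * F.totalDegree := by
      refine mul_le_mul_of_nonneg_right ?_ (Int.natCast_nonneg _)
      have : (j : ℤ) * D ≤ t + T := by exact_mod_cast h1
      linarith
    have s5 : (j : ℤ) ≤ j * dotp D M p F := le_mul_of_one_le_right (Int.natCast_nonneg _) hN
    unfold dotp at s5
    have s6 : (T : ℤ) * F.totalDegree ≤ T * E :=
      mul_le_mul_of_nonneg_left (by exact_mod_cast hE) (Int.natCast_nonneg _)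
    have s7 : (T : ℤ) * ∑ i, (mu (p i) F : ℤ) ≤ T * (n * E) :=
      mul_le_mul_of_nonneg_left s3 (Int.natCast_nonneg _)
    have s8 : (T : ℤ) * ((n + 1) * E) ≤ j := by
      have : T * ((n + 1) * E) ≤ j := by omega
      exact_mod_cast this
    linarith

/-- Uniform vanishing: the class `(t; β)` is at distance `≤ T` from `j` times a class `(D; M)` which is
positive on `F`.
PROOF. Let `κ = 2 E ^ 2 + 2`, `m = E ^ 2 + 1`, `J0 = T (n + 1) E + T + E + E κ D + 1`, `J = J0 + κ m`.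
`D ≥ 1`, `1 ≤ e = deg F ≤ E`, `a i = mu (p i) F ≤ e ≤ E`.
(i) If `(t; β)` is at distance `≤ T` from `j (D; M)` and `j ≥ J0` then the hypotheses of `curve_step`
hold: `t ≥ j D - T ≥ j - T ≥ E + E κ D`; if `M i = 0` then `a i ≤ 1 ≤ β i + 1`, otherwise
`β i ≥ j M i - T ≥ j - T ≥ E`; and
`t e - ∑ a i β i ≥ j dotp - T (e + ∑ a i) ≥ j - T (n + 1) E ≥ 0`.
(ii) For `j ≥ J` write `t = t0 + m κ D`, `β i = β0 i + m κ M i` (possible: `t ≥ j D - T ≥ m κ D`, and
`β i ≥ j M i - T ≥ m κ M i` if `M i ≥ 1`). Then `(t0; β0)` is at distance `≤ T` from `(j - κ m) (D; M)`,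
and `(t0 + l κ D; β0 + l κ M)` at distance `≤ T` from `(j - κ m + l κ) (D; M)`. By `cod_le_sq`
`cod (t0; β0) ≤ E ^ 2 < m`, and by `curve_step` `cod` decreases at every step until it is zero, and
then stays zero. So `cod (t; β) = 0`, which is `Ind` (`FinC.cod_eq_zero`). -/
theorem curve_van (n D E T : ℕ) (M : Fin n → ℕ) : ∃ J : ℕ, ∀ (k : Type) [Field k] [Infinite k]
    (p : Fin n → Fin 2 → k), Function.Injective p → ∀ F : A2 k, Irreducible F →
    F.totalDegree ≤ E → (∀ i, M i = 0 → mu (p i) F ≤ 1) → 1 ≤ dotp D M p F →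
    ∀ (j t : ℕ) (β : Fin n → ℕ), J ≤ j → j * D ≤ t + T → t ≤ j * D + T →
    (∀ i, j * M i ≤ β i + T) → (∀ i, β i ≤ j * M i + T) → Ind t (Iz p β ⊔ pr F) := by
  refine ⟨T * ((n + 1) * E) + T + E + E * ((2 * E ^ 2 + 2) * D) + 1 +
    (2 * E ^ 2 + 2) * (E ^ 2 + 1), ?_⟩
  intro k _ _ p hp F hF hE hM hN j t β hj h1 h2 h3 h4
  have hF0 : F ≠ 0 := hF.ne_zero
  set κ := 2 * E ^ 2 + 2 with hκ
  set m := E ^ 2 + 1 with hm
  set J0 := T * ((n + 1) * E) + T + E + E * (κ * D) + 1 with hJ0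
  have hD : 1 ≤ D := by
    by_contra h
    have h0 : D = 0 := by omega
    subst h0
    unfold dotp at hN
    have h5 : 0 ≤ ∑ i, (M i : ℤ) * mu (p i) F := Finset.sum_nonneg fun i _ => by positivity
    rw [Nat.cast_zero, zero_mul] at hN
    linarith
  -- subtract `m κ` times the class
  obtain ⟨j0, hj0⟩ : ∃ j0, j = j0 + κ * m := ⟨j - κ * m, by omega⟩
  have hj0' : J0 ≤ j0 := by omega
  obtain ⟨t0, ht0⟩ : ∃ t0, t = t0 + m * (κ * D) := by
    refine ⟨t - m * (κ * D), ?_⟩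
    have q1 : j * D = j0 * D + m * (κ * D) := by rw [hj0]; ring
    have q2 : j0 ≤ j0 * D := Nat.le_mul_of_pos_right _ hD
    omega
  have hβ0 : ∀ i, ∃ b, β i = b + m * (κ * M i) := by
    intro i
    refine ⟨β i - m * (κ * M i), ?_⟩
    rcases Nat.eq_zero_or_pos (M i) with h | h
    · rw [h]
      simp
    · have q1 : j * M i = j0 * M i + m * (κ * M i) := by rw [hj0]; ring
      have q2 : j0 ≤ j0 * M i := Nat.le_mul_of_pos_right _ h
      have := h3 i
      omega
  choose β0 hβ0 using hβ0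
  have hdist : ∀ l : ℕ, (j0 + l * κ) * D ≤ (t0 + l * (κ * D)) + T ∧
      (∀ i, (j0 + l * κ) * M i ≤ (β0 i + l * (κ * M i)) + T) ∧
      (∀ i, (β0 i + l * (κ * M i)) ≤ (j0 + l * κ) * M i + T) := by
    intro l
    have e1 : (j0 + l * κ) * D = j0 * D + l * (κ * D) := by ring
    have e2 : j * D = j0 * D + m * (κ * D) := by rw [hj0]; ring
    refine ⟨by omega, fun i => ?_, fun i => ?_⟩
    · have e3 : (j0 + l * κ) * M i = j0 * M i + l * (κ * M i) := by ring
      have e4 : j * M i = j0 * M i + m * (κ * M i) := by rw [hj0]; ring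
      have := h3 i
      have := hβ0 i
      omega
    · have e3 : (j0 + l * κ) * M i = j0 * M i + l * (κ * M i) := by ring
      have e4 : j * M i = j0 * M i + m * (κ * M i) := by rw [hj0]; ring
      have := h4 i
      have := hβ0 i
      omega
  have hcond : ∀ l : ℕ, (∀ i, mu (p i) F ≤ (β0 i + l * (κ * M i)) + 1) ∧
      E + E * (κ * D) ≤ t0 + l * (κ * D) ∧
      ∑ i, (mu (p i) F : ℤ) * ((β0 i + l * (κ * M i) : ℕ) : ℤ) ≤
        ((t0 + l * (κ * D) : ℕ) : ℤ) * F.totalDegree := by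
    intro l
    obtain ⟨d1, d2, d3⟩ := hdist l
    exact SCurve_cond D E T M p hF0 hE hM hN (j0 + l * κ) (t0 + l * (κ * D))
      (fun i => β0 i + l * (κ * M i)) (by rw [← hκ]; omega) d1 d2 d3
  set f : ℕ → ℕ := fun l => cod (t0 + l * (κ * D)) (Iz p (fun i => β0 i + l * (κ * M i)) ⊔ pr F)
    with hf
  have hstep : ∀ l, f (l + 1) < f l ∨ f (l + 1) = 0 ∧ f l = 0 := by
    intro l
    obtain ⟨c1, c2, c3⟩ := hcond l
    have h := curve_step D E M hp hF hE hM hN (t0 + l * (κ * D)) (fun i => β0 i + l * (κ * M i))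
      c1 c2 c3
    have e1 : t0 + (l + 1) * (κ * D) = t0 + l * (κ * D) + (2 * E ^ 2 + 2) * D := by
      rw [← hκ]; ring
    have e2 : (fun i => β0 i + (l + 1) * (κ * M i)) =
        fun i => β0 i + l * (κ * M i) + (2 * E ^ 2 + 2) * M i := by
      funext i
      rw [← hκ]; ring
    simp only [hf]
    rw [e1, e2]
    exact h
  have h0 : f 0 ≤ E ^ 2 := by
    obtain ⟨c1, c2, c3⟩ := hcond 0
    refine (cod_le_sq hp hF _ c1 ?_ c3).trans (Nat.pow_le_pow_left hE 2)
    exact hE.trans (le_trans (Nat.le_add_right _ _) c2)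
  have hind : ∀ l, f l = 0 ∨ f l + l ≤ E ^ 2 := by
    intro l
    induction l with
    | zero => right; omega
    | succ l ih =>
      have := hstep l
      omega
  have hfm : f m = 0 := by
    rcases hind m with h | h
    · exact h
    · omega
  have hfin : FinC (Iz p β ⊔ pr F) := (finC_Iz hp β).mono le_sup_left
  rw [← hfin.cod_eq_zero]
  have e3 : β = fun i => β0 i + m * (κ * M i) := funext hβ0
  rw [e3, ht0]
  exact hfm

end Pool.MP_70e04f_ag.Strip
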