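import Pool.Agent.Lib_MP_70e04f_strip.SSec

/-!
# Piece SSECB: few sections on an irreducible curve, and Riemann-Roch
-/

set_option autoImplicit false

namespace Pool.MP_70e04f_ag.Strip

open MvPolynomial

variable {k : Type*} [Field k] {n : ℕ} {p : Fin n → Fin 2 → k}

theorem SSecB_deg_pos {F : A2 k} (hF : Irreducible F) : 1 ≤ F.totalDegree := by
  by_contra h
  have h0 : F.totalDegree = 0 := by omega
  rw [totalDegree_eq_zero_iff_eq_C] at h0
  apply hF.not_isUnit
  have : coeff 0 F ≠ 0 := by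
    intro hc
    apply hF.ne_zero
    rw [h0, hc, C_0]
  rw [h0]
  exact (IsUnit.mk0 _ this).map C

theorem SSecB_zero (hp : Function.Injective p) {F : A2 k} (hF : Irreducible F)
    (β : Fin n → ℕ) (t : ℕ)
    (h : (t : ℤ) * F.totalDegree - ∑ i, (mu (p i) F : ℤ) * β i < 0) :
    sec t (Iz p β ⊔ pr F) F = 0 := by
  obtain ⟨W, hW1, hW2, hW3, hW4⟩ := exists_sections (F := F) (a := Iz p β ⊔ pr F) le_sup_right t
  rw [← hW4]
  by_contra hne
  have hW : W ≠ ⊥ := by
    rintro rfl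
    apply hne
    exact finrank_bot k _
  obtain ⟨s, hs, hs0⟩ := Submodule.exists_mem_ne_zero_of_ne_bot hW
  have h1 := mulbez hp hF (hW3 s hs hs0) β (hW2 s hs)
  have h2 : s.totalDegree ≤ t := mem_Pt.1 (hW1 hs)
  have h3 : F.totalDegree * s.totalDegree ≤ F.totalDegree * t := Nat.mul_le_mul_left _ h2
  have h4 : ((∑ i, mu (p i) F * β i : ℕ) : ℤ) ≤ ((F.totalDegree * t : ℕ) : ℤ) := by
    exact_mod_cast h1.trans h3
  push_cast at h4
  linarith

theorem SSecB_one (a : Ideal (A2 k)) (F : A2 k) (ha : pr F ≤ a) : sec 0 a F ≤ 1 := by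
  have h1 := sec_add (k := k) ha 0
  have h2 := two_finrank_Pt (k := k) 0
  have h3 : Module.finrank k ↥(Pt k 0 ⊓ sp a) ≤ Module.finrank k ↥(Pt k 0) :=
    Submodule.finrank_mono inf_le_left
  omega

/-- PROOF. Let `e = deg F ≥ 1`, `a i = mu (p i) F`, `δ t = t e - ∑ a i * β i`. If `δ t < 0` then
`sec t = 0`: an `f ∈ Pt k t`, `f ∈ Iz p β ⊔ pr F`, `¬ F ∣ f` would give `∑ a i * β i ≤ e * deg f ≤ e t`
(`mulbez`). Induction on `t`. `t = 0`: `Pt k 0` is one dimensional (constants), so `sec 0 ≤ 1`, and if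
`sec 0 = 1` then `δ 0 ≥ 0` by the first remark, so the right side is `≥ e ≥ 1`. Step: if `δ (t + 1) < 0`
then `sec (t + 1) = 0`. Otherwise
`sec (t + 1) ≤ sec t + e ≤ max 0 (δ t + e) + e = max e (δ (t + 1) + e) = δ (t + 1) + e`. -/
theorem sec_le [Infinite k] (hp : Function.Injective p) {F : A2 k} (hF : Irreducible F)
    (β : Fin n → ℕ) (t : ℕ) :
    (sec t (Iz p β ⊔ pr F) F : ℤ) ≤
      max 0 ((t : ℤ) * F.totalDegree - ∑ i, (mu (p i) F : ℤ) * β i + F.totalDegree) := by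
  have he := SSecB_deg_pos hF
  have he' : (1 : ℤ) ≤ F.totalDegree := by exact_mod_cast he
  induction t with
  | zero =>
    by_cases h : ((0 : ℕ) : ℤ) * F.totalDegree - ∑ i, (mu (p i) F : ℤ) * β i < 0
    · rw [SSecB_zero hp hF β 0 h]
      exact le_max_left _ _
    · push Not at h
      have h1 := SSecB_one (Iz p β ⊔ pr F) F le_sup_right
      have h2 : ((sec 0 (Iz p β ⊔ pr F) F : ℕ) : ℤ) ≤ 1 := by exact_mod_cast h1
      refine le_trans ?_ (le_max_right _ _)
      linarith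
  | succ t ih =>
    by_cases h : ((t + 1 : ℕ) : ℤ) * F.totalDegree - ∑ i, (mu (p i) F : ℤ) * β i < 0
    · rw [SSecB_zero hp hF β (t + 1) h]
      exact le_max_left _ _
    · push Not at h
      have h1 := sec_succ hp hF.ne_zero β t
      have h2 : ((sec (t + 1) (Iz p β ⊔ pr F) F : ℕ) : ℤ) ≤
          (sec t (Iz p β ⊔ pr F) F : ℕ) + (F.totalDegree : ℤ) := by exact_mod_cast h1
      refine le_trans ?_ (le_max_right _ _)
      push_cast at h ⊢
      have h3 : (sec t (Iz p β ⊔ pr F) F : ℤ) ≤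
          ((t : ℤ) + 1) * F.totalDegree - ∑ i, (mu (p i) F : ℤ) * β i := by
        refine ih.trans (max_le h ?_)
        linarith
      linarith

/-- Riemann-Roch on the curve `F` (no irreducibility).
PROOF. `cod_add`, `sec_add`, `finrank_inf_pr` (with `s = t - e`), `two_finrank_Pt`, `len_curve`:
`2 cod = 2 len - (t + 1) (t + 2) + (t - e + 1) (t - e + 2) + 2 sec` and
`(t + 1) (t + 2) - (t - e + 1) (t - e + 2) = 2 t e - e (e - 3)`. (`FinC` from `finC_Iz` and
`FinC.mono`.) -/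
theorem rr (hp : Function.Injective p) {F : A2 k} (hF : F ≠ 0) (β : Fin n → ℕ)
    (hβ : ∀ i, mu (p i) F ≤ β i + 1) {t : ℕ} (ht : F.totalDegree ≤ t) :
    2 * (cod t (Iz p β ⊔ pr F) : ℤ) =
      - 2 * ((t : ℤ) * F.totalDegree - ∑ i, (mu (p i) F : ℤ) * β i)
      + ((F.totalDegree : ℤ) * (F.totalDegree - 3)
          - ∑ i, (mu (p i) F : ℤ) * ((mu (p i) F : ℤ) - 1))
      + 2 * sec t (Iz p β ⊔ pr F) F := by
  obtain ⟨s, rfl⟩ := Nat.exists_eq_add_of_le' ht
  have hfin : FinC (Iz p β ⊔ pr F) := (finC_Iz hp β).mono le_sup_left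
  have h1 := cod_add hfin (s + F.totalDegree)
  have h2 := sec_add (F := F) (a := Iz p β ⊔ pr F) le_sup_right (s + F.totalDegree)
  have h3 := finrank_inf_pr hF s
  have h4 := two_finrank_Pt (k := k) s
  have h5 := two_finrank_Pt (k := k) (s + F.totalDegree)
  have h6 := len_curve hp hF β hβ
  rw [h3] at h2
  zify at h1 h2 h4 h5
  rw [Finset.sum_sub_distrib] at h6
  have h7 : ∑ i, 2 * (mu (p i) F : ℤ) * β i = 2 * ∑ i, (mu (p i) F : ℤ) * β i := by
    rw [Finset.mul_sum]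
    exact Finset.sum_congr rfl fun i _ => by ring
  rw [h7] at h6
  push_cast
  nlinarith [h1, h2, h4, h5, h6]

/-- PROOF. `rr` and `sec_le` (the `max` is the second argument). -/
theorem cod_le_sq [Infinite k] (hp : Function.Injective p) {F : A2 k} (hF : Irreducible F)
    (β : Fin n → ℕ) (hβ : ∀ i, mu (p i) F ≤ β i + 1) {t : ℕ} (ht : F.totalDegree ≤ t)
    (hδ : ∑ i, (mu (p i) F : ℤ) * β i ≤ (t : ℤ) * F.totalDegree) :
    cod t (Iz p β ⊔ pr F) ≤ F.totalDegree ^ 2 := by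
  have h1 := rr hp hF.ne_zero β hβ ht
  have h2 := sec_le hp hF β t
  have he : (0 : ℤ) ≤ F.totalDegree := by positivity
  rw [max_eq_right (by linarith)] at h2
  have h3 : (0 : ℤ) ≤ ∑ i, (mu (p i) F : ℤ) * ((mu (p i) F : ℤ) - 1) := by
    apply Finset.sum_nonneg
    intro i _
    rcases Nat.eq_zero_or_pos (mu (p i) F) with h | h
    · rw [h]; simp
    · have : (1 : ℤ) ≤ mu (p i) F := by exact_mod_cast h
      nlinarith
  zify
  nlinarith

end Pool.MP_70e04f_ag.Strip
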