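import Pool.Agent.Lib_MP_70e04f_strip.SMinor
import Pool.Agent.Lib_MP_70e04f_ag.Count

/-!
# Piece SGEXP: from one configuration over any field to general complex points
-/

set_option autoImplicit false

namespace Pool.MP_70e04f_ag.Strip

open MvPolynomial

/-- The expected dimension at general complex points. -/
def GExp {n : ℕ} (d : ℕ) (mm : Fin n → ℕ) : Prop :=
  ∃ g : MvPolynomial (Fin n × Fin 2) ℂ, g ≠ 0 ∧
    ∀ p : Fin n → Fin 2 → ℂ,
      MvPolynomial.eval (fun q : Fin n × Fin 2 => p q.1 q.2) g ≠ 0 →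
        ((2 : ℤ) * ((Module.finrank ℂ
            ↥(MvPolynomial.restrictTotalDegree (Fin 2) ℂ d ⊓
              ⨅ i : Fin n, Submodule.restrictScalars ℂ
                ((RingHom.ker (MvPolynomial.eval (p i)) :
                    Ideal (MvPolynomial (Fin 2) ℂ)) ^ mm i)) : ℕ) : ℤ)
          = max 0 (((d : ℤ) + 1) * ((d : ℤ) + 2) -
              ∑ i, (mm i : ℤ) * ((mm i : ℤ) + 1)))

private theorem SGExp_fin {n : ℕ} (d : ℕ) (m : Fin n → ℕ) (p : Fin n → Fin 2 → ℂ)
    (h1 : Good (condMat (d + 1) m p)) :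
    ((2 : ℤ) * ((Module.finrank ℂ
            ↥(MvPolynomial.restrictTotalDegree (Fin 2) ℂ d ⊓
              ⨅ i : Fin n, Submodule.restrictScalars ℂ
                ((RingHom.ker (MvPolynomial.eval (p i)) :
                    Ideal (MvPolynomial (Fin 2) ℂ)) ^ m i)) : ℕ) : ℤ)
          = max 0 (((d : ℤ) + 1) * ((d : ℤ) + 2) - ∑ i, (m i : ℤ) * ((m i : ℤ) + 1))) := by
  classical
  have h2 := h1.finrank_eq
  have h3 := finrank_system ℂ d m p
  have h4 : Module.finrank ℂ ↥(MvPolynomial.restrictTotalDegree (Fin 2) ℂ d ⊓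
              ⨅ i : Fin n, Submodule.restrictScalars ℂ
                ((RingHom.ker (MvPolynomial.eval (p i)) :
                    Ideal (MvPolynomial (Fin 2) ℂ)) ^ m i)) =
      Fintype.card ↥(tri (d + 1)) - Fintype.card (Σ i : Fin n, ↥(tri (m i))) := by
    rw [← h2, ← h3]; rfl
  rw [h4]
  have h5 : ((2 * Fintype.card ↥(tri (d + 1)) : ℕ) : ℤ) = ((d : ℤ) + 1) * ((d : ℤ) + 2) := by
    rw [Fintype.card_coe, two_card_tri]
    push_cast; ring
  have h6 : ((2 * Fintype.card (Σ i : Fin n, ↥(tri (m i))) : ℕ) : ℤ) =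
      ∑ i, (m i : ℤ) * ((m i : ℤ) + 1) := by
    rw [Fintype.card_sigma, Finset.mul_sum]
    push_cast
    refine Finset.sum_congr rfl fun i _ => ?_
    have := two_card_tri (m i)
    rw [Fintype.card_coe]
    exact_mod_cast this
  rw [← h5, ← h6]
  push_cast
  omega

/-- the universal matrix of conditions -/
private noncomputable def SGExp_B {n : ℕ} (N : ℕ) (m : Fin n → ℕ) :
    Matrix (Σ i : Fin n, ↥(tri (m i))) ↥(tri N) (MvPolynomial (Fin n × Fin 2) ℤ) :=
  condMat N m (fun i c => (X (i, c) : MvPolynomial (Fin n × Fin 2) ℤ))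

private theorem SGExp_map {S : Type*} [CommRing S] {n : ℕ} (N : ℕ) (m : Fin n → ℕ)
    (p : Fin n → Fin 2 → S) :
    (SGExp_B N m).map (eval₂Hom (Int.castRingHom S) (fun q : Fin n × Fin 2 => p q.1 q.2)) =
      condMat N m p := by
  unfold SGExp_B
  rw [condMat_map]
  congr 1
  funext i c
  simp

private theorem SGExp_eval {n : ℕ} (g : MvPolynomial (Fin n × Fin 2) ℤ) (p : Fin n → Fin 2 → ℂ) :
    eval (fun q : Fin n × Fin 2 => p q.1 q.2) (map (Int.castRingHom ℂ) g) =
      eval₂Hom (Int.castRingHom ℂ) (fun q : Fin n × Fin 2 => p q.1 q.2) g := by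
  rw [eval_map]
  rfl

private theorem SGExp_core {K : Type*} [Field K] {n : ℕ} (d : ℕ) (m : Fin n → ℕ)
    (p : Fin n → Fin 2 → K) (g0 : MvPolynomial (Fin n × Fin 2) ℤ)
    (h0 : eval₂Hom (Int.castRingHom K) (fun q : Fin n × Fin 2 => p q.1 q.2) g0 ≠ 0)
    (h1 : ∀ p : Fin n → Fin 2 → ℂ,
      eval₂Hom (Int.castRingHom ℂ) (fun q : Fin n × Fin 2 => p q.1 q.2) g0 ≠ 0 →
        Good (condMat (d + 1) m p)) : GExp d m := by
  refine ⟨map (Int.castRingHom ℂ) g0, ?_, ?_⟩
  · intro h
    have h2 : Function.Injective (Int.castRingHom ℂ) := Int.cast_injective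
    have h3 : g0 = 0 := map_injective (Int.castRingHom ℂ) h2 (by rw [h, map_zero])
    rw [h3, map_zero] at h0
    exact h0 rfl
  · intro p hp
    rw [SGExp_eval] at hp
    exact SGExp_fin d m p (h1 p hp)

/-- PROOF. Let `B = condMat (d + 1) m (fun i c => X (i, c))` over `MvPolynomial (Fin n × Fin 2) ℤ`. For
every commutative ring `S` and all points `p` over `S`, `condMat (d + 1) m p` is `B` mapped by
`eval₂Hom (Int.castRingHom S) (fun q => p q.1 q.2)` (`condMat_map`). By `exists_minor_left` or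
`exists_minor_right` (compare the cardinalities) a maximal minor `g0` of `B` has a nonzero image in
`K`, so `g0 ≠ 0`; `g = map (Int.castRingHom ℂ) g0 ≠ 0` (`MvPolynomial.map_injective`). If `g` does not
vanish at a complex `p` then `condMat (d + 1) m p` is good (`good_of_minor_left`), and the end of the
proof of `generic_of_real` (`Lib_MP_70e04f_ag/General.lean`) gives the formula. -/
theorem gexp_of_good {K : Type*} [Field K] {n : ℕ} (d : ℕ) (m : Fin n → ℕ)
    (p : Fin n → Fin 2 → K) (h : Good (condMat (d + 1) m p)) : GExp d m := by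
  classical
  rcases le_total (Fintype.card ↥(tri (d + 1))) (Fintype.card (Σ i : Fin n, ↥(tri (m i)))) with hc | hc
  · obtain ⟨f, hf⟩ := exists_minor_left h hc
    have key : ∀ (S : Type _) [CommRing S] (p : Fin n → Fin 2 → S),
        eval₂Hom (Int.castRingHom S) (fun q : Fin n × Fin 2 => p q.1 q.2)
          ((SGExp_B (d + 1) m).submatrix f id).det = ((condMat (d + 1) m p).submatrix f id).det := by
      intro S _ p
      rw [RingHom.map_det, ← SGExp_map]
      rfl
    refine SGExp_core d m p ((SGExp_B (d + 1) m).submatrix f id).det ?_ ?_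
    · rw [key]
      exact hf
    · intro p hp
      have key2 : eval₂Hom (Int.castRingHom ℂ) (fun q : Fin n × Fin 2 => p q.1 q.2)
          ((SGExp_B (d + 1) m).submatrix f id).det = ((condMat (d + 1) m p).submatrix f id).det := by
        rw [RingHom.map_det, ← SGExp_map]
        rfl
      rw [key2] at hp
      exact good_of_minor_left f hp
  · obtain ⟨f, hf⟩ := exists_minor_right h hc
    have key : ∀ (S : Type _) [CommRing S] (p : Fin n → Fin 2 → S),
        eval₂Hom (Int.castRingHom S) (fun q : Fin n × Fin 2 => p q.1 q.2)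
          ((SGExp_B (d + 1) m).submatrix id f).det = ((condMat (d + 1) m p).submatrix id f).det := by
      intro S _ p
      rw [RingHom.map_det, ← SGExp_map]
      rfl
    refine SGExp_core d m p ((SGExp_B (d + 1) m).submatrix id f).det ?_ ?_
    · rw [key]
      exact hf
    · intro p hp
      have key2 : eval₂Hom (Int.castRingHom ℂ) (fun q : Fin n × Fin 2 => p q.1 q.2)
          ((SGExp_B (d + 1) m).submatrix id f).det = ((condMat (d + 1) m p).submatrix id f).det := by
        rw [RingHom.map_det, ← SGExp_map]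
        rfl
      rw [key2] at hp
      exact good_of_minor_right f hp

/-- Emptiness in degree `d` gives emptiness in smaller degrees.
PROOF. See `GenExp.le` in `Lib_MP_70e04f_hex/Generic.lean`:
both sides of the formula are zero for `d`, and the space in degree `D` is contained in the space in
degree `d`. -/
theorem GExp.le {n : ℕ} {d D : ℕ} {mm : Fin n → ℕ} (h : GExp d mm) (hD : D ≤ d)
    (hT : (d + 1) * (d + 2) ≤ ∑ i, mm i * (mm i + 1)) : GExp D mm := by
  obtain ⟨g, hg0, hg⟩ := h
  refine ⟨g, hg0, fun p hp => ?_⟩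
  have h1 := hg p hp
  have hT' : (((d + 1) * (d + 2) : ℕ) : ℤ) ≤ ∑ i, (mm i : ℤ) * ((mm i : ℤ) + 1) := by
    have : (((d + 1) * (d + 2) : ℕ) : ℤ) ≤ ((∑ i, mm i * (mm i + 1) : ℕ) : ℤ) := by
      exact_mod_cast hT
    push_cast at this ⊢
    exact this
  have e2 : ((d : ℤ) + 1) * ((d : ℤ) + 2) - ∑ i, (mm i : ℤ) * ((mm i : ℤ) + 1) ≤ 0 := by
    push_cast at hT'
    linarith
  rw [max_eq_left e2] at h1
  have hle : MvPolynomial.restrictTotalDegree (Fin 2) ℂ D ⊓
      ⨅ i : Fin n, Submodule.restrictScalars ℂ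
        ((RingHom.ker (MvPolynomial.eval (p i)) :
          Ideal (MvPolynomial (Fin 2) ℂ)) ^ mm i) ≤
      MvPolynomial.restrictTotalDegree (Fin 2) ℂ d ⊓
      ⨅ i : Fin n, Submodule.restrictScalars ℂ
        ((RingHom.ker (MvPolynomial.eval (p i)) :
          Ideal (MvPolynomial (Fin 2) ℂ)) ^ mm i) := by
    apply inf_le_inf_right
    intro f hf
    rw [MvPolynomial.mem_restrictTotalDegree] at hf ⊢
    omega
  have : Module.Finite ℂ ↥(MvPolynomial.restrictTotalDegree (Fin 2) ℂ d ⊓
      ⨅ i : Fin n, Submodule.restrictScalars ℂ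
        ((RingHom.ker (MvPolynomial.eval (p i)) :
          Ideal (MvPolynomial (Fin 2) ℂ)) ^ mm i)) :=
    Submodule.finiteDimensional_inf_left _ _
  have h2 := Submodule.finrank_mono hle
  have e3 : ((D : ℤ) + 1) * ((D : ℤ) + 2) - ∑ i, (mm i : ℤ) * ((mm i : ℤ) + 1) ≤ 0 := by
    have h3 : (D + 1) * (D + 2) ≤ (d + 1) * (d + 2) := Nat.mul_le_mul (by omega) (by omega)
    have h4 : (((D + 1) * (D + 2) : ℕ) : ℤ) ≤ (((d + 1) * (d + 2) : ℕ) : ℤ) := by exact_mod_cast h3
    push_cast at h4 hT'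
    linarith
  rw [max_eq_left e3]
  omega

end Pool.MP_70e04f_ag.Strip
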