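import Pool.Agent.Lib_MP_70e04f_strip.SDefs
import Pool.Agent.Lib_MP_70e04f_ag.Count

/-!
# Piece SJET: interpolation of jets, and the number of conditions of fat points
-/

set_option autoImplicit false

namespace Pool.MP_70e04f_ag.Strip

open MvPolynomial

variable {k : Type*} [Field k] {n : ℕ} {p : Fin n → Fin 2 → k}

theorem SJet_max (q : Fin 2 → k) : (mp q).IsMaximal :=
  RingHom.ker_isMaximal_of_surjective (MvPolynomial.eval q) (fun c => ⟨C c, by simp⟩)

theorem SJet_ne (hp : Function.Injective p) {i j : Fin n} (hij : i ≠ j) :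
    mp (p i) ≠ mp (p j) := by
  intro h
  apply hij
  apply hp
  funext c
  have h1 : (X c - C (p i c) : A2 k) ∈ mp (p i) := mem_mp.2 (by simp)
  rw [h] at h1
  have h2 := mem_mp.1 h1
  rw [map_sub, eval_X, eval_C] at h2
  exact (sub_eq_zero.1 h2).symm

theorem SJet_shift (q : Fin 2 → k) (f : A2 k) : shift q (shift (fun i => - q i) f) = f := by
  have h := shift_shift_neg (fun i => - q i) f
  simp only [neg_neg] at h
  exact h

/-- Powers of the maximal ideals of different points are comaximal.
PROOF. `mp (p i)` and `mp (p j)` are different maximal ideals (kernels of surjective evaluations; if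
`p i c ≠ p j c` then `X c - C (p i c)` is in the first and not in the second); powers of comaximal
ideals are comaximal (`IsCoprime.pow` / `Ideal.pow_sup_pow_eq_top`). -/
theorem mp_coprime (hp : Function.Injective p) {i j : Fin n} (hij : i ≠ j) (a b : ℕ) :
    IsCoprime (mp (p i) ^ a) (mp (p j) ^ b) := by
  have := SJet_max (p i)
  have := SJet_max (p j)
  exact (Ideal.isCoprime_of_isMaximal (SJet_ne hp hij)).pow

/-- Chinese remainder theorem for the points `p i`.
PROOF. `Ideal.quotientInfToPiQuotient_surj` (or `Ideal.exists_forall_sub_mem_ideal`) for the pairwise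
comaximal ideals `mp (p i) ^ β i`. -/
theorem crt (hp : Function.Injective p) (β : Fin n → ℕ) (g : Fin n → A2 k) :
    ∃ f : A2 k, ∀ i, f - g i ∈ mp (p i) ^ β i := by
  exact Ideal.exists_forall_sub_mem_ideal (I := fun i => mp (p i) ^ β i)
    (fun i j hij => mp_coprime hp hij _ _) g

/-- Interpolation of jets.
PROOF. `g i := shift (-p i)` of the polynomial `∑ r ∈ tri (β i), c i r • (X 0 ^ r.1 * X 1 ^ r.2)`, then
`crt`, and `mem_mp_pow` for the difference. -/
theorem jets (hp : Function.Injective p) (β : Fin n → ℕ) (c : Fin n → ℕ → ℕ → k) :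
    ∃ f : A2 k, ∀ i a b, a + b < β i → coeff (mon a b) (shift (p i) f) = c i a b := by
  obtain ⟨f, hf⟩ := crt hp β (fun i => shift (fun j => - p i j)
    (toPoly k (β i) (fun q => c i q.1.1 q.1.2)))
  refine ⟨f, fun i a b hab => ?_⟩
  have h1 := mem_mp_pow.1 (hf i) a b hab
  rw [map_sub, coeff_sub, SJet_shift] at h1
  have h2 := coeff_toPoly (K := k) (N := β i) (fun q => c i q.1.1 q.1.2)
    ⟨(a, b), mem_tri.2 hab⟩
  rw [sub_eq_zero.1 h1]
  exact h2

/-- the Taylor coefficients at all points -/
noncomputable def SJet_T (p : Fin n → Fin 2 → k) (β : Fin n → ℕ) :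
    A2 k →ₗ[k] ((i : Fin n) → (↥(tri (β i)) → k)) where
  toFun f := fun i q => coeff (mon q.1.1 q.1.2) (shift (p i) f)
  map_add' f g := by
    funext i q
    rw [map_add, coeff_add]
    rfl
  map_smul' c f := by
    funext i q
    rw [map_smul, coeff_smul]
    rfl

theorem SJet_T_apply (p : Fin n → Fin 2 → k) (β : Fin n → ℕ) (f : A2 k) (i : Fin n)
    (q : ↥(tri (β i))) : SJet_T p β f i q = coeff (mon q.1.1 q.1.2) (shift (p i) f) := rfl

theorem SJet_T_ker (p : Fin n → Fin 2 → k) (β : Fin n → ℕ) :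
    LinearMap.ker (SJet_T p β) = sp (Iz p β) := by
  ext f
  rw [LinearMap.mem_ker, mem_sp, mem_Iz]
  constructor
  · intro h i
    rw [mem_mp_pow]
    intro a b hab
    have h1 := congrFun (congrFun h i) ⟨(a, b), mem_tri.2 hab⟩
    exact h1
  · intro h
    funext i q
    exact mem_mp_pow.1 (h i) q.1.1 q.1.2 (mem_tri.1 q.2)

theorem SJet_T_surj (hp : Function.Injective p) (β : Fin n → ℕ) :
    Function.Surjective (SJet_T p β) := by
  classical
  intro v
  obtain ⟨f, hf⟩ := jets hp β (fun i a b =>
    if h : (a, b) ∈ tri (β i) then v i ⟨(a, b), h⟩ else 0)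
  refine ⟨f, ?_⟩
  funext i q
  rw [SJet_T_apply, hf i q.1.1 q.1.2 (mem_tri.1 q.2)]
  exact dif_pos q.2

/-- the quotient by the ideal of the points -/
noncomputable def SJet_equiv (hp : Function.Injective p) (β : Fin n → ℕ) :
    (A2 k ⧸ sp (Iz p β)) ≃ₗ[k] ((i : Fin n) → (↥(tri (β i)) → k)) :=
  (Submodule.quotEquivOfEq _ _ (SJet_T_ker p β).symm).trans
    ((SJet_T p β).quotKerEquivOfSurjective (SJet_T_surj hp β))

/-- PROOF. The `k`-linear map `A2 k → Π i, (tri (β i) → k)` given by the Taylor coefficients at the points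
`p i` is surjective (`jets`) with kernel `sp (Iz p β)` (`mem_Iz`, `mem_mp_pow`), so
`A2 k ⧸ sp (Iz p β)` is isomorphic to the right side (`LinearMap.quotKerEquivOfSurjective`). -/
theorem finC_Iz (hp : Function.Injective p) (β : Fin n → ℕ) : FinC (Iz p β) := by
  unfold FinC
  exact Module.Finite.equiv (SJet_equiv hp β).symm

/-- PROOF. See `finC_Iz`; the cardinality of `tri m` is `m (m + 1) / 2` (`two_card_tri` in
`Lib_MP_70e04f_ag/Count.lean`, which may be imported). -/
theorem len_Iz (hp : Function.Injective p) (β : Fin n → ℕ) :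
    2 * len (Iz p β) = ∑ i, β i * (β i + 1) := by
  have h : len (Iz p β) = ∑ i, (tri (β i)).card := by
    unfold len
    rw [(SJet_equiv hp β).finrank_eq, Module.finrank_pi_fintype]
    refine Finset.sum_congr rfl fun i _ => ?_
    rw [Module.finrank_fintype_fun_eq_card, Fintype.card_coe]
  rw [h, Finset.mul_sum]
  exact Finset.sum_congr rfl fun i _ => two_card_tri (β i)

/-- A polynomial which does not vanish at the points `p i` is a unit modulo `Iz p β`.
PROOF. `w ∉ mp (p i)`, which is maximal, so `(w)` is comaximal with `mp (p i)` and with its powers: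
choose `g i` with `w * g i - 1 ∈ mp (p i) ^ β i`; apply `crt` to `g`. -/
theorem unit_mod (hp : Function.Injective p) (β : Fin n → ℕ) (w : A2 k)
    (hw : ∀ i, w ∉ mp (p i)) : ∃ w' : A2 k, w * w' - 1 ∈ Iz p β := by
  have h : ∀ i, ∃ g : A2 k, w * g - 1 ∈ mp (p i) ^ β i := by
    intro i
    obtain ⟨y, z, hz, hyz⟩ := (SJet_max (p i)).exists_inv (hw i)
    have hc : IsCoprime (pr w) (mp (p i)) := by
      rw [Ideal.isCoprime_iff_exists]
      exact ⟨y * w, mem_pr.2 (dvd_mul_left _ _), z, hz, hyz⟩
    have hc2 : IsCoprime (pr w) (mp (p i) ^ β i) := hc.pow_right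
    rw [Ideal.isCoprime_iff_exists] at hc2
    obtain ⟨u, hu, v, hv, huv⟩ := hc2
    obtain ⟨g, rfl⟩ := mem_pr.1 hu
    refine ⟨g, ?_⟩
    have e : w * g - 1 = -v := by rw [← huv]; ring
    rw [e]
    exact neg_mem hv
  choose g hg using h
  obtain ⟨f, hf⟩ := crt hp β g
  refine ⟨f, mem_Iz.2 fun i => ?_⟩
  have e : w * f - 1 = w * (f - g i) + (w * g i - 1) := by ring
  rw [e]
  exact add_mem (Ideal.mul_mem_left _ _ (hf i)) (hg i)

end Pool.MP_70e04f_ag.Strip
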