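import Pool.Agent.Lib_MP_70e04f_strip.SDim
import Pool.Agent.Lib_MP_70e04f_strip.SJet
import Pool.Agent.Lib_MP_70e04f_strip.SGExp

/-!
# Piece SEXP: the expected dimension at given points
-/

set_option autoImplicit false

namespace Pool.MP_70e04f_ag.Strip

open MvPolynomial

/-- the system has (at most) the expected dimension at the points `p` -/
def EXP {k : Type*} [Field k] {n : ℕ} (d : ℕ) (m : Fin n → ℕ) (p : Fin n → Fin 2 → k) : Prop :=
  2 * (Module.finrank k ↥(Pt k d ⊓ sp (Iz p m)) : ℤ) ≤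
    max 0 (((d : ℤ) + 1) * ((d : ℤ) + 2) - ∑ i, (m i : ℤ) * ((m i : ℤ) + 1))

/-- PROOF. `cod_add` with `cod = 0` (`FinC.cod_eq_zero`), `two_finrank_Pt`, `len_Iz`, `finC_Iz`. -/
theorem EXP.of_ind {k : Type*} [Field k] {n : ℕ} {d : ℕ} {m : Fin n → ℕ} {p : Fin n → Fin 2 → k}
    (hp : Function.Injective p) (h : Ind d (Iz p m)) : EXP d m p := by
  have h1 := cod_add (finC_Iz hp m) d
  rw [((finC_Iz hp m).cod_eq_zero d).2 h] at h1
  have h2 := two_finrank_Pt (k := k) d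
  have h3 := len_Iz hp m
  unfold EXP
  refine le_max_of_le_right ?_
  have h4 : ((2 * len (Iz p m) : ℕ) : ℤ) = ∑ i, (m i : ℤ) * ((m i : ℤ) + 1) := by
    rw [h3]; push_cast; rfl
  have h5 : ((2 * Module.finrank k ↥(Pt k d) : ℕ) : ℤ) = ((d : ℤ) + 1) * ((d : ℤ) + 2) := by
    rw [h2]; push_cast; rfl
  rw [← h4, ← h5]
  push_cast
  omega

theorem EXP.of_bot {k : Type*} [Field k] {n : ℕ} {d : ℕ} {m : Fin n → ℕ} {p : Fin n → Fin 2 → k}
    (h : Pt k d ⊓ sp (Iz p m) = ⊥) : EXP d m p := by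
  unfold EXP
  rw [h, finrank_bot]
  simp

theorem SExp_system {k : Type*} [Field k] {n : ℕ} (d : ℕ) (m : Fin n → ℕ) (p : Fin n → Fin 2 → k) :
    Pt k d ⊓ sp (Iz p m) = system k d m p := by
  ext f
  unfold system Pt
  rw [Submodule.mem_inf, Submodule.mem_inf, mem_sp, mem_Iz, Submodule.mem_iInf]
  rfl

/-- PROOF. `Pt k d ⊓ sp (Iz p m)` is `system k d m p` (`Lib_MP_70e04f_ag/Mat.lean`); `finrank_system`,
`two_card_tri` (`Fintype.card` of a sigma type). -/
theorem EXP.good {k : Type*} [Field k] {n : ℕ} {d : ℕ} {m : Fin n → ℕ} {p : Fin n → Fin 2 → k}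
    (h : EXP d m p) : Good (condMat (d + 1) m p) := by
  unfold EXP at h
  rw [SExp_system, finrank_system] at h
  unfold Good
  have h5 : ((2 * Fintype.card ↥(tri (d + 1)) : ℕ) : ℤ) = ((d : ℤ) + 1) * ((d : ℤ) + 2) := by
    rw [Fintype.card_coe, two_card_tri]
    push_cast; ring
  have h6 : ((2 * Fintype.card (Σ i : Fin n, ↥(tri (m i))) : ℕ) : ℤ) =
      ∑ i, (m i : ℤ) * ((m i : ℤ) + 1) := by
    rw [Fintype.card_sigma, Finset.mul_sum]
    push_cast
    refine Finset.sum_congr rfl fun i _ => ?_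
    have := two_card_tri (m i)
    rw [Fintype.card_coe]
    exact_mod_cast this
  rw [← h5, ← h6] at h
  push_cast at h
  omega

end Pool.MP_70e04f_ag.Strip
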