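import Pool.Agent.Lib_MP_70e04f_strip.SExp

/-!
# Piece SSIMP: adding simple points
-/

set_option autoImplicit false

namespace Pool.MP_70e04f_ag.Strip

open MvPolynomial

/-- One more simple point.
PROOF. `Iz (update p j q) (update m j 1) = Iz p m ⊓ mp q` since `m j = 0`. Let
`V = Pt k d ⊓ sp (Iz p m)`. If `V = ⊥` take any `q`. Otherwise take `f ∈ V`, `f ≠ 0`, and `q` with
`eval q f ≠ 0` (`k` infinite: `MvPolynomial.funext`). Evaluation at `q` is a nonzero functional on `V`, so the
dimension of its kernel is `finrank V - 1`, and `2 (finrank V - 1) ≤ max 0 (..) - 2`, while `∑ m (m + 1)`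
increases by `2` (note `finrank V ≥ 1` so the `max` is the second argument, which is even or
positive). -/
theorem EXP.add_point {k : Type*} [Field k] [Infinite k] {n : ℕ} {d : ℕ} {m : Fin n → ℕ}
    {p : Fin n → Fin 2 → k} (h : EXP d m p) (j : Fin n) (hj : m j = 0) :
    ∃ q : Fin 2 → k, EXP d (Function.update m j 1) (Function.update p j q) := by
  classical
  -- membership in the new ideal
  have hmem : ∀ (q : Fin 2 → k) (f : A2 k),
      f ∈ Iz (Function.update p j q) (Function.update m j 1) ↔ f ∈ Iz p m ∧ eval q f = 0 := by
    intro q f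
    rw [mem_Iz, mem_Iz]
    constructor
    · intro hf
      refine ⟨fun i => ?_, ?_⟩
      · by_cases hi : i = j
        · subst hi
          rw [hj, pow_zero, Ideal.one_eq_top]
          trivial
        · have := hf i
          rwa [Function.update_of_ne hi, Function.update_of_ne hi] at this
      · have := hf j
        rw [Function.update_self, Function.update_self, pow_one] at this
        exact mem_mp.1 this
    · rintro ⟨hf, hq⟩ i
      by_cases hi : i = j
      · subst hi
        rw [Function.update_self, Function.update_self, pow_one]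
        exact mem_mp.2 hq
      · rw [Function.update_of_ne hi, Function.update_of_ne hi]
        exact hf i
  have hle : ∀ q : Fin 2 → k,
      Pt k d ⊓ sp (Iz (Function.update p j q) (Function.update m j 1)) ≤ Pt k d ⊓ sp (Iz p m) :=
    fun q f hf => ⟨hf.1, ((hmem q f).1 hf.2).1⟩
  have hsum : ∑ i, ((Function.update m j 1 i : ℕ) : ℤ) *
      (((Function.update m j 1 i : ℕ) : ℤ) + 1) = ∑ i, (m i : ℤ) * ((m i : ℤ) + 1) + 2 := by
    rw [← Finset.add_sum_erase _ _ (Finset.mem_univ j),
      ← Finset.add_sum_erase Finset.univ (fun i => (m i : ℤ) * ((m i : ℤ) + 1))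
        (Finset.mem_univ j)]
    have h1 : ∑ i ∈ Finset.univ.erase j, ((Function.update m j 1 i : ℕ) : ℤ) *
        (((Function.update m j 1 i : ℕ) : ℤ) + 1) =
        ∑ i ∈ Finset.univ.erase j, (m i : ℤ) * ((m i : ℤ) + 1) := by
      refine Finset.sum_congr rfl fun i hi => ?_
      rw [Function.update_of_ne (Finset.ne_of_mem_erase hi)]
    rw [h1, Function.update_self, hj]
    push_cast
    ring
  have hfinP : Module.Finite k ↥(Pt k d) := inferInstance
  have hfin : Module.Finite k ↥(Pt k d ⊓ sp (Iz p m)) :=
    Submodule.finiteDimensional_of_le (inf_le_left : Pt k d ⊓ sp (Iz p m) ≤ Pt k d)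
  unfold EXP at h ⊢
  by_cases hV : Pt k d ⊓ sp (Iz p m) = ⊥
  · refine ⟨0, ?_⟩
    have h0 : Pt k d ⊓ sp (Iz (Function.update p j 0) (Function.update m j 1)) = ⊥ :=
      le_bot_iff.1 ((hle 0).trans hV.le)
    rw [h0, finrank_bot]
    simp
  · obtain ⟨f, hf, hf0⟩ := Submodule.exists_mem_ne_zero_of_ne_bot hV
    obtain ⟨q, hq⟩ : ∃ q : Fin 2 → k, eval q f ≠ 0 := by
      by_contra hcon
      push Not at hcon
      exact hf0 (MvPolynomial.funext fun q => by rw [hcon q, map_zero])
    refine ⟨q, ?_⟩
    have hlt : Pt k d ⊓ sp (Iz (Function.update p j q) (Function.update m j 1)) <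
        Pt k d ⊓ sp (Iz p m) := by
      refine lt_of_le_of_ne (hle q) fun heq => hq ?_
      rw [← heq] at hf
      exact ((hmem q f).1 hf.2).2
    have h1 := Submodule.finrank_lt_finrank_of_lt hlt
    rw [hsum]
    set a := Module.finrank k ↥(Pt k d ⊓ sp (Iz p m)) with ha
    set b := Module.finrank k
      ↥(Pt k d ⊓ sp (Iz (Function.update p j q) (Function.update m j 1))) with hb
    set s := ∑ i, (m i : ℤ) * ((m i : ℤ) + 1) with hs
    set c := ((d : ℤ) + 1) * ((d : ℤ) + 2) with hc
    omega

theorem SSimp_base {k : Type*} [Field k] {n r : ℕ} {d : ℕ} {m : Fin n → ℕ}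
    (ι : Fin r → Fin n) (hι : Function.Injective ι) (hm : ∀ i, i ∉ Set.range ι → m i = 0)
    {p' : Fin r → Fin 2 → k} (h : EXP d (fun a => m (ι a)) p') :
    ∃ p : Fin n → Fin 2 → k, EXP d m p := by
  classical
  refine ⟨fun i => if h : ∃ a, ι a = i then p' h.choose else 0, ?_⟩
  set p : Fin n → Fin 2 → k := fun i => if h : ∃ a, ι a = i then p' h.choose else 0 with hp
  have hpι : ∀ a, p (ι a) = p' a := by
    intro a
    have hex : ∃ b, ι b = ι a := ⟨a, rfl⟩
    simp only [hp, dif_pos hex]
    exact congrArg p' (hι hex.choose_spec)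
  have hI : Iz p m = Iz p' (fun a => m (ι a)) := by
    ext f
    rw [mem_Iz, mem_Iz]
    constructor
    · intro hf a
      have := hf (ι a)
      rwa [hpι] at this
    · intro hf i
      by_cases hi : i ∈ Set.range ι
      · obtain ⟨a, rfl⟩ := hi
        rw [hpι]
        exact hf a
      · rw [hm i hi, pow_zero, Ideal.one_eq_top]
        trivial
  have hsum : ∑ a, (m (ι a) : ℤ) * ((m (ι a) : ℤ) + 1) = ∑ i, (m i : ℤ) * ((m i : ℤ) + 1) := by
    refine Finset.sum_of_injOn ι hι.injOn (fun _ _ => Finset.mem_coe.2 (Finset.mem_univ _))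
      (fun i _ hi => ?_) (fun _ _ => rfl)
    have hi' : i ∉ Set.range ι := by
      intro h
      apply hi
      simpa using h
    rw [hm i hi']
    simp
  unfold EXP at h ⊢
  rw [hI, ← hsum]
  exact h

/-- PROOF. First for `m' i = m i` on the range of `ι` and `0` elsewhere, with `p (ι a) = p' a` and `p i = 0`
elsewhere: `Iz p m' = Iz p' (m ∘ ι)` and the sums agree (`Finset.sum` over the range of an injective
map). Then add the points `i ∉ range ι` with `m i = 1` one by one (`EXP.add_point`, induction on a finite
set of indices). -/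
theorem EXP.extend {k : Type*} [Field k] [Infinite k] {n r : ℕ} {d : ℕ} {m : Fin n → ℕ}
    (ι : Fin r → Fin n) (hι : Function.Injective ι) (hm : ∀ i, i ∉ Set.range ι → m i ≤ 1)
    {p' : Fin r → Fin 2 → k} (h : EXP d (fun a => m (ι a)) p') :
    ∃ p : Fin n → Fin 2 → k, EXP d m p := by
  classical
  have key : ∀ S : Finset (Fin n), ∃ p : Fin n → Fin 2 → k,
      EXP d (fun i => if i ∈ Set.range ι ∨ i ∈ S then m i else 0) p := by
    intro S
    induction S using Finset.induction_on with
    | empty =>
      refine SSimp_base ι hι (fun i hi => ?_) (p' := p') ?_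
      · rw [if_neg]
        simpa using hi
      · have : (fun a => if ι a ∈ Set.range ι ∨ ι a ∈ (∅ : Finset (Fin n)) then m (ι a) else 0)
            = fun a => m (ι a) := by
          funext a
          rw [if_pos (Or.inl ⟨a, rfl⟩)]
        rw [this]
        exact h
    | insert i S hi ih =>
      obtain ⟨p, hp⟩ := ih
      by_cases hir : i ∈ Set.range ι ∨ m i = 0
      · refine ⟨p, ?_⟩
        have : (fun i' => if i' ∈ Set.range ι ∨ i' ∈ insert i S then m i' else 0)
            = fun i' => if i' ∈ Set.range ι ∨ i' ∈ S then m i' else 0 := by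
          funext i'
          by_cases hii : i' = i
          · subst hii
            rcases hir with h1 | h1
            · rw [if_pos (Or.inl h1), if_pos (Or.inl h1)]
            · rw [h1, ite_self, ite_self]
          · have : i' ∈ insert i S ↔ i' ∈ S := by
              rw [Finset.mem_insert]
              exact or_iff_right hii
            simp only [this]
        rw [this]
        exact hp
      · rw [not_or] at hir
        have h1 : m i = 1 := by
          have := hm i hir.1
          have := hir.2
          omega
        obtain ⟨q, hq⟩ := EXP.add_point hp i (by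
          rw [if_neg]
          rw [not_or]
          exact ⟨hir.1, hi⟩)
        refine ⟨Function.update p i q, ?_⟩
        have : (fun i' => if i' ∈ Set.range ι ∨ i' ∈ insert i S then m i' else 0)
            = Function.update (fun i' => if i' ∈ Set.range ι ∨ i' ∈ S then m i' else 0) i 1 := by
          funext i'
          by_cases hii : i' = i
          · subst hii
            rw [Function.update_self, if_pos (Or.inr (Finset.mem_insert_self _ _)), h1]
          · rw [Function.update_of_ne hii]
            have : i' ∈ insert i S ↔ i' ∈ S := by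
              rw [Finset.mem_insert]
              exact or_iff_right hii
            simp only [this]
        rw [this]
        exact hq
  obtain ⟨p, hp⟩ := key Finset.univ
  refine ⟨p, ?_⟩
  have : (fun i => if i ∈ Set.range ι ∨ i ∈ Finset.univ then m i else 0) = m := by
    funext i
    rw [if_pos (Or.inr (Finset.mem_univ i))]
  rw [this] at hp
  exact hp

end Pool.MP_70e04f_ag.Strip
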