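import Pool.Agent.Lib_MP_70e04f_strip.SDim

/-!
# Piece SBEZ: the theorem of Bezout by dimension counting
-/

set_option autoImplicit false

namespace Pool.MP_70e04f_ag.Strip

open MvPolynomial

variable {k : Type*} [Field k]

/-- an increasing exhausting sequence of finite dimensional subspaces of bounded dimension -/
theorem SBez_exhaust {V : Type*} [AddCommGroup V] [Module k V] (B : ℕ → Submodule k V)
    (hfd : ∀ t, Module.Finite k ↥(B t)) (hmono : ∀ s t, s ≤ t → B s ≤ B t)
    (hex : ∀ v : V, ∃ t, v ∈ B t) (N : ℕ) (hN : ∀ t, Module.finrank k ↥(B t) ≤ N) :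
    Module.Finite k V ∧ Module.finrank k V ≤ N := by
  obtain ⟨_, ⟨t0, rfl⟩, hmin⟩ := (wellFounded_lt (α := ℕ)).has_min
    (Set.range fun t => N - Module.finrank k ↥(B t)) ⟨_, 0, rfl⟩
  have hmax : ∀ t, Module.finrank k ↥(B t) ≤ Module.finrank k ↥(B t0) := by
    intro t
    have h1 := hmin _ ⟨t, rfl⟩
    have h2 := hN t
    have h3 := hN t0
    simp only at h1
    omega
  have htop : B t0 = ⊤ := by
    rw [eq_top_iff]
    intro v _
    obtain ⟨t, ht⟩ := hex v
    have h1 : B t0 ≤ B (max t t0) := hmono _ _ (le_max_right _ _)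
    have := hfd (max t t0)
    have h2 : B t0 = B (max t t0) := Submodule.eq_of_le_of_finrank_le h1 (hmax _)
    rw [h2]
    exact hmono _ _ (le_max_left _ _) ht
  have := hfd t0
  refine ⟨Module.Finite.equiv (LinearEquiv.ofTop (B t0) htop), ?_⟩
  rw [← (LinearEquiv.ofTop (B t0) htop).finrank_eq]
  exact hN t0

/-- rank and nullity for the image of `Pt k t` in a quotient -/
theorem SBez_rank (t : ℕ) (J : Submodule k (A2 k)) :
    Module.finrank k ↥((Pt k t).map J.mkQ) + Module.finrank k ↥(Pt k t ⊓ J) =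
      Module.finrank k ↥(Pt k t) := by
  have h1 := LinearMap.finrank_range_add_finrank_ker (J.mkQ ∘ₗ (Pt k t).subtype)
  have h2 : LinearMap.range (J.mkQ ∘ₗ (Pt k t).subtype) = (Pt k t).map J.mkQ := by
    rw [LinearMap.range_comp, Submodule.range_subtype]
  have h3 : LinearMap.ker (J.mkQ ∘ₗ (Pt k t).subtype) = J.comap (Pt k t).subtype := by
    rw [LinearMap.ker_comp, Submodule.ker_mkQ]
  have h4 : Module.finrank k ↥(J.comap (Pt k t).subtype) = Module.finrank k ↥(Pt k t ⊓ J) := by
    have e := Submodule.equivSubtypeMap (Pt k t) (J.comap (Pt k t).subtype)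
    rw [e.finrank_eq, Submodule.map_comap_subtype]
  rw [h2, h3, h4] at h1
  exact h1

/-- the combination map `(u, v) ↦ F u + G v` -/
noncomputable def SBez_psi (F G : A2 k) (a b : ℕ) : (↥(Pt k a) × ↥(Pt k b)) →ₗ[k] A2 k :=
  LinearMap.coprod (LinearMap.mulLeft k F ∘ₗ (Pt k a).subtype)
    (LinearMap.mulLeft k G ∘ₗ (Pt k b).subtype)

theorem SBez_psi_apply (F G : A2 k) (a b : ℕ) (u : ↥(Pt k a)) (v : ↥(Pt k b)) :
    SBez_psi F G a b (u, v) = F * u + G * v := by
  simp [SBez_psi]

/-- the syzygies `w ↦ (G w, - F w)` -/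
noncomputable def SBez_theta (F G : A2 k) (s : ℕ) :
    ↥(Pt k s) →ₗ[k] ↥(Pt k (G.totalDegree + s)) × ↥(Pt k (F.totalDegree + s)) :=
  LinearMap.prod
    ((LinearMap.mulLeft k G ∘ₗ (Pt k s).subtype).codRestrict (Pt k (G.totalDegree + s))
      (fun w => mul_mem_Pt (mem_Pt.2 le_rfl) w.2))
    ((LinearMap.mulLeft k (-F) ∘ₗ (Pt k s).subtype).codRestrict (Pt k (F.totalDegree + s))
      (fun w => mul_mem_Pt (mem_Pt.2 (totalDegree_neg F).le) w.2))

theorem SBez_ker {F G : A2 k} (hF : F ≠ 0) (h : IsRelPrime F G) (s : ℕ) :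
    Module.finrank k ↥(LinearMap.ker (SBez_psi F G (G.totalDegree + s) (F.totalDegree + s))) ≤
      Module.finrank k ↥(Pt k s) := by
  have h1 : LinearMap.ker (SBez_psi F G (G.totalDegree + s) (F.totalDegree + s)) ≤
      LinearMap.range (SBez_theta F G s) := by
    rintro ⟨u, v⟩ huv
    rw [LinearMap.mem_ker, SBez_psi_apply] at huv
    have h2 : F ∣ G * (v : A2 k) := ⟨-u, by linear_combination huv⟩
    have h3 : F ∣ (v : A2 k) := h.dvd_of_dvd_mul_left h2
    obtain ⟨w, hw⟩ := h3
    have h4 : (u : A2 k) = G * (-w) := by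
      have h5 : F * ((u : A2 k) + G * w) = 0 := by
        rw [hw] at huv
        linear_combination huv
      rcases mul_eq_zero.1 h5 with h6 | h6
      · exact absurd h6 hF
      · linear_combination h6
    have h7 : (-w) ∈ Pt k s := by
      rw [mem_Pt, totalDegree_neg]
      by_cases hw0 : w = 0
      · rw [hw0]; simp
      · have h8 := mem_Pt.1 v.2
        rw [hw, totalDegree_mul_of_isDomain hF hw0] at h8
        omega
    refine ⟨⟨-w, h7⟩, ?_⟩
    unfold SBez_theta
    rw [LinearMap.prod_apply]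
    refine Prod.ext ?_ ?_
    · apply Subtype.ext
      simp [h4]
    · apply Subtype.ext
      simp [hw]
  exact (Submodule.finrank_mono h1).trans (LinearMap.finrank_range_le _)

theorem SBez_bound {F G : A2 k} (hF : F ≠ 0) (h : IsRelPrime F G) (s : ℕ) :
    Module.finrank k ↥((Pt k (s + F.totalDegree + G.totalDegree)).map (sp (pr F ⊔ pr G)).mkQ) ≤
      F.totalDegree * G.totalDegree := by
  have h1 := SBez_rank (s + F.totalDegree + G.totalDegree) (sp (pr F ⊔ pr G))
  have h2 := LinearMap.finrank_range_add_finrank_ker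
    (SBez_psi F G (G.totalDegree + s) (F.totalDegree + s))
  rw [Module.finrank_prod] at h2
  have h3 := SBez_ker hF h s
  have h4 : LinearMap.range (SBez_psi F G (G.totalDegree + s) (F.totalDegree + s)) ≤
      Pt k (s + F.totalDegree + G.totalDegree) ⊓ sp (pr F ⊔ pr G) := by
    rintro _ ⟨⟨u, v⟩, rfl⟩
    rw [SBez_psi_apply]
    constructor
    · refine Submodule.add_mem _ ?_ ?_
      · have h5 := mul_mem_Pt (mem_Pt.2 (le_refl F.totalDegree)) u.2
        refine Pt_mono ?_ h5
        omega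
      · have h5 := mul_mem_Pt (mem_Pt.2 (le_refl G.totalDegree)) v.2
        refine Pt_mono ?_ h5
        omega
    · show F * (u : A2 k) + G * (v : A2 k) ∈ pr F ⊔ pr G
      exact Submodule.add_mem_sup (mem_pr.2 ⟨u, rfl⟩) (mem_pr.2 ⟨v, rfl⟩)
  have h5 : Module.Finite k ↥(Pt k (s + F.totalDegree + G.totalDegree) ⊓ sp (pr F ⊔ pr G)) :=
    Submodule.finiteDimensional_of_le inf_le_left
  have h6 := Submodule.finrank_mono h4
  have h7 := two_finrank_Pt (k := k) (s + F.totalDegree + G.totalDegree)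
  have h8 := two_finrank_Pt (k := k) (G.totalDegree + s)
  have h9 := two_finrank_Pt (k := k) (F.totalDegree + s)
  have h10 := two_finrank_Pt (k := k) s
  generalize F.totalDegree = e at *
  generalize G.totalDegree = f at *
  nlinarith

/-- PROOF. Let `e = deg F`, `f = deg G` and `t ≥ e + f`. The linear map
`Pt k (t - e) × Pt k (t - f) → Pt k t`, `(u, v) ↦ u F + v G` has kernel `{(G w, - F w) : w ∈ Pt k (t-e-f)}`:
if `u F = - v G` then `F ∣ v` (`F`, `G` relatively prime in the UFD `A2 k`), `v = - F w`, `u = G w` and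
`deg w ≤ t - e - f`. So by `two_finrank_Pt` the image has codimension `e f` in `Pt k t`, and the image
`B t` of `Pt k t` in `A2 k ⧸ sp (pr F ⊔ pr G)` has dimension `≤ e f`, for all `t ≥ e + f` and then for all
`t` (`B t` is increasing). `A2 k ⧸ sp (..)` is the union of the increasing sequence `B t`, so it is
finite dimensional of dimension `≤ e f`. -/
theorem bez {F G : A2 k} (hF : F ≠ 0) (hG : G ≠ 0) (h : IsRelPrime F G) :
    FinC (pr F ⊔ pr G) ∧ len (pr F ⊔ pr G) ≤ F.totalDegree * G.totalDegree := by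
  have _ := hG
  unfold FinC len
  have hmono : ∀ s t, s ≤ t → (Pt k s).map (sp (pr F ⊔ pr G)).mkQ ≤
      (Pt k t).map (sp (pr F ⊔ pr G)).mkQ := fun s t hst => Submodule.map_mono (Pt_mono hst)
  refine SBez_exhaust (fun t => (Pt k t).map (sp (pr F ⊔ pr G)).mkQ) (fun t => inferInstance)
    hmono ?_ _ ?_
  · intro v
    obtain ⟨g, rfl⟩ := Submodule.mkQ_surjective _ v
    exact ⟨g.totalDegree, Submodule.mem_map_of_mem (mem_Pt.2 le_rfl)⟩
  · intro t
    refine (Submodule.finrank_mono (hmono t (t + F.totalDegree + G.totalDegree) ?_)).trans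
      (SBez_bound hF h t)
    omega

/-- PROOF. An irreducible `F` is relatively prime to everything it does not divide. -/
theorem irr_relPrime {F f : A2 k} (hF : Irreducible F) (hf : ¬ F ∣ f) : IsRelPrime F f := by
  exact (hF.isRelPrime_iff_not_dvd).2 hf

end Pool.MP_70e04f_ag.Strip
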