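import Pool.Agent.Lib_MP_70e04f_strip.SBez

/-!
# Piece SBEZI: independence in large degree for a complete intersection
-/

set_option autoImplicit false

namespace Pool.MP_70e04f_ag.Strip

open MvPolynomial

variable {k : Type*} [Field k]

theorem SBezI_mono_mem {s : Fin 2 →₀ ℕ} {t : ℕ} (h : s 0 + s 1 ≤ t) (c : k) :
    (monomial s c : A2 k) ∈ Pt k t := by
  rw [mem_Pt]
  by_cases hc : c = 0
  · rw [hc]; simp
  · rw [totalDegree_monomial s hc, Finsupp.sum_fintype _ _ (fun _ => rfl), Fin.sum_univ_two]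
    exact h

theorem SBezI_step {J : Ideal (A2 k)} {t : ℕ} (h : PA (t + 1) J ≤ PA t J) :
    PA (t + 2) J ≤ PA (t + 1) J := by
  unfold PA at *
  refine sup_le ?_ le_sup_right
  intro g hg
  rw [mem_Pt] at hg
  rw [g.as_sum]
  refine Submodule.sum_mem _ fun s hs => ?_
  have h1 : s 0 + s 1 ≤ t + 2 := by
    have h2 := (le_totalDegree hs).trans hg
    rw [Finsupp.sum_fintype _ _ (fun _ => rfl), Fin.sum_univ_two] at h2
    exact h2
  obtain ⟨c, hc⟩ : ∃ c, c = coeff s g := ⟨_, rfl⟩
  rw [← hc]
  by_cases hd : s 0 + s 1 ≤ t + 1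
  · exact Submodule.mem_sup_left (SBezI_mono_mem hd c)
  · have h3 : ∃ i, s i ≠ 0 := by
      by_contra hcon
      push Not at hcon
      rw [hcon 0, hcon 1] at hd
      omega
    obtain ⟨i, hi⟩ := h3
    have h4 : Finsupp.single i 1 ≤ s := by
      rw [Finsupp.single_le_iff]
      omega
    have e : (monomial s c : A2 k) = X i * monomial (s - Finsupp.single i 1) c := by
      rw [X, monomial_mul, one_mul, add_comm, tsub_add_cancel_of_le h4]
    have h5 : (s - Finsupp.single i 1 : Fin 2 →₀ ℕ) 0 + (s - Finsupp.single i 1 : Fin 2 →₀ ℕ) 1 ≤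
        t + 1 := by
      rw [Finsupp.tsub_apply, Finsupp.tsub_apply]
      fin_cases i
      · have h6 : s 0 ≠ 0 := hi
        simp
        omega
      · have h6 : s 1 ≠ 0 := hi
        simp
        omega
    have h6 := h (Submodule.mem_sup_left (SBezI_mono_mem h5 c))
    obtain ⟨m, hm, j, hj, e2⟩ := Submodule.mem_sup.1 h6
    rw [e, ← e2, mul_add]
    refine Submodule.add_mem _ (Submodule.mem_sup_left ?_) (Submodule.mem_sup_right ?_)
    · have h7 := mul_mem_Pt (mem_Pt.2 (totalDegree_X (R := k) i).le) hm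
      refine Pt_mono ?_ h7
      omega
    · exact J.mul_mem_left _ hj

theorem SBezI_stable {J : Ideal (A2 k)} {t : ℕ} (h : PA (t + 1) J ≤ PA t J) : Ind t J := by
  have h1 : ∀ n, PA (t + n + 1) J ≤ PA (t + n) J := by
    intro n
    induction n with
    | zero => exact h
    | succ n ih => exact SBezI_step ih
  have h2 : ∀ n, PA (t + n) J ≤ PA t J := by
    intro n
    induction n with
    | zero => exact le_rfl
    | succ n ih => exact (h1 n).trans ih
  unfold Ind
  rw [eq_top_iff]
  intro f _
  have h3 : f ∈ PA (t + f.totalDegree) J :=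
    Submodule.mem_sup_left (mem_Pt.2 (Nat.le_add_left _ _))
  exact h2 _ h3

theorem SBezI_lt {J : Ideal (A2 k)} (hJ : FinC J) {t : ℕ} (h : cod t J ≤ cod (t + 1) J) :
    Ind t J := by
  refine SBezI_stable ?_
  have hf1 := hJ.cod_finite t
  have hf2 := hJ.cod_finite (t + 1)
  have hle : PA t J ≤ PA (t + 1) J := PA_mono (Nat.le_succ t) le_rfl
  have hs : Function.Surjective (Submodule.factor hle) := Submodule.factor_surjective hle
  have heq : Module.finrank k (A2 k ⧸ PA t J) = Module.finrank k (A2 k ⧸ PA (t + 1) J) :=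
    le_antisymm h (LinearMap.finrank_le_finrank_of_surjective hs)
  have hi : Function.Injective (Submodule.factor hle) :=
    (LinearMap.injective_iff_surjective_of_finrank_eq_finrank heq).2 hs
  intro x hx
  have h1 : Submodule.factor hle ((PA t J).mkQ x) = 0 := by
    rw [Submodule.factor_mk]
    exact (Submodule.Quotient.mk_eq_zero _).2 hx
  have h2 : (PA t J).mkQ x = 0 := hi (by rw [h1, map_zero])
  exact (Submodule.Quotient.mk_eq_zero _).1 h2

theorem SBezI_count {J : Ideal (A2 k)} (hJ : FinC J) (t : ℕ) : Ind t J ∨ cod t J + t ≤ len J := by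
  induction t with
  | zero => exact Or.inr (cod_le_len hJ 0)
  | succ t ih =>
    rcases ih with h | h
    · exact Or.inl (h.mono (Nat.le_succ t) le_rfl)
    · by_cases hi : Ind t J
      · exact Or.inl (hi.mono (Nat.le_succ t) le_rfl)
      · right
        have h1 : cod (t + 1) J < cod t J := by
          by_contra hcon
          exact hi (SBezI_lt hJ (not_lt.1 hcon))
        omega

/-- PROOF. Let `B t` be the image of `Pt k t` in `A2 k ⧸ sp (pr F ⊔ pr G)`. If `B t = B (t + 1)` then
`B (t + 1) = B (t + 2)`, because `Pt k (t + 2)` is spanned by `Pt k (t + 1)`, `X 0 * Pt k (t + 1)` and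
`X 1 * Pt k (t + 1)`; so `B t` is everything. The dimensions of the `B t` increase strictly until
`B t` is everything, and `dim B 0 ≥ 1` (if the quotient is not zero), so `dim B t ≥ min (t + 1) (dim)`. So
`B (e f)` is everything. -/
theorem bez_ind {F G : A2 k} (hF : F ≠ 0) (hG : G ≠ 0) (h : IsRelPrime F G) :
    Ind (F.totalDegree * G.totalDegree) (pr F ⊔ pr G) := by
  obtain ⟨h1, h2⟩ := bez hF hG h
  rcases SBezI_count h1 (len (pr F ⊔ pr G)) with h3 | h3
  · exact h3.mono h2 le_rfl
  · have h4 : Ind (len (pr F ⊔ pr G)) (pr F ⊔ pr G) := by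
      rw [← h1.cod_eq_zero]
      omega
    exact h4.mono h2 le_rfl

end Pool.MP_70e04f_ag.Strip
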