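import Pool.Agent.Lib_MP_70e04f_strip.SMu

/-!
# Piece SCHAIN: from irreducible curves to all curves
-/

set_option autoImplicit false

namespace Pool.MP_70e04f_ag.Strip

open MvPolynomial

variable {k : Type*} [Field k] {n : ℕ} {p : Fin n → Fin 2 → k}

/-- One more component.
PROOF. Let `f` be a polynomial. By `hF`, `f = g1 + (h1 + F u)` with `g1 ∈ Pt k (t + deg (F s))` and
`h1 ∈ Iz p (β + mu (F s))`. By `hs`, `u = g2 + (h2 + s v)` with `g2 ∈ Pt k (t + deg s)`,
`h2 ∈ Iz p (β + mu s)`. Then `F u = F g2 + F h2 + F s v`, `F g2 ∈ Pt k (t + deg (F s))`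
(`totalDegree_mul_of_isDomain`), `F h2 ∈ Iz p (β + mu (F s))` (`Iz_mul_mem`, `mu_mul`). -/
theorem chain_step {F s : A2 k} (hF0 : F ≠ 0) (hs0 : s ≠ 0) (t : ℕ) (β : Fin n → ℕ)
    (hF : Ind (t + (F * s).totalDegree) (Iz p (fun i => β i + mu (p i) (F * s)) ⊔ pr F))
    (hs : Ind (t + s.totalDegree) (Iz p (fun i => β i + mu (p i) s) ⊔ pr s)) :
    Ind (t + (F * s).totalDegree) (Iz p (fun i => β i + mu (p i) (F * s)) ⊔ pr (F * s)) := by
  rw [ind_iff] at hF hs ⊢
  intro f
  obtain ⟨g1, hg1, w1, hw1, e1⟩ := hF f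
  obtain ⟨h1, hh1, w2, hw2, e2⟩ := Submodule.mem_sup.mp hw1
  obtain ⟨u, rfl⟩ := mem_pr.mp hw2
  obtain ⟨g2, hg2, w3, hw3, e3⟩ := hs u
  obtain ⟨h2, hh2, w4, hw4, e4⟩ := Submodule.mem_sup.mp hw3
  obtain ⟨v, rfl⟩ := mem_pr.mp hw4
  have hdeg : (F * s).totalDegree = F.totalDegree + s.totalDegree :=
    totalDegree_mul_of_isDomain hF0 hs0
  refine ⟨g1 + F * g2, ?_, (h1 + F * h2) + F * s * v, ?_, ?_⟩
  · refine Submodule.add_mem _ hg1 ?_
    have := mul_mem_Pt (mem_Pt.2 (le_refl F.totalDegree)) hg2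
    refine Pt_mono ?_ this
    rw [hdeg]
    omega
  · refine Submodule.add_mem_sup ?_ ?_
    · refine Ideal.add_mem _ hh1 ?_
      have hFm : F ∈ Iz p (fun i => mu (p i) F) :=
        mem_Iz.2 fun i => (mem_iff_le_mu hF0 _).2 (le_refl _)
      have := Iz_mul_mem hFm hh2
      refine Iz_mono (fun i => ?_) this
      rw [mu_mul hF0 hs0]
      omega
    · exact mem_pr.2 (Dvd.intro v rfl)
  · rw [← e1, ← e2, ← e3, ← e4]
    ring

/-- All components.
PROOF. Induction on the factorization of `s` into irreducible polynomials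
(`WfDvdMonoid.induction_on_irreducible` or `UniqueFactorizationMonoid.induction_on_prime`), with the
statement for all divisors of the given polynomial. For a unit `s` we have `pr s = ⊤`. For
`F * s` use `chain_step`; the hypothesis `h` is used for `F` with `t1 = t + deg (F s)`,
`β1 = β + mu (F s)`: `t ≤ t1 ≤ t + E`, `β i ≤ β1 i ≤ β i + E` (`mu_le_deg`). -/
theorem chain (E t : ℕ) (β : Fin n → ℕ)
    (h : ∀ F : A2 k, Irreducible F → F.totalDegree ≤ E → ∀ (t1 : ℕ) (β1 : Fin n → ℕ), t ≤ t1 →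
      t1 ≤ t + E → (∀ i, β i ≤ β1 i) → (∀ i, β1 i ≤ β i + E) → Ind t1 (Iz p β1 ⊔ pr F))
    (s : A2 k) (hs0 : s ≠ 0) (hsE : s.totalDegree ≤ E) :
    Ind (t + s.totalDegree) (Iz p (fun i => β i + mu (p i) s) ⊔ pr s) := by
  revert hs0 hsE
  refine WfDvdMonoid.induction_on_irreducible (motive := fun s : A2 k => s ≠ 0 →
    s.totalDegree ≤ E → Ind (t + s.totalDegree) (Iz p (fun i => β i + mu (p i) s) ⊔ pr s))
    s ?_ ?_ ?_
  · intro h0
    exact absurd rfl h0
  · intro u hu _ _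
    have hp : pr u = ⊤ := by
      unfold pr
      exact Ideal.span_singleton_eq_top.mpr hu
    rw [hp, sup_top_eq]
    unfold Ind PA
    have : sp (⊤ : Ideal (A2 k)) = ⊤ := by
      ext f
      simp [mem_sp]
    rw [this, sup_top_eq]
  · intro a F ha0 hF ih _ hE
    have hF0 : F ≠ 0 := hF.ne_zero
    have hdeg : (F * a).totalDegree = F.totalDegree + a.totalDegree :=
      totalDegree_mul_of_isDomain hF0 ha0
    have hFa : F * a ≠ 0 := mul_ne_zero hF0 ha0
    refine chain_step hF0 ha0 t β ?_ (ih ha0 (by omega))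
    refine h F hF (by omega) _ _ (by omega) (by omega) (fun i => by omega) (fun i => ?_)
    have := mu_le_deg (q := p i) hFa
    show β i + mu (p i) (F * a) ≤ β i + E
    omega

end Pool.MP_70e04f_ag.Strip
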