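import Pool.Agent.Lib_MP_70e04f_strip.SDefs
import Pool.Agent.Lib_MP_70e04f_ag.Count

/-!
# Piece SDIM: dimension formulas (linear algebra)
-/

set_option autoImplicit false

namespace Pool.MP_70e04f_ag.Strip

open MvPolynomial

variable {k : Type*} [Field k]

/-- PROOF. `Pt k t` is the range of the injective map `toPoly k (t + 1)` from `↥(tri (t + 1)) → k`
(`mem_range_toPoly`, `toPoly_injective`), and `two_card_tri`. -/
theorem two_finrank_Pt (t : ℕ) : 2 * Module.finrank k ↥(Pt k t) = (t + 1) * (t + 2) := by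
  have h1 : Pt k t = LinearMap.range (toPoly k (t + 1)) := by
    ext f
    rw [LinearMap.mem_range]
    exact mem_range_toPoly t f
  rw [h1, LinearMap.finrank_range_of_inj (toPoly_injective k (t + 1)),
    Module.finrank_fintype_fun_eq_card, Fintype.card_coe, two_card_tri]

/-- PROOF. The map `Pt k t → A2 k ⧸ sp a` has kernel `Pt k t ⊓ sp a` and the quotient of the target by
its range is `A2 k ⧸ (Pt k t ⊔ sp a)`: rank nullity twice. -/
theorem cod_add {a : Ideal (A2 k)} (ha : FinC a) (t : ℕ) :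
    cod t a + Module.finrank k ↥(Pt k t) = len a + Module.finrank k ↥(Pt k t ⊓ sp a) := by
  have hfin : Module.Finite k (A2 k ⧸ sp a) := ha
  -- the map from `Pt` to the quotient
  let φ : ↥(Pt k t) →ₗ[k] (A2 k ⧸ sp a) := (sp a).mkQ.comp (Pt k t).subtype
  have h1 := LinearMap.finrank_range_add_finrank_ker φ
  have hr : LinearMap.range φ = (Pt k t).map (sp a).mkQ := by
    rw [LinearMap.range_comp, Submodule.range_subtype]
  have hk : Module.finrank k ↥(LinearMap.ker φ) = Module.finrank k ↥(Pt k t ⊓ sp a) := by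
    have e : LinearMap.ker φ = (Pt k t ⊓ sp a).comap (Pt k t).subtype := by
      ext f
      rw [LinearMap.mem_ker, LinearMap.comp_apply, Submodule.mkQ_apply,
        Submodule.Quotient.mk_eq_zero, Submodule.mem_comap, Submodule.mem_inf]
      exact ⟨fun h => ⟨f.2, h⟩, fun h => h.2⟩
    rw [e]
    exact (Submodule.comapSubtypeEquivOfLe (inf_le_left : Pt k t ⊓ sp a ≤ Pt k t)).finrank_eq
  rw [hr, hk] at h1
  have h2 := Submodule.finrank_quotient_add_finrank ((Pt k t).map (sp a).mkQ)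
  have h3 : Module.finrank k ((A2 k ⧸ sp a) ⧸ (Pt k t).map (sp a).mkQ) = cod t a := by
    have e : (PA t a).map (sp a).mkQ = (Pt k t).map (sp a).mkQ := by
      unfold PA
      rw [Submodule.map_sup, Submodule.mkQ_map_self, sup_bot_eq]
    have hle : sp a ≤ PA t a := le_sup_right
    unfold cod
    rw [← e]
    exact (Submodule.quotientQuotientEquivQuotient (sp a) (PA t a) hle).finrank_eq
  have h4 : len a = Module.finrank k (A2 k ⧸ sp a) := rfl
  omega

/-- PROOF. Multiplication by `F` is an isomorphism from `Pt k s` to `Pt k (s + deg F) ⊓ sp (pr F)`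
(`totalDegree_mul_of_isDomain`). -/
theorem finrank_inf_pr {F : A2 k} (hF : F ≠ 0) (s : ℕ) :
    Module.finrank k ↥(Pt k (s + F.totalDegree) ⊓ sp (pr F)) = Module.finrank k ↥(Pt k s) := by
  have hinj : Function.Injective (LinearMap.mulLeft k F) := by
    intro f g h
    exact mul_left_cancel₀ hF h
  have e : Pt k (s + F.totalDegree) ⊓ sp (pr F) = (Pt k s).map (LinearMap.mulLeft k F) := by
    ext f
    rw [Submodule.mem_inf, mem_sp, mem_pr, Submodule.mem_map]
    constructor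
    · rintro ⟨h1, g, rfl⟩
      refine ⟨g, ?_, rfl⟩
      by_cases hg : g = 0
      · rw [hg]
        exact zero_mem _
      · rw [mem_Pt, totalDegree_mul_of_isDomain hF hg] at h1
        exact mem_Pt.2 (by omega)
    · rintro ⟨g, hg, rfl⟩
      refine ⟨?_, g, rfl⟩
      rw [LinearMap.mulLeft_apply, mul_comm]
      exact mul_mem_Pt hg (mem_Pt.2 le_rfl)
  rw [e]
  exact ((Submodule.equivMapOfInjective _ hinj (Pt k s)).finrank_eq).symm

/-- PROOF. `F g` has degree `≥ deg F` unless `g = 0`. -/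
theorem inf_pr_eq_bot {F : A2 k} {t : ℕ} (ht : t < F.totalDegree) :
    Pt k t ⊓ sp (pr F) = ⊥ := by
  rw [eq_bot_iff]
  intro f hf
  rw [Submodule.mem_inf, mem_sp, mem_pr] at hf
  obtain ⟨h1, g, rfl⟩ := hf
  rw [Submodule.mem_bot]
  have hF : F ≠ 0 := by
    rintro rfl
    rw [totalDegree_zero] at ht
    omega
  by_cases hg : g = 0
  · rw [hg, mul_zero]
  · rw [mem_Pt, totalDegree_mul_of_isDomain hF hg] at h1
    omega

/-- PROOF. `sec t a F` is the dimension of the image of `Pt k t ⊓ sp a` in `A2 k ⧸ sp (pr F)`, the kernel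
is `(Pt k t ⊓ sp a) ⊓ sp (pr F) = Pt k t ⊓ sp (pr F)`. -/
theorem sec_add {F : A2 k} {a : Ideal (A2 k)} (ha : pr F ≤ a) (t : ℕ) :
    Module.finrank k ↥(Pt k t ⊓ sp a) = Module.finrank k ↥(Pt k t ⊓ sp (pr F)) + sec t a F := by
  have hfin : Module.Finite k ↥(Pt k t ⊓ sp a) :=
    Submodule.finiteDimensional_of_le (inf_le_left : Pt k t ⊓ sp a ≤ Pt k t)
  let φ : ↥(Pt k t ⊓ sp a) →ₗ[k] (A2 k ⧸ sp (pr F)) :=
    (sp (pr F)).mkQ.comp (Pt k t ⊓ sp a).subtype
  have h1 := LinearMap.finrank_range_add_finrank_ker φ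
  have hr : LinearMap.range φ = (Pt k t ⊓ sp a).map (sp (pr F)).mkQ := by
    rw [LinearMap.range_comp, Submodule.range_subtype]
  have hle : Pt k t ⊓ sp (pr F) ≤ Pt k t ⊓ sp a := inf_le_inf le_rfl (sp_mono ha)
  have hk : Module.finrank k ↥(LinearMap.ker φ) = Module.finrank k ↥(Pt k t ⊓ sp (pr F)) := by
    have e : LinearMap.ker φ = (Pt k t ⊓ sp (pr F)).comap (Pt k t ⊓ sp a).subtype := by
      ext f
      rw [LinearMap.mem_ker, LinearMap.comp_apply, Submodule.mkQ_apply,
        Submodule.Quotient.mk_eq_zero, Submodule.mem_comap, Submodule.mem_inf]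
      exact ⟨fun h => ⟨(Submodule.mem_inf.1 f.2).1, h⟩, fun h => h.2⟩
    rw [e]
    exact (Submodule.comapSubtypeEquivOfLe hle).finrank_eq
  rw [hr, hk] at h1
  have h4 : sec t a F = Module.finrank k ↥((Pt k t ⊓ sp a).map (sp (pr F)).mkQ) := rfl
  omega

/-- a complement of the multiples of `F`.
PROOF. `Submodule.exists_isCompl` in `↥(Pt k t ⊓ sp a)`, mapped to `A2 k`, and `sec_add`. -/
theorem exists_sections {F : A2 k} {a : Ideal (A2 k)} (ha : pr F ≤ a) (t : ℕ) :
    ∃ W : Submodule k (A2 k), W ≤ Pt k t ∧ (∀ s ∈ W, s ∈ a) ∧ (∀ s ∈ W, s ≠ 0 → ¬ F ∣ s) ∧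
      Module.finrank k ↥W = sec t a F := by
  have hfin : Module.Finite k ↥(Pt k t ⊓ sp a) :=
    Submodule.finiteDimensional_of_le (inf_le_left : Pt k t ⊓ sp a ≤ Pt k t)
  have hle : Pt k t ⊓ sp (pr F) ≤ Pt k t ⊓ sp a := inf_le_inf le_rfl (sp_mono ha)
  obtain ⟨W', hW'⟩ := Submodule.exists_isCompl
    ((Pt k t ⊓ sp (pr F)).comap (Pt k t ⊓ sp a).subtype)
  have hmem : ∀ s ∈ W'.map (Pt k t ⊓ sp a).subtype, s ∈ Pt k t ⊓ sp a := by
    rintro s ⟨f, _, rfl⟩
    exact f.2
  refine ⟨W'.map (Pt k t ⊓ sp a).subtype, fun s hs => (Submodule.mem_inf.1 (hmem s hs)).1,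
    fun s hs => (Submodule.mem_inf.1 (hmem s hs)).2, ?_, ?_⟩
  · rintro s ⟨f, hf, rfl⟩ hs0 hdvd
    apply hs0
    have h1 : f ∈ (Pt k t ⊓ sp (pr F)).comap (Pt k t ⊓ sp a).subtype := by
      rw [Submodule.mem_comap, Submodule.mem_inf]
      exact ⟨(Submodule.mem_inf.1 f.2).1, mem_pr.2 hdvd⟩
    have h2 := Submodule.disjoint_def.1 hW'.disjoint f h1 hf
    rw [h2]
    rfl
  · have h1 := Submodule.finrank_add_eq_of_isCompl hW'
    have h2 := (Submodule.comapSubtypeEquivOfLe hle).finrank_eq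
    have h3 := sec_add ha t
    have h4 := ((Submodule.equivMapOfInjective _ (Submodule.injective_subtype (Pt k t ⊓ sp a))
      W').finrank_eq).symm
    omega

theorem cod_le_len {a : Ideal (A2 k)} (ha : FinC a) (t : ℕ) : cod t a ≤ len a := by
  have hfin : Module.Finite k (A2 k ⧸ sp a) := ha
  have hle : sp a ≤ PA t a := le_sup_right
  exact LinearMap.finrank_le_finrank_of_surjective (Submodule.factor_surjective hle)

end Pool.MP_70e04f_ag.Strip
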