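import Pool.Agent.Lib_MP_70e04f_strip.SDer
import Pool.Agent.Lib_MP_70e04f_ag.Count

/-!
# Piece SGEN: generic points impose independent conditions
-/

set_option autoImplicit false

namespace Pool.MP_70e04f_ag.Strip

open MvPolynomial

/-- The generalized Vandermonde determinant is not zero.
PROOF. `det = ∑ σ, sign σ * ∏ r, X (s (σ r), 0) ^ (c r).1 * X (s (σ r), 1) ^ (c r).2` (or the transpose).
Since the exponents `c r` and the indices `s r` are different for different `r`, the monomials of the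
different permutations are different, so the coefficient of the monomial of `σ = 1` is `1`. -/
theorem genvan_det_ne {n ℓ N : ℕ} [Fact ℓ.Prime] (s : Fin N → Fin n) (hs : Function.Injective s)
    (c : Fin N → ℕ × ℕ) (hc : Function.Injective c) :
    (Matrix.of (fun i r : Fin N =>
      (X (s i, 0) ^ (c r).1 * X (s i, 1) ^ (c r).2 : RR n ℓ))).det ≠ 0 := by
  classical
  intro h0
  obtain ⟨E, hE⟩ : ∃ E : Equiv.Perm (Fin N) → (Fin n × Fin 2 →₀ ℕ), ∀ σ, E σ =
      ∑ r, (Finsupp.single (s (σ r), (0 : Fin 2)) (c r).1 +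
        Finsupp.single (s (σ r), (1 : Fin 2)) (c r).2) := ⟨_, fun _ => rfl⟩
  have hterm : ∀ σ : Equiv.Perm (Fin N),
      (∏ r, (X (s (σ r), 0) ^ (c r).1 * X (s (σ r), 1) ^ (c r).2 : RR n ℓ)) =
        monomial (E σ) 1 := by
    intro σ
    rw [hE, monomial_sum_one]
    refine Finset.prod_congr rfl fun r _ => ?_
    rw [X_pow_eq_monomial, X_pow_eq_monomial, monomial_mul, one_mul]
  have hE0 : ∀ (σ : Equiv.Perm (Fin N)) (i : Fin N), E σ (s i, 0) = (c (σ.symm i)).1 := by
    intro σ i
    rw [hE, Finsupp.finsetSum_apply, Finset.sum_eq_single (σ.symm i)]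
    · simp
    · intro r _ hr
      have : s (σ r) ≠ s i := fun h => hr (by rw [← hs h]; simp)
      simp [this]
    · intro h
      exact absurd (Finset.mem_univ _) h
  have hE1 : ∀ (σ : Equiv.Perm (Fin N)) (i : Fin N), E σ (s i, 1) = (c (σ.symm i)).2 := by
    intro σ i
    rw [hE, Finsupp.finsetSum_apply, Finset.sum_eq_single (σ.symm i)]
    · simp
    · intro r _ hr
      have : s (σ r) ≠ s i := fun h => hr (by rw [← hs h]; simp)
      simp [this]
    · intro h
      exact absurd (Finset.mem_univ _) h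
  have hne : ∀ σ : Equiv.Perm (Fin N), σ ≠ 1 → E σ ≠ E 1 := by
    intro σ hσ h
    apply hσ
    have h2 : ∀ i, σ.symm i = i := by
      intro i
      apply hc
      have e0 := hE0 σ i
      have e1 := hE1 σ i
      rw [h, hE0] at e0
      rw [h, hE1] at e1
      have : (1 : Equiv.Perm (Fin N)).symm i = i := rfl
      rw [this] at e0 e1
      exact Prod.ext e0.symm e1.symm
    ext i
    have := h2 (σ i)
    rw [Equiv.symm_apply_apply] at this
    rw [← this]
    rfl
  have h1 := congrArg (coeff (E 1)) h0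
  rw [Matrix.det_apply, coeff_sum, Finset.sum_eq_single 1] at h1
  · simp only [Matrix.of_apply, Equiv.Perm.sign_one, one_smul] at h1
    rw [hterm, coeff_monomial, if_pos rfl, coeff_zero] at h1
    exact one_ne_zero h1
  · intro σ _ hσ
    simp only [Matrix.of_apply]
    rw [hterm, Units.smul_def, coeff_smul, coeff_monomial, if_neg (hne σ hσ), smul_zero]
  · intro h
    exact absurd (Finset.mem_univ _) h

/-- PROOF. `G = ∑ c ∈ tri (δ + 1), coeff c * x ^ c.1 y ^ c.2`. Let `N = (tri (δ + 1)).card`, so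
`2 N = (δ + 1) (δ + 2)` (`two_card_tri` of `Lib_MP_70e04f_ag/Count.lean`) and `N ≤ S.card`; choose
`s : Fin N → Fin n` injective with values in `S` and an enumeration `c` of `tri (δ + 1)`. The vector of
the coefficients of `G` is in the kernel of the matrix of `genvan_det_ne` mapped to `KK n ℓ`, whose
determinant is not zero. -/
theorem gen_vanish {n ℓ : ℕ} [Fact ℓ.Prime] (S : Finset (Fin n)) (δ : ℕ)
    (hS : (δ + 1) * (δ + 2) ≤ 2 * S.card) {G : A2 (KK n ℓ)} (hG : G.totalDegree ≤ δ)
    (h : ∀ i ∈ S, G ∈ mp (gp n ℓ i)) : G = 0 := by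
  classical
  obtain ⟨v, hv⟩ := (mem_range_toPoly δ G).1 ((mem_restrictTotalDegree (Fin 2) δ G).2 hG)
  have hN : (tri (δ + 1)).card ≤ S.card := by
    have := two_card_tri (δ + 1)
    have h2 : (δ + 1) * (δ + 1 + 1) = (δ + 1) * (δ + 2) := rfl
    omega
  obtain ⟨s, hs⟩ : ∃ s : Fin (tri (δ + 1)).card → Fin n,
      ∀ i, s i = (S.equivFin.symm (Fin.castLE hN i) : Fin n) := ⟨_, fun _ => rfl⟩
  have hsi : Function.Injective s := by
    intro i j hij
    rw [hs, hs] at hij
    exact Fin.castLE_injective hN (S.equivFin.symm.injective (Subtype.ext hij))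
  have hsS : ∀ i, s i ∈ S := by
    intro i
    rw [hs]
    exact Subtype.coe_prop _
  obtain ⟨c, hc⟩ : ∃ c : Fin (tri (δ + 1)).card ≃ ↥(tri (δ + 1)), c = (tri (δ + 1)).equivFin.symm :=
    ⟨_, rfl⟩
  have hci : Function.Injective (fun r => ((c r : ↥(tri (δ + 1))) : ℕ × ℕ)) := fun i j hij =>
    c.injective (Subtype.ext hij)
  have hdet := genvan_det_ne (ℓ := ℓ) s hsi _ hci
  set M : Matrix (Fin (tri (δ + 1)).card) (Fin (tri (δ + 1)).card) (RR n ℓ) :=
    Matrix.of (fun i r =>
      (X (s i, 0) ^ ((c r : ↥(tri (δ + 1))) : ℕ × ℕ).1 *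
        X (s i, 1) ^ ((c r : ↥(tri (δ + 1))) : ℕ × ℕ).2 : RR n ℓ)) with hM
  have hdet' : ((algebraMap (RR n ℓ) (KK n ℓ)).mapMatrix M).det ≠ 0 := by
    rw [← RingHom.map_det]
    intro h0
    exact hdet ((IsFractionRing.injective (RR n ℓ) (KK n ℓ)) (by rw [h0, map_zero]))
  have hker : ((algebraMap (RR n ℓ) (KK n ℓ)).mapMatrix M).mulVec (fun r => v (c r)) = 0 := by
    funext i
    have h1 := h (s i) (hsS i)
    rw [mem_mp, ← hv, toPoly_apply, map_sum] at h1
    rw [Pi.zero_apply, ← h1]
    unfold Matrix.mulVec dotProduct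
    rw [← Equiv.sum_comp c]
    refine Finset.sum_congr rfl fun r _ => ?_
    rw [smul_eval, map_mul, map_pow, map_pow, eval_X, eval_X]
    simp only [hM, RingHom.mapMatrix_apply, Matrix.map_apply, Matrix.of_apply, map_mul, map_pow]
    unfold gp
    ring
  have hw := Matrix.eq_zero_of_mulVec_eq_zero hdet' hker
  have hv0 : v = 0 := by
    funext q
    have := congrFun hw (c.symm q)
    simpa using this
  rw [← hv, hv0, map_zero]

end Pool.MP_70e04f_ag.Strip
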