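import Pool.Agent.Lib_MP_70e04f_strip.SXu
import Pool.Agent.Lib_MP_70e04f_strip.SGen
import Pool.Agent.Lib_MP_70e04f_strip.SDim

/-!
# Piece SCUB: the cubic through nine generic points
-/

set_option autoImplicit false

namespace Pool.MP_70e04f_ag.Strip

open MvPolynomial

/-- PROOF. `Pt k 3` has dimension `10` (`two_finrank_Pt`), so there is a nonzero polynomial in it which
vanishes at nine given points. -/
theorem exists_cubic_aux {k : Type*} [Field k] (q : Fin 9 → Fin 2 → k) :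
    ∃ Γ : A2 k, Γ ≠ 0 ∧ Γ.totalDegree ≤ 3 ∧ ∀ s, Γ ∈ mp (q s) := by
  have h10 : Module.finrank k ↥(Pt k 3) = 10 := by
    have := two_finrank_Pt (k := k) 3
    omega
  let f : ↥(Pt k 3) →ₗ[k] (Fin 9 → k) :=
    (LinearMap.pi fun s => (MvPolynomial.aeval (q s)).toLinearMap).comp (Pt k 3).subtype
  have hlt : Module.finrank k (Fin 9 → k) < Module.finrank k ↥(Pt k 3) := by
    rw [h10, Module.finrank_fin_fun]
    norm_num
  have hker := LinearMap.ker_ne_bot_of_finrank_lt (f := f) hlt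
  obtain ⟨Γ, hΓ, hne⟩ := Submodule.exists_mem_ne_zero_of_ne_bot hker
  refine ⟨Γ, fun h => hne (Subtype.ext h), mem_Pt.1 Γ.2, fun s => ?_⟩
  rw [mem_mp]
  have h1 := congrFun (LinearMap.mem_ker.1 hΓ) s
  have h2 : f Γ s = MvPolynomial.eval (q s) (Γ : A2 k) := by
    show MvPolynomial.aeval (q s) (Γ : A2 k) = _
    rw [MvPolynomial.aeval_eq_eval]
  rw [← h2, h1]
  rfl

theorem SCub_card {n ℓ : ℕ} [Fact ℓ.Prime] {H : A2 (KK n ℓ)} (hH : H ≠ 0) {δ : ℕ}
    (hd : H.totalDegree ≤ δ) (T : Finset (Fin n)) (hT : ∀ i ∈ T, H ∈ mp (gp n ℓ i)) :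
    2 * T.card < (δ + 1) * (δ + 2) := by
  by_contra h
  exact hH (gen_vanish T δ (not_lt.1 h) hd hT)

theorem SCub_mp_ne_top {k : Type*} [Field k] (q : Fin 2 → k) {F : A2 k} (hF : F ∈ mp q) :
    ¬ IsUnit F := by
  intro hu
  rw [mem_mp] at hF
  have h1 : IsUnit (MvPolynomial.eval q F) := hu.map (MvPolynomial.eval q)
  rw [hF] at h1
  exact not_isUnit_zero h1

theorem SCub_unit {k : Type*} [Field k] {F : A2 k} (hF : F ≠ 0) (h : F.totalDegree = 0) :
    IsUnit F := by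
  rw [MvPolynomial.totalDegree_eq_zero_iff_eq_C] at h
  rw [h]
  refine IsUnit.map _ (isUnit_iff_ne_zero.2 fun h0 => hF ?_)
  rw [h, h0, C_0]

theorem SCub_count {n ℓ : ℕ} [Fact ℓ.Prime] {A B : A2 (KK n ℓ)} (hA0 : A ≠ 0) (hB0 : B ≠ 0)
    (hA : A.totalDegree ≤ 1) (hB : B.totalDegree ≤ 2) (α : Fin 9 → Fin n)
    (hα : Function.Injective α) (h : ∀ s, A * B ∈ mp (gp n ℓ (α s))) : False := by
  classical
  let TA : Finset (Fin 9) := Finset.univ.filter fun s => A ∈ mp (gp n ℓ (α s))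
  let TB : Finset (Fin 9) := Finset.univ.filter fun s => B ∈ mp (gp n ℓ (α s))
  have h1 := SCub_card hA0 hA (TA.image α) (by
    intro i hi
    obtain ⟨s, hs, rfl⟩ := Finset.mem_image.1 hi
    exact (Finset.mem_filter.1 hs).2)
  have h2 := SCub_card hB0 hB (TB.image α) (by
    intro i hi
    obtain ⟨s, hs, rfl⟩ := Finset.mem_image.1 hi
    exact (Finset.mem_filter.1 hs).2)
  rw [Finset.card_image_of_injective _ hα] at h1 h2
  have h3 : (Finset.univ : Finset (Fin 9)) ⊆ TA ∪ TB := by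
    intro s _
    have h4 := h s
    rw [mem_mp, map_mul, mul_eq_zero] at h4
    rw [Finset.mem_union]
    rcases h4 with h4 | h4
    · exact Or.inl (Finset.mem_filter.2 ⟨Finset.mem_univ _, mem_mp.2 h4⟩)
    · exact Or.inr (Finset.mem_filter.2 ⟨Finset.mem_univ _, mem_mp.2 h4⟩)
  have h5 := (Finset.card_le_card h3).trans (Finset.card_union_le _ _)
  rw [Finset.card_univ, Fintype.card_fin] at h5
  omega

/-- PROOF. Let `Γ` be as in `exists_cubic_aux` for `gp (α s)`. By `gen_vanish` a nonzero polynomial of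
degree `0`, `≤ 1`, `≤ 2`, `≤ 3` vanishes at at most `0`, `2`, `5`, `9` of the generic points. So
`deg Γ = 3`. If `Γ = A B` with `A, B` not constant then (degrees `1` and `2`) every `α s` is a zero of
`A` or of `B`, so `9 ≤ 2 + 5`; so `Γ` is irreducible (units are the nonzero constants). All the
`mu (gp (α s)) Γ` are `≥ 1` (`one_le_mu`). By `xu` (`deg = 3 < ℓ`) `∑ mu ^ 2 ≤ 9 + mu (gp (α s)) Γ`, and
`∑ mu ^ 2 ≥ 8 + mu (gp (α s)) ^ 2`, so `mu (gp (α s)) Γ = 1`. If `i` is not one of the `α s` and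
`mu (gp i) Γ ≥ 1` then `Γ` vanishes at ten generic points: contradiction to `gen_vanish`. -/
theorem exists_cubic {n ℓ : ℕ} [Fact ℓ.Prime] (hℓ : 3 < ℓ) (α : Fin 9 → Fin n)
    (hα : Function.Injective α) :
    ∃ Γ : A2 (KK n ℓ), Irreducible Γ ∧ Γ.totalDegree = 3 ∧ (∀ s, mu (gp n ℓ (α s)) Γ = 1) ∧
      ∀ i, i ∉ Set.range α → mu (gp n ℓ i) Γ = 0 := by
  classical
  obtain ⟨Γ, hΓ0, hΓd, hΓ⟩ := exists_cubic_aux (fun s => gp n ℓ (α s))
  have hIm : ((Finset.univ : Finset (Fin 9)).image α).card = 9 := by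
    rw [Finset.card_image_of_injective _ hα, Finset.card_univ, Fintype.card_fin]
  have hmem : ∀ i ∈ (Finset.univ : Finset (Fin 9)).image α, Γ ∈ mp (gp n ℓ i) := by
    intro i hi
    obtain ⟨s, _, rfl⟩ := Finset.mem_image.1 hi
    exact hΓ s
  have hdeg : Γ.totalDegree = 3 := by
    by_contra h
    have h1 := SCub_card hΓ0 (δ := 2) (by omega) _ hmem
    rw [hIm] at h1
    omega
  have hirr : Irreducible Γ := by
    refine ⟨SCub_mp_ne_top _ (hΓ 0), ?_⟩
    intro A B hAB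
    have hA0 : A ≠ 0 := by
      rintro rfl
      rw [zero_mul] at hAB
      exact hΓ0 hAB
    have hB0 : B ≠ 0 := by
      rintro rfl
      rw [mul_zero] at hAB
      exact hΓ0 hAB
    have hd := totalDegree_mul_of_isDomain hA0 hB0
    rw [← hAB, hdeg] at hd
    by_contra hcon
    rw [not_or] at hcon
    have hA1 : A.totalDegree ≠ 0 := fun h => hcon.1 (SCub_unit hA0 h)
    have hB1 : B.totalDegree ≠ 0 := fun h => hcon.2 (SCub_unit hB0 h)
    by_cases hA2 : A.totalDegree ≤ 1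
    · exact SCub_count hA0 hB0 hA2 (by omega) α hα (fun s => hAB ▸ hΓ s)
    · exact SCub_count hB0 hA0 (by omega) (by omega) α hα (fun s => by
        rw [mul_comm, ← hAB]; exact hΓ s)
  have hmu1 : ∀ s, 1 ≤ mu (gp n ℓ (α s)) Γ := fun s => (one_le_mu hΓ0).2 (hΓ s)
  refine ⟨Γ, hirr, hdeg, fun s => ?_, fun i hi => ?_⟩
  · have hx := xu hirr (by rw [hdeg]; exact hℓ) (α s) (hmu1 s)
    have h1 : ∑ s', mu (gp n ℓ (α s')) Γ ^ 2 ≤ ∑ i, mu (gp n ℓ i) Γ ^ 2 := by
      rw [← Finset.sum_image (f := fun i => mu (gp n ℓ i) Γ ^ 2) (s := Finset.univ) (g := α)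
        (fun x _ y _ h => hα h)]
      exact Finset.sum_le_sum_of_subset (Finset.subset_univ _)
    have h2 : mu (gp n ℓ (α s)) Γ ^ 2 + 8 ≤ ∑ s', mu (gp n ℓ (α s')) Γ ^ 2 := by
      rw [← Finset.add_sum_erase _ _ (Finset.mem_univ s)]
      refine Nat.add_le_add_left ?_ _
      have h3 : ∑ s' ∈ (Finset.univ : Finset (Fin 9)).erase s, 1 ≤
          ∑ s' ∈ (Finset.univ : Finset (Fin 9)).erase s, mu (gp n ℓ (α s')) Γ ^ 2 :=
        Finset.sum_le_sum fun s' _ => Nat.one_le_pow _ _ (hmu1 s')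
      rw [Finset.sum_const, Finset.card_erase_of_mem (Finset.mem_univ s), Finset.card_univ,
        Fintype.card_fin, smul_eq_mul] at h3
      exact h3
    rw [hdeg] at hx
    have h4 := hmu1 s
    have h5 : mu (gp n ℓ (α s)) Γ ^ 2 ≤ 1 + mu (gp n ℓ (α s)) Γ := by omega
    nlinarith
  · by_contra h
    have h1 : Γ ∈ mp (gp n ℓ i) := (one_le_mu hΓ0).1 (Nat.one_le_iff_ne_zero.2 h)
    have hi' : i ∉ (Finset.univ : Finset (Fin 9)).image α := by
      intro h2
      obtain ⟨s, _, hs⟩ := Finset.mem_image.1 h2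
      exact hi ⟨s, hs⟩
    have h2 := SCub_card hΓ0 hΓd (insert i ((Finset.univ : Finset (Fin 9)).image α)) (by
      intro j hj
      rcases Finset.mem_insert.1 hj with rfl | hj
      · exact h1
      · exact hmem j hj)
    rw [Finset.card_insert_of_notMem hi', hIm] at h2
    omega

end Pool.MP_70e04f_ag.Strip
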