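import Pool.Agent.Lib_MP_70e04f_strip.SDefs

/-!
# Piece SKILL: the defect decreases when there are many multipliers
-/

set_option autoImplicit false

namespace Pool.MP_70e04f_ag.Strip

open MvPolynomial

variable {k : Type*} [Field k]

theorem SKill_le {t r : ℕ} {a a' : Ideal (A2 k)} {s : A2 k} (hsr : s ∈ Pt k r)
    (hmul : ∀ g ∈ a, s * g ∈ a') :
    PA t a ≤ (PA (t + r) a').comap (LinearMap.mulLeft k s) := by
  unfold PA
  refine sup_le ?_ ?_
  · intro f hf
    rw [Submodule.mem_comap, LinearMap.mulLeft_apply]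
    refine Submodule.mem_sup_left ?_
    rw [Nat.add_comm]
    exact mul_mem_Pt hsr hf
  · intro f hf
    rw [Submodule.mem_comap, LinearMap.mulLeft_apply]
    exact Submodule.mem_sup_right (mem_sp.2 (hmul f (mem_sp.1 hf)))

/-- multiplication by `s` on the quotients -/
noncomputable def SKill_map {t r : ℕ} {a a' : Ideal (A2 k)} (s : A2 k) (hsr : s ∈ Pt k r)
    (hmul : ∀ g ∈ a, s * g ∈ a') : (A2 k ⧸ PA t a) →ₗ[k] (A2 k ⧸ PA (t + r) a') :=
  Submodule.mapQ (PA t a) (PA (t + r) a') (LinearMap.mulLeft k s) (SKill_le hsr hmul)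

theorem SKill_map_mk {t r : ℕ} {a a' : Ideal (A2 k)} (s : A2 k) (hsr : s ∈ Pt k r)
    (hmul : ∀ g ∈ a, s * g ∈ a') (f : A2 k) :
    SKill_map (t := t) s hsr hmul (Submodule.Quotient.mk f) = Submodule.Quotient.mk (s * f) := rfl

theorem SKill_surj {t r : ℕ} {a a' : Ideal (A2 k)} {s : A2 k} (hsr : s ∈ Pt k r)
    (hmul : ∀ g ∈ a, s * g ∈ a') (hs : Ind (t + r) (a' ⊔ pr s)) :
    Function.Surjective (SKill_map (t := t) s hsr hmul) := by
  intro y
  obtain ⟨f, rfl⟩ := Submodule.Quotient.mk_surjective _ y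
  obtain ⟨g, hg, h, hh, e⟩ := hs.exists f
  rw [Submodule.mem_sup] at hh
  obtain ⟨h', hh', h'', hh'', e'⟩ := hh
  rw [mem_pr] at hh''
  obtain ⟨f', rfl⟩ := hh''
  refine ⟨Submodule.Quotient.mk f', ?_⟩
  rw [SKill_map_mk, Submodule.Quotient.eq]
  have e2 : s * f' - f = -g + -h' := by
    rw [← e, ← e']; ring
  rw [e2]
  unfold PA
  exact Submodule.add_mem_sup (neg_mem hg) (neg_mem (mem_sp.2 hh'))

/-- PROOF. Multiplication by `s` induces a linear map `A2 k ⧸ PA t a → A2 k ⧸ PA (t + r) a'`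
(`mul_mem_Pt`, `hmul`). It is surjective: by `Ind (t + r) (a' ⊔ pr s)` every `f` is `g + h` with
`g ∈ Pt k (t + r)`, `h = h' + s f'`, `h' ∈ a'`. The source is finite dimensional (`FinC.cod_finite`). -/
theorem step_le {t r : ℕ} {a a' : Ideal (A2 k)} {s : A2 k} (hsr : s ∈ Pt k r)
    (hmul : ∀ g ∈ a, s * g ∈ a') (hs : Ind (t + r) (a' ⊔ pr s)) (hfin : FinC a) :
    cod (t + r) a' ≤ cod t a := by
  have hf := hfin.cod_finite t
  unfold cod
  exact LinearMap.finrank_le_finrank_of_surjective (SKill_surj (t := t) hsr hmul hs)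

/-- PROOF. Let `V = A2 k ⧸ PA t a`, `V' = A2 k ⧸ PA (t + r) a'`. For every `s ∈ W` we have the map
`V → V'` of `step_le`, linear in `s`, surjective for `s ≠ 0` (there is such an `s`, as `finrank W > 0`);
so `V'` is finite dimensional and `finrank V' ≤ finrank V`. If `V = 0` then `V' = 0`: second
alternative. Otherwise suppose that `finrank V' = finrank V`. Then all the maps with `s ≠ 0` are
injective. Take `x ∈ V`, `x ≠ 0`: the linear map `W → V'`, `s ↦ s x` is not injective, since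
`finrank V' = finrank V < finrank W` (`W` is finite dimensional, `W ≤ Pt k r`). So `s x = 0` for some
`s ≠ 0`, a contradiction. -/
theorem step_lt {t r : ℕ} {a a' : Ideal (A2 k)} (W : Submodule k (A2 k)) (hW : W ≤ Pt k r)
    (hmul : ∀ s ∈ W, ∀ g ∈ a, s * g ∈ a') (hs : ∀ s ∈ W, s ≠ 0 → Ind (t + r) (a' ⊔ pr s))
    (hfin : FinC a) (hcard : cod t a < Module.finrank k ↥W) :
    cod (t + r) a' < cod t a ∨ cod (t + r) a' = 0 ∧ cod t a = 0 := by
  have hf := hfin.cod_finite t
  have hWfin : Module.Finite k ↥W := Submodule.finiteDimensional_of_le hW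
  -- a nonzero element of `W`
  have hpos : 0 < Module.finrank k ↥W := by omega
  obtain ⟨⟨s0, hs0⟩, hs00⟩ : ∃ w : ↥W, w ≠ 0 := by
    have := Module.finrank_pos_iff_exists_ne_zero.1 hpos
    exact this
  have hs0' : s0 ≠ 0 := fun h => hs00 (Subtype.ext h)
  have hf' : Module.Finite k (A2 k ⧸ PA (t + r) a') :=
    Module.Finite.of_surjective _ (SKill_surj (t := t) (hW hs0) (hmul s0 hs0) (hs s0 hs0 hs0'))
  have hle : cod (t + r) a' ≤ cod t a :=
    step_le (hW hs0) (hmul s0 hs0) (hs s0 hs0 hs0') hfin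
  by_cases h0 : cod t a = 0
  · right; omega
  left
  by_contra hnot
  have heq : cod (t + r) a' = cod t a := by omega
  unfold cod at heq hcard h0
  have hposV : 0 < Module.finrank k (A2 k ⧸ PA t a) := by omega
  obtain ⟨x, hx⟩ : ∃ x : A2 k ⧸ PA t a, x ≠ 0 := Module.finrank_pos_iff_exists_ne_zero.1 hposV
  obtain ⟨f, rfl⟩ := Submodule.Quotient.mk_surjective _ x
  -- the map `W → V'`
  let L : ↥W →ₗ[k] (A2 k ⧸ PA (t + r) a') :=
    ((PA (t + r) a').mkQ).comp ((LinearMap.mulRight k f).comp W.subtype)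
  have hL : ∀ w : ↥W, L w = Submodule.Quotient.mk ((w : A2 k) * f) := fun w => rfl
  have hnotinj : ¬ Function.Injective L := by
    intro hinj
    have := LinearMap.finrank_le_finrank_of_injective hinj
    omega
  rw [← LinearMap.ker_eq_bot, Submodule.eq_bot_iff] at hnotinj
  push Not at hnotinj
  obtain ⟨⟨s, hsW⟩, hsker, hsne⟩ := hnotinj
  have hsne' : s ≠ 0 := fun h => hsne (Subtype.ext h)
  rw [LinearMap.mem_ker, hL] at hsker
  have hsurj := SKill_surj (t := t) (hW hsW) (hmul s hsW) (hs s hsW hsne')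
  have hinj : Function.Injective (SKill_map (t := t) s (hW hsW) (hmul s hsW)) :=
    (LinearMap.injective_iff_surjective_of_finrank_eq_finrank heq.symm).2 hsurj
  apply hx
  apply hinj
  rw [SKill_map_mk, map_zero]
  exact hsker

end Pool.MP_70e04f_ag.Strip
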