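import Pool.Agent.Lib_MP_70e04f_strip.SSecB
import Pool.Agent.Lib_MP_70e04f_strip.SKill
import Pool.Agent.Lib_MP_70e04f_strip.SBezI

/-!
# Piece SCURVEA: one step of the vanishing on irreducible curves
-/

set_option autoImplicit false

namespace Pool.MP_70e04f_ag.Strip

open MvPolynomial

theorem SCurveA_E_le (E : ℕ) : E ≤ 2 * E ^ 2 + 2 := by nlinarith

/-- One step.
PROOF. `r = κ D`, `γ i = κ M i`, `κ = 2 E ^ 2 + 2`. `D ≥ 1` (else `dotp ≤ 0`), `e = deg F ≥ 1`. By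
`exists_sections` there is `W ≤ Pt k r` in `Iz p γ ⊔ pr F`, `W ∩ pr F = 0`, of dimension
`sec r (Iz p γ ⊔ pr F) F`. By `rr` (`e ≤ E ≤ κ ≤ r`; `mu (p i) F ≤ γ i + 1`: if `M i = 0` by `hM`, else
`γ i ≥ κ ≥ E`) and `cod ≥ 0`:
`2 finrank W ≥ 2 κ dotp - e (e - 3) + ∑ a (a - 1) ≥ 2 κ - E ^ 2`, so `finrank W > E ^ 2`. Apply `step_lt`
with `a = Iz p β ⊔ pr F`, `a' = Iz p (β + γ) ⊔ pr F`: `hmul`: product of two sums (`Iz_mul_mem`).
`hs`: by `bez_ind` for `F` and `s` (`irr_relPrime`), `Ind.mono` (`e * deg s ≤ E * r ≤ t`). `hcard`: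
`cod_le_sq` (`cod ≤ e ^ 2 ≤ E ^ 2`). `FinC`: `finC_Iz`, `FinC.mono`. -/
theorem curve_step {n : ℕ} (D E : ℕ) (M : Fin n → ℕ) {k : Type} [Field k] [Infinite k]
    {p : Fin n → Fin 2 → k} (hp : Function.Injective p) {F : A2 k} (hF : Irreducible F)
    (hE : F.totalDegree ≤ E) (hM : ∀ i, M i = 0 → mu (p i) F ≤ 1) (hN : 1 ≤ dotp D M p F)
    (t : ℕ) (β : Fin n → ℕ) (hβ : ∀ i, mu (p i) F ≤ β i + 1)
    (ht : E + E * ((2 * E ^ 2 + 2) * D) ≤ t)
    (hδ : ∑ i, (mu (p i) F : ℤ) * β i ≤ (t : ℤ) * F.totalDegree) :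
    let t' := t + (2 * E ^ 2 + 2) * D
    let β' := fun i => β i + (2 * E ^ 2 + 2) * M i
    cod t' (Iz p β' ⊔ pr F) < cod t (Iz p β ⊔ pr F) ∨
      cod t' (Iz p β' ⊔ pr F) = 0 ∧ cod t (Iz p β ⊔ pr F) = 0 := by
  intro t' β'
  set κ : ℕ := 2 * E ^ 2 + 2 with hκ
  have ha := SCurveA_E_le E
  rw [← hκ] at ha
  set e := F.totalDegree with he
  have hmue : ∀ i, mu (p i) F ≤ e := fun i => mu_le_deg hF.ne_zero
  have hN' : 1 ≤ (D : ℤ) * e - ∑ i, (M i : ℤ) * mu (p i) F := hN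
  have hsum0 : 0 ≤ ∑ i, (M i : ℤ) * mu (p i) F :=
    Finset.sum_nonneg fun i _ => mul_nonneg (Int.natCast_nonneg _) (Int.natCast_nonneg _)
  have hD : 1 ≤ D := by
    rcases Nat.eq_zero_or_pos D with h | h
    · rw [h] at hN'
      push_cast at hN'
      linarith
    · exact h
  have her : e ≤ κ * D := hE.trans (ha.trans (Nat.le_mul_of_pos_right _ hD))
  have hγ : ∀ i, mu (p i) F ≤ κ * M i + 1 := by
    intro i
    rcases Nat.eq_zero_or_pos (M i) with h | h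
    · have := hM i h
      omega
    · have h1 : κ ≤ κ * M i := Nat.le_mul_of_pos_right _ h
      have := hmue i
      omega
  obtain ⟨W, hWP, hWa, hWF, hWd⟩ := exists_sections (F := F)
    (a := Iz p (fun i => κ * M i) ⊔ pr F) le_sup_right (κ * D)
  have hrr := rr hp hF.ne_zero (fun i => κ * M i) hγ her
  have hdot : ((κ * D : ℕ) : ℤ) * e - ∑ i, (mu (p i) F : ℤ) * ((κ * M i : ℕ) : ℤ) =
      (κ : ℤ) * ((D : ℤ) * e - ∑ i, (M i : ℤ) * mu (p i) F) := by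
    push_cast
    rw [mul_sub, Finset.mul_sum, mul_assoc]
    congr 1
    refine Finset.sum_congr rfl fun i _ => ?_
    ring
  have hmm : 0 ≤ ∑ i, (mu (p i) F : ℤ) * ((mu (p i) F : ℤ) - 1) := by
    refine Finset.sum_nonneg fun i _ => ?_
    rcases Nat.eq_zero_or_pos (mu (p i) F) with h | h
    · rw [h]; simp
    · have h1 : (1 : ℤ) ≤ (mu (p i) F : ℤ) := by exact_mod_cast h
      exact mul_nonneg (by linarith) (by linarith)
  have hcodn : (0 : ℤ) ≤ (cod (κ * D) (Iz p (fun i => κ * M i) ⊔ pr F) : ℤ) :=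
    Int.natCast_nonneg _
  have hκz : (κ : ℤ) = 2 * (E : ℤ) ^ 2 + 2 := by rw [hκ]; push_cast; ring
  have heE : (e : ℤ) ≤ E := by exact_mod_cast hE
  have he0 : (0 : ℤ) ≤ e := Int.natCast_nonneg _
  have hsec : (E : ℤ) ^ 2 < (Module.finrank k ↥W : ℤ) := by
    rw [hWd]
    rw [← he, hdot] at hrr
    have h1 : (κ : ℤ) * 1 ≤ (κ : ℤ) * ((D : ℤ) * e - ∑ i, (M i : ℤ) * mu (p i) F) :=
      mul_le_mul_of_nonneg_left hN' (Int.natCast_nonneg _)
    have h2 : (e : ℤ) ^ 2 ≤ (E : ℤ) ^ 2 := pow_le_pow_left₀ he0 heE 2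
    nlinarith
  have hcardE : cod t (Iz p β ⊔ pr F) ≤ e ^ 2 :=
    cod_le_sq hp hF β hβ (by rw [← he]; omega) hδ
  have hcard : cod t (Iz p β ⊔ pr F) < Module.finrank k ↥W := by
    have h1 : e ^ 2 ≤ E ^ 2 := Nat.pow_le_pow_left hE 2
    have h2 : E ^ 2 < Module.finrank k ↥W := by exact_mod_cast hsec
    omega
  refine step_lt W hWP ?_ ?_ ((finC_Iz hp β).mono le_sup_left) hcard
  · intro s hs g hg
    have hs' := hWa s hs
    rw [Submodule.mem_sup] at hs' hg ⊢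
    obtain ⟨s1, hs1, s2, hs2, rfl⟩ := hs'
    obtain ⟨g1, hg1, g2, hg2, rfl⟩ := hg
    refine ⟨g1 * s1, Iz_mul_mem hg1 hs1, s1 * g2 + s2 * (g1 + g2), ?_, by ring⟩
    exact Ideal.add_mem _ (Ideal.mul_mem_left _ _ hg2) (Ideal.mul_mem_right _ _ hs2)
  · intro s hs hs0
    have h1 := bez_ind hF.ne_zero hs0 (irr_relPrime hF (hWF s hs hs0))
    refine h1.mono ?_ (sup_le_sup_right le_sup_right _)
    have h2 : s.totalDegree ≤ κ * D := mem_Pt.1 (hWP hs)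
    have h3 : F.totalDegree * s.totalDegree ≤ E * (κ * D) := Nat.mul_le_mul hE h2
    omega

end Pool.MP_70e04f_ag.Strip
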