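import Pool.Agent.Lib_MP_70e04f_ag.Mat

/-!
# The strip theorem (SHGH outside a strip around the light cone): definitions

Everything happens in the polynomial ring `A2 k = k[x, y]` of a field `k`.  `mp q` is the maximal
ideal of the point `q`, `Pt k t` the space of polynomials of degree `≤ t`, `Iz p β` the ideal of the
polynomials with multiplicity `≥ β i` at `p i`, `pr F` the principal ideal of `F`.  For an ideal `a`
of finite codimension `Ind t a` says that the conditions of `a` are independent on `Pt k t`, and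
`cod t a` is the defect (`Ind t a ↔ cod t a = 0`).  See `Blueprint.md`.
-/

set_option autoImplicit false

namespace Pool.MP_70e04f_ag.Strip

open MvPolynomial

variable {k : Type*} [Field k]

/-- polynomials in two variables -/
abbrev A2 (k : Type*) [Field k] : Type _ := MvPolynomial (Fin 2) k

/-- the maximal ideal of the point `q` -/
noncomputable def mp (q : Fin 2 → k) : Ideal (A2 k) := RingHom.ker (MvPolynomial.eval q)

/-- polynomials of degree `≤ t` -/
noncomputable def Pt (k : Type*) [Field k] (t : ℕ) : Submodule k (A2 k) :=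
  restrictTotalDegree (Fin 2) k t

/-- an ideal as a subspace -/
noncomputable def sp (a : Ideal (A2 k)) : Submodule k (A2 k) := a.restrictScalars k

/-- the principal ideal of `F` -/
noncomputable def pr (F : A2 k) : Ideal (A2 k) := Ideal.span {F}

/-- polynomials with multiplicity `≥ β i` at `p i` -/
noncomputable def Iz {n : ℕ} (p : Fin n → Fin 2 → k) (β : Fin n → ℕ) : Ideal (A2 k) :=
  ⨅ i, mp (p i) ^ β i

/-- `P_t + a` -/
noncomputable def PA (t : ℕ) (a : Ideal (A2 k)) : Submodule k (A2 k) := Pt k t ⊔ sp a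

/-- the conditions of the ideal `a` are independent on the polynomials of degree `≤ t` -/
def Ind (t : ℕ) (a : Ideal (A2 k)) : Prop := PA t a = ⊤

/-- the number of conditions of `a` -/
noncomputable def len (a : Ideal (A2 k)) : ℕ := Module.finrank k (A2 k ⧸ sp a)

/-- the defect of the conditions of `a` on the polynomials of degree `≤ t` -/
noncomputable def cod (t : ℕ) (a : Ideal (A2 k)) : ℕ := Module.finrank k (A2 k ⧸ PA t a)

/-- `a` has finite codimension -/
def FinC (a : Ideal (A2 k)) : Prop := Module.Finite k (A2 k ⧸ sp a)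

/-- the number of elements of `a` of degree `≤ t` which are independent modulo `F` -/
noncomputable def sec (t : ℕ) (a : Ideal (A2 k)) (F : A2 k) : ℕ :=
  Module.finrank k ↥((Pt k t ⊓ sp a).map (sp (pr F)).mkQ)

/-- the multiplicity of `F` at `q` -/
noncomputable def mu (q : Fin 2 → k) (F : A2 k) : ℕ := sSup {a | F ∈ mp q ^ a}

/-- the intersection number of the class `(D; M)` with the curve `F` -/
noncomputable def dotp {n : ℕ} (D : ℕ) (M : Fin n → ℕ) (p : Fin n → Fin 2 → k) (F : A2 k) : ℤ :=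
  (D : ℤ) * F.totalDegree - ∑ i, (M i : ℤ) * mu (p i) F

/-! ### trivial lemmas -/

theorem mem_Pt {t : ℕ} {f : A2 k} : f ∈ Pt k t ↔ f.totalDegree ≤ t :=
  mem_restrictTotalDegree (Fin 2) t f

theorem Pt_mono {s t : ℕ} (h : s ≤ t) : Pt k s ≤ Pt k t := fun _ hf =>
  mem_Pt.2 ((mem_Pt.1 hf).trans h)

theorem mul_mem_Pt {s t : ℕ} {f g : A2 k} (hf : f ∈ Pt k s) (hg : g ∈ Pt k t) :
    f * g ∈ Pt k (s + t) :=
  mem_Pt.2 ((totalDegree_mul f g).trans (Nat.add_le_add (mem_Pt.1 hf) (mem_Pt.1 hg)))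

instance (t : ℕ) : Module.Finite k ↥(Pt k t) := by
  unfold Pt; infer_instance

theorem mem_sp {a : Ideal (A2 k)} {f : A2 k} : f ∈ sp a ↔ f ∈ a := Iff.rfl

theorem sp_mono {a b : Ideal (A2 k)} (h : a ≤ b) : sp a ≤ sp b := fun _ hf => h hf

theorem sp_sup (a b : Ideal (A2 k)) : sp (a ⊔ b) = sp a ⊔ sp b := by
  ext f
  rw [mem_sp, Submodule.mem_sup, Submodule.mem_sup]
  rfl

theorem mem_pr {F f : A2 k} : f ∈ pr F ↔ F ∣ f := Ideal.mem_span_singleton

theorem self_mem_pr (F : A2 k) : F ∈ pr F := mem_pr.2 dvd_rfl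

theorem mem_Iz {n : ℕ} {p : Fin n → Fin 2 → k} {β : Fin n → ℕ} {f : A2 k} :
    f ∈ Iz p β ↔ ∀ i, f ∈ mp (p i) ^ β i := by
  unfold Iz; rw [Ideal.mem_iInf]

theorem Iz_mono {n : ℕ} {p : Fin n → Fin 2 → k} {β γ : Fin n → ℕ} (h : ∀ i, γ i ≤ β i) :
    Iz p β ≤ Iz p γ := fun _ hf => mem_Iz.2 fun i => Ideal.pow_le_pow_right (h i) (mem_Iz.1 hf i)

theorem Iz_mul_mem {n : ℕ} {p : Fin n → Fin 2 → k} {β γ : Fin n → ℕ} {f g : A2 k}
    (hf : f ∈ Iz p β) (hg : g ∈ Iz p γ) : f * g ∈ Iz p (fun i => β i + γ i) := by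
  rw [mem_Iz] at *
  intro i
  rw [pow_add]
  exact Ideal.mul_mem_mul (hf i) (hg i)

/-- membership by Taylor coefficients -/
theorem mem_mp_pow {q : Fin 2 → k} {m : ℕ} {f : A2 k} :
    f ∈ mp q ^ m ↔ ∀ a b : ℕ, a + b < m → coeff (mon a b) (shift q f) = 0 := by
  unfold mp
  rw [mem_ker_pow_iff]
  constructor
  · intro h a b hab
    exact h (a, b) (mem_tri.2 hab)
  · intro h r hr
    exact h r.1 r.2 (mem_tri.1 hr)

theorem mem_mp {q : Fin 2 → k} {f : A2 k} : f ∈ mp q ↔ eval q f = 0 := RingHom.mem_ker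

theorem PA_mono {s t : ℕ} {a b : Ideal (A2 k)} (h : s ≤ t) (hab : a ≤ b) : PA s a ≤ PA t b :=
  sup_le_sup (Pt_mono h) (sp_mono hab)

theorem Ind.mono {s t : ℕ} {a b : Ideal (A2 k)} (hi : Ind s a) (h : s ≤ t) (hab : a ≤ b) :
    Ind t b := by
  unfold Ind at *
  rw [eq_top_iff] at *
  exact hi.trans (PA_mono h hab)

theorem Ind.exists {t : ℕ} {a : Ideal (A2 k)} (hi : Ind t a) (f : A2 k) :
    ∃ g ∈ Pt k t, ∃ h ∈ a, g + h = f := by
  have : f ∈ PA t a := by rw [hi]; trivial
  unfold PA at this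
  rw [Submodule.mem_sup] at this
  obtain ⟨g, hg, h, hh, e⟩ := this
  exact ⟨g, hg, h, hh, e⟩

theorem ind_iff {t : ℕ} {a : Ideal (A2 k)} :
    Ind t a ↔ ∀ f : A2 k, ∃ g ∈ Pt k t, ∃ h ∈ a, g + h = f := by
  constructor
  · exact fun h f => h.exists f
  · intro h
    unfold Ind
    rw [eq_top_iff]
    intro f _
    obtain ⟨g, hg, h', hh, e⟩ := h f
    unfold PA
    rw [← e]
    exact Submodule.add_mem_sup hg hh

theorem FinC.mono {a b : Ideal (A2 k)} (ha : FinC a) (h : a ≤ b) : FinC b := by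
  unfold FinC at *
  exact Module.Finite.of_surjective (Submodule.factor (sp_mono h)) (Submodule.factor_surjective _)

theorem FinC.cod_finite {a : Ideal (A2 k)} (ha : FinC a) (t : ℕ) :
    Module.Finite k (A2 k ⧸ PA t a) := by
  unfold FinC at ha
  have h : sp a ≤ PA t a := le_sup_right
  exact Module.Finite.of_surjective (Submodule.factor h) (Submodule.factor_surjective _)

theorem FinC.cod_eq_zero {a : Ideal (A2 k)} (ha : FinC a) (t : ℕ) : cod t a = 0 ↔ Ind t a := by
  have := ha.cod_finite t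
  unfold cod Ind
  rw [Module.finrank_zero_iff, Submodule.Quotient.subsingleton_iff]

end Pool.MP_70e04f_ag.Strip
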