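import Pool.Agent.Lib_MP_70e04f_strip.SDefs

/-!
# Piece SDERA: derivations of the coefficients and Taylor expansions

`R` is a commutative ring, `δ` a derivation of `R`. `mapDer δ` applies `δ` to the coefficients of a
polynomial in two variables over `R`.
-/

set_option autoImplicit false

namespace Pool.MP_70e04f_ag.Strip

open MvPolynomial

variable {R : Type*} [CommRing R]

/-- apply `δ` to the coefficients -/
noncomputable def mapDer (δ : Derivation ℤ R R) (f : MvPolynomial (Fin 2) R) :
    MvPolynomial (Fin 2) R :=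
  ∑ s ∈ f.support, monomial s (δ (coeff s f))

theorem coeff_mapDer (δ : Derivation ℤ R R) (f : MvPolynomial (Fin 2) R) (s : Fin 2 →₀ ℕ) :
    coeff s (mapDer δ f) = δ (coeff s f) := by
  classical
  unfold mapDer
  rw [coeff_sum]
  simp only [coeff_monomial]
  rw [Finset.sum_ite_eq']
  split_ifs with h
  · rfl
  · rw [notMem_support_iff.1 h, map_zero]

theorem mapDer_add (δ : Derivation ℤ R R) (f g : MvPolynomial (Fin 2) R) :
    mapDer δ (f + g) = mapDer δ f + mapDer δ g := by
  ext s
  simp only [coeff_mapDer, coeff_add, map_add]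

/-- PROOF. Compare coefficients (`coeff_mul`). -/
theorem mapDer_mul (δ : Derivation ℤ R R) (f g : MvPolynomial (Fin 2) R) :
    mapDer δ (f * g) = mapDer δ f * g + f * mapDer δ g := by
  classical
  ext s
  rw [coeff_mapDer, coeff_add, coeff_mul, coeff_mul, coeff_mul, map_sum,
    ← Finset.sum_add_distrib]
  refine Finset.sum_congr rfl fun x _ => ?_
  rw [coeff_mapDer, coeff_mapDer, Derivation.leibniz, smul_eq_mul, smul_eq_mul]
  ring

theorem SDerA_mapDer_C (δ : Derivation ℤ R R) (r : R) :
    mapDer δ (C r : MvPolynomial (Fin 2) R) = C (δ r) := by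
  classical
  ext s
  rw [coeff_mapDer, coeff_C, coeff_C]
  split_ifs <;> simp

theorem SDerA_mapDer_X (δ : Derivation ℤ R R) (i : Fin 2) :
    mapDer δ (X i : MvPolynomial (Fin 2) R) = 0 := by
  classical
  ext s
  rw [coeff_mapDer, coeff_X]
  split_ifs <;> simp

theorem totalDegree_mapDer_le (δ : Derivation ℤ R R) (f : MvPolynomial (Fin 2) R) :
    (mapDer δ f).totalDegree ≤ f.totalDegree := by
  apply totalDegree_le_of_support_subset
  intro s hs
  rw [mem_support_iff] at hs ⊢
  intro h
  apply hs
  rw [coeff_mapDer, h, map_zero]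

/-- The chain rule: derivative of a Taylor expansion with moving center.
PROOF. Both sides are additive in `f`, and if the formula holds for `f` and `g` it holds for `f g`
(`mapDer_mul`, Leibniz for `pderiv`, `shift q (f g) = shift q f * shift q g`). So it is enough to check it
for constants `C r` (`mapDer δ (C r) = C (δ r)`, `pderiv` is zero) and for `X c`
(`shift q (X c) = X c + C (q c)`, `mapDer δ (X c) = 0`). `MvPolynomial.induction_on`. -/
theorem mapDer_shift (δ : Derivation ℤ R R) (q : Fin 2 → R) (f : MvPolynomial (Fin 2) R) :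
    mapDer δ (shift q f) = shift q (mapDer δ f) + C (δ (q 0)) * pderiv 0 (shift q f)
      + C (δ (q 1)) * pderiv 1 (shift q f) := by
  have hC : ∀ a : R, shift q (C a : MvPolynomial (Fin 2) R) = C a := fun a => by
    simp [shift]
  have hX : ∀ i, shift q (X i : MvPolynomial (Fin 2) R) = X i + C (q i) := fun i => by
    simp [shift]
  induction f using MvPolynomial.induction_on with
  | C a =>
    rw [hC, SDerA_mapDer_C, hC, pderiv_C, pderiv_C]
    ring
  | add f g hf hg =>
    rw [map_add, mapDer_add, hf, hg, mapDer_add, map_add, map_add, map_add]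
    ring
  | mul_X f i hf =>
    rw [map_mul, mapDer_mul, hf, mapDer_mul, SDerA_mapDer_X, mul_zero, add_zero, map_mul, hX,
      mapDer_add, SDerA_mapDer_X, SDerA_mapDer_C, pderiv_mul, pderiv_mul, map_add, map_add,
      pderiv_C, pderiv_C]
    fin_cases i
    · simp only [Fin.zero_eta, pderiv_X_self, pderiv_X_of_ne (show (0 : Fin 2) ≠ 1 by decide)]
      ring
    · simp only [Fin.mk_one, pderiv_X_self, pderiv_X_of_ne (show (1 : Fin 2) ≠ 0 by decide)]
      ring

/-- PROOF. `coeff_pderiv`-type computation on monomials. -/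
theorem coeff_pderiv_zero (f : MvPolynomial (Fin 2) R) (a b : ℕ) :
    coeff (mon a b) (pderiv 0 f) = ((a : R) + 1) * coeff (mon (a + 1) b) f := by
  rw [coeff_pderiv]
  have h1 : mon a b + Finsupp.single 0 1 = mon (a + 1) b := by
    unfold mon
    rw [Finsupp.single_add]
    abel
  rw [h1, mon_zero']
  ring

theorem coeff_pderiv_one (f : MvPolynomial (Fin 2) R) (a b : ℕ) :
    coeff (mon a b) (pderiv 1 f) = ((b : R) + 1) * coeff (mon a (b + 1)) f := by
  rw [coeff_pderiv]
  have h1 : mon a b + Finsupp.single 1 1 = mon a (b + 1) := by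
    unfold mon
    rw [Finsupp.single_add]
    abel
  rw [h1, mon_one']
  ring

end Pool.MP_70e04f_ag.Strip
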