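import Pool.Agent.Lib_MP_70e04f_strip.SMu
import Pool.Agent.Lib_MP_70e04f_strip.SDerA

/-!
# Piece SDER: generic points over the prime field, and derivatives of a curve

`RR n ℓ` is the polynomial ring over `ZMod ℓ` in the coordinates of `n` generic points, `KK n ℓ` its
fraction field and `gp n ℓ i` the `i`-th generic point.
-/

set_option autoImplicit false

namespace Pool.MP_70e04f_ag.Strip

open MvPolynomial

/-- the ring of the coordinates of `n` generic points -/
abbrev RR (n ℓ : ℕ) : Type := MvPolynomial (Fin n × Fin 2) (ZMod ℓ)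

/-- its fraction field -/
abbrev KK (n ℓ : ℕ) [Fact ℓ.Prime] : Type := FractionRing (RR n ℓ)

/-- the generic points -/
noncomputable def gp (n ℓ : ℕ) [Fact ℓ.Prime] (i : Fin n) (c : Fin 2) : KK n ℓ :=
  algebraMap (RR n ℓ) (KK n ℓ) (X (i, c))

theorem gp_inj (n ℓ : ℕ) [Fact ℓ.Prime] : Function.Injective (gp n ℓ) := by
  intro i j h
  have h1 := congrFun h 0
  unfold gp at h1
  have h2 := IsFractionRing.injective (RR n ℓ) (KK n ℓ) h1
  have h3 := MvPolynomial.X_injective h2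
  exact congrArg Prod.fst h3

/-- PROOF. `ZMod ℓ` embeds into `KK n ℓ`. -/
theorem charP_KK (n ℓ : ℕ) [Fact ℓ.Prime] : CharP (KK n ℓ) ℓ := by
  exact charP_of_injective_algebraMap (IsFractionRing.injective (RR n ℓ) (KK n ℓ)) ℓ

/-- PROOF. The powers of `gp n ℓ i 0` are different. -/
theorem infinite_KK {n : ℕ} (ℓ : ℕ) [Fact ℓ.Prime] (hn : 0 < n) : Infinite (KK n ℓ) := by
  have : Nonempty (Fin n × Fin 2) := ⟨(⟨0, hn⟩, 0)⟩
  exact Infinite.of_injective _ (IsFractionRing.injective (RR n ℓ) (KK n ℓ))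

/-- PROOF. `CharP.cast_eq_zero_iff`. -/
theorem cast_ne_zero_KK {n ℓ : ℕ} [Fact ℓ.Prime] {a : ℕ} (h1 : 1 ≤ a) (h2 : a < ℓ) :
    (a : KK n ℓ) ≠ 0 := by
  have := charP_KK n ℓ
  rw [Ne, CharP.cast_eq_zero_iff (KK n ℓ) ℓ]
  intro h
  have := Nat.le_of_dvd (by omega) h
  omega

/-- Common denominators.
PROOF. `IsLocalization.exist_integer_multiples_of_finset` (or `_of_finite`) for the coefficients. -/
theorem clear_denom {n ℓ : ℕ} [Fact ℓ.Prime] (F : A2 (KK n ℓ)) :
    ∃ (c : RR n ℓ) (f : MvPolynomial (Fin 2) (RR n ℓ)), c ≠ 0 ∧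
      map (algebraMap (RR n ℓ) (KK n ℓ)) f = C (algebraMap (RR n ℓ) (KK n ℓ) c) * F := by
  classical
  obtain ⟨b, hb⟩ := IsLocalization.exist_integer_multiples_of_finset (nonZeroDivisors (RR n ℓ))
    (F.support.image fun s => coeff s F)
  have h1 : ∀ s : Fin 2 →₀ ℕ, ∃ r : RR n ℓ, algebraMap (RR n ℓ) (KK n ℓ) r =
      algebraMap (RR n ℓ) (KK n ℓ) b * coeff s F := by
    intro s
    by_cases hs : s ∈ F.support
    · obtain ⟨r, hr⟩ := hb _ (Finset.mem_image_of_mem _ hs)
      exact ⟨r, by rw [hr, Algebra.smul_def]⟩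
    · rw [notMem_support_iff] at hs
      exact ⟨0, by rw [hs, mul_zero, map_zero]⟩
  choose r hr using h1
  refine ⟨b, ∑ s ∈ F.support, monomial s (r s), nonZeroDivisors.ne_zero b.2, ?_⟩
  rw [map_sum]
  conv_rhs => rw [F.as_sum, Finset.mul_sum]
  refine Finset.sum_congr rfl fun s _ => ?_
  rw [map_monomial, hr, C_mul_monomial]

private noncomputable def SDer_d {n : ℕ} (ℓ : ℕ) (j : Fin n) (w : Fin 2) :
    Derivation ℤ (RR n ℓ) (RR n ℓ) :=
  (pderiv (R := ZMod ℓ) (j, w)).restrictScalars ℤ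

private theorem SDer_d_ne {n ℓ : ℕ} {i j : Fin n} (h : i ≠ j) {w c : Fin 2} :
    SDer_d ℓ j w (X (i, c)) = 0 := by
  have h1 : SDer_d ℓ j w (X (i, c)) = pderiv (R := ZMod ℓ) (j, w) (X (i, c)) := rfl
  rw [h1, pderiv_X_of_ne]
  intro he
  exact h (congrArg Prod.fst he)

private theorem SDer_d_eq {n ℓ : ℕ} {j : Fin n} {w c : Fin 2} :
    SDer_d ℓ j w (X (j, c)) = if w = c then 1 else 0 := by
  have h1 : SDer_d ℓ j w (X (j, c)) = pderiv (R := ZMod ℓ) (j, w) (X (j, c)) := rfl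
  rw [h1]
  split_ifs with h
  · rw [h, pderiv_X_self]
  · rw [pderiv_X_of_ne]
    intro he
    exact h (congrArg Prod.snd he).symm

private theorem SDer_shift_C {R : Type*} [CommRing R] (q : Fin 2 → R) (r : R) :
    shift q (C r) = C r := by
  unfold shift
  rw [aeval_C]
  rfl

private theorem SDer_map_shift {R S : Type*} [CommRing R] [CommRing S] (φ : R →+* S) (q : Fin 2 → R)
    (f : MvPolynomial (Fin 2) R) :
    map φ (shift q f) = shift (fun c => φ (q c)) (map φ f) := by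
  induction f using MvPolynomial.induction_on with
  | C a => rw [SDer_shift_C, map_C, SDer_shift_C]
  | add p q hp hq => simp only [map_add, hp, hq]
  | mul_X p i hp =>
    rw [map_mul, map_mul, hp, map_mul, map_mul, map_X]
    congr 1
    unfold shift
    rw [aeval_X, aeval_X, map_add, map_X, map_C]

private theorem SDer_deg_map {R S : Type*} [CommRing R] [CommRing S] (φ : R →+* S)
    (f : MvPolynomial (Fin 2) R) : (map φ f).totalDegree ≤ f.totalDegree := by
  unfold totalDegree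
  exact Finset.sup_mono (support_map_subset _ _)

/-- The derivative of the curve `F` along the movement of the point `j` in the direction `v`.
PROOF. Let `φ = algebraMap`, `c, f` as in `clear_denom`. For `w = 0, 1` let `δ w` be the derivation
`pderiv (j, w)` of `RR n ℓ` (restrict scalars to `ℤ`) and `g w = mapDer (δ w) f`. Put
`G = C (φ c)⁻¹ * (C (v 0) * map φ (g 0) + C (v 1) * map φ (g 1))`; `deg G ≤ deg F`
(`totalDegree_mapDer_le`, and `deg f = deg F`). By `mapDer_shift` with `q = X (i, ·)`: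
for `i ≠ j`: `mapDer (δ w) (shift (X (i, ·)) f) = shift (X (i, ·)) (g w)`; all coefficients of degree
`< mu (gp i) F` of `shift (X (i, ·)) f` vanish, since `map φ` of it is `C (φ c) * shift (gp i) F` (`shift`
commutes with `map φ`, `φ` is injective), so they vanish for `shift (X (i, ·)) (g w)`, and
`map φ (g w) ∈ mp (gp i) ^ mu (gp i) F` (`mem_mp_pow`). For `i = j`, `a + b < mu (gp j) F`:
`0 = δ 0 (coeff (a, b)) = coeff (a, b) (shift (g 0)) + (a + 1) coeff (a + 1, b) (shift f)`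
(`coeff_pderiv_zero`; `δ 0 (X (j, 0)) = 1`, `δ 0 (X (j, 1)) = 0`), similarly for `w = 1`. -/
theorem der {n ℓ : ℕ} [Fact ℓ.Prime] {F : A2 (KK n ℓ)} (hF : F ≠ 0) (j : Fin n)
    (v : Fin 2 → KK n ℓ) :
    ∃ G : A2 (KK n ℓ), G.totalDegree ≤ F.totalDegree ∧
      (∀ i, i ≠ j → G ∈ mp (gp n ℓ i) ^ mu (gp n ℓ i) F) ∧
      ∀ a b : ℕ, a + b < mu (gp n ℓ j) F → coeff (mon a b) (shift (gp n ℓ j) G) =
        - (v 0 * (((a : KK n ℓ) + 1) * coeff (mon (a + 1) b) (shift (gp n ℓ j) F))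
          + v 1 * (((b : KK n ℓ) + 1) * coeff (mon a (b + 1)) (shift (gp n ℓ j) F))) := by
  obtain ⟨c, f, hc, hf⟩ := clear_denom F
  set φ := algebraMap (RR n ℓ) (KK n ℓ) with hφ
  have hinj : Function.Injective φ := IsFractionRing.injective (RR n ℓ) (KK n ℓ)
  have hc0 : φ c ≠ 0 := fun h => hc (hinj (by rw [h, map_zero]))
  obtain ⟨g, hg⟩ : ∃ g : Fin 2 → MvPolynomial (Fin 2) (RR n ℓ),
      ∀ w, g w = mapDer (SDer_d ℓ j w) f := ⟨_, fun _ => rfl⟩
  have hgi : ∀ i, gp n ℓ i = fun c => φ (X (i, c)) := fun i => rfl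
  -- the coefficients of `F` and of `f`
  have hcf : ∀ (i : Fin n) (s : Fin 2 →₀ ℕ), φ (coeff s (shift (fun c => (X (i, c) : RR n ℓ)) f)) =
      φ c * coeff s (shift (gp n ℓ i) F) := by
    intro i s
    rw [← coeff_map, SDer_map_shift, ← hgi, hf, map_mul, SDer_shift_C, coeff_C_mul]
  have hvan : ∀ (i : Fin n) (a b : ℕ), a + b < mu (gp n ℓ i) F →
      coeff (mon a b) (shift (fun c => (X (i, c) : RR n ℓ)) f) = 0 := by
    intro i a b hab
    have h1 : F ∈ mp (gp n ℓ i) ^ mu (gp n ℓ i) F := (mem_iff_le_mu hF _).2 le_rfl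
    have h2 := mem_mp_pow.1 h1 a b hab
    apply hinj
    rw [hcf, h2, mul_zero, map_zero]
  have hmain : ∀ (i : Fin n) (w : Fin 2) (a b : ℕ), a + b < mu (gp n ℓ i) F →
      coeff (mon a b) (shift (fun c => (X (i, c) : RR n ℓ)) (g w)) =
      -(SDer_d ℓ j w (X (i, 0)) * (((a : RR n ℓ) + 1) *
          coeff (mon (a + 1) b) (shift (fun c => (X (i, c) : RR n ℓ)) f)) +
        SDer_d ℓ j w (X (i, 1)) * (((b : RR n ℓ) + 1) *
          coeff (mon a (b + 1)) (shift (fun c => (X (i, c) : RR n ℓ)) f))) := by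
    intro i w a b hab
    have h1 := congrArg (coeff (mon a b))
      (mapDer_shift (SDer_d ℓ j w) (fun c => (X (i, c) : RR n ℓ)) f)
    rw [coeff_mapDer, hvan i a b hab, map_zero, coeff_add, coeff_add, coeff_C_mul, coeff_C_mul,
      coeff_pderiv_zero, coeff_pderiv_one, ← hg] at h1
    linear_combination -h1
  obtain ⟨G, hG⟩ : ∃ G : A2 (KK n ℓ), G = C (φ c)⁻¹ * (C (v 0) * map φ (g 0) + C (v 1) * map φ (g 1)) :=
    ⟨_, rfl⟩
  have hGc : ∀ (i : Fin n) (s : Fin 2 →₀ ℕ), coeff s (shift (gp n ℓ i) G) =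
      (φ c)⁻¹ * (v 0 * φ (coeff s (shift (fun c => (X (i, c) : RR n ℓ)) (g 0))) +
        v 1 * φ (coeff s (shift (fun c => (X (i, c) : RR n ℓ)) (g 1)))) := by
    intro i s
    rw [hG, map_mul, map_add, map_mul, map_mul, SDer_shift_C, SDer_shift_C, SDer_shift_C, coeff_C_mul,
      coeff_add, coeff_C_mul, coeff_C_mul, hgi, ← SDer_map_shift, ← SDer_map_shift, coeff_map, coeff_map]
  refine ⟨G, ?_, ?_, ?_⟩
  · have hfd : f.totalDegree ≤ F.totalDegree := by
      have h1 : f.totalDegree = (map φ f).totalDegree := by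
        unfold totalDegree
        rw [support_map_of_injective f hinj]
      rw [h1, hf]
      refine (totalDegree_mul _ _).trans ?_
      rw [totalDegree_C, zero_add]
    have hgd : ∀ w, (map φ (g w)).totalDegree ≤ F.totalDegree := by
      intro w
      refine (SDer_deg_map φ (g w)).trans (le_trans ?_ hfd)
      rw [hg]
      exact totalDegree_mapDer_le _ _
    rw [hG]
    refine (totalDegree_mul _ _).trans ?_
    rw [totalDegree_C, zero_add]
    refine (totalDegree_add _ _).trans (max_le ?_ ?_)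
    · refine (totalDegree_mul _ _).trans ?_
      rw [totalDegree_C, zero_add]
      exact hgd 0
    · refine (totalDegree_mul _ _).trans ?_
      rw [totalDegree_C, zero_add]
      exact hgd 1
  · intro i hij
    rw [mem_mp_pow]
    intro a b hab
    rw [hGc, hmain i 0 a b hab, hmain i 1 a b hab, SDer_d_ne hij, SDer_d_ne hij, SDer_d_ne hij,
      SDer_d_ne hij]
    simp
  · intro a b hab
    rw [hGc, hmain j 0 a b hab, hmain j 1 a b hab, SDer_d_eq, SDer_d_eq, SDer_d_eq, SDer_d_eq]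
    simp only [map_neg, map_add, map_mul, map_natCast, map_one, hcf, zero_ne_one, one_ne_zero,
      if_true, if_false, one_mul, zero_mul, add_zero, zero_add]
    field_simp
    ring

/-- PROOF. Immediate from the last property of `der`: for `a + b < mu - 1` the coefficients of degree
`a + b + 1 < mu` of `shift (gp j) F` vanish. -/
theorem der_mem {n ℓ : ℕ} [Fact ℓ.Prime] {F G : A2 (KK n ℓ)} (hF : F ≠ 0) (j : Fin n)
    (v : Fin 2 → KK n ℓ)
    (h : ∀ a b : ℕ, a + b < mu (gp n ℓ j) F → coeff (mon a b) (shift (gp n ℓ j) G) =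
        - (v 0 * (((a : KK n ℓ) + 1) * coeff (mon (a + 1) b) (shift (gp n ℓ j) F))
          + v 1 * (((b : KK n ℓ) + 1) * coeff (mon a (b + 1)) (shift (gp n ℓ j) F)))) :
    G ∈ mp (gp n ℓ j) ^ (mu (gp n ℓ j) F - 1) := by
  rw [mem_mp_pow]
  intro a b hab
  have h1 : F ∈ mp (gp n ℓ j) ^ mu (gp n ℓ j) F := (mem_iff_le_mu hF _).2 le_rfl
  rw [h a b (by omega), mem_mp_pow.1 h1 (a + 1) b (by omega), mem_mp_pow.1 h1 a (b + 1) (by omega)]
  simp

end Pool.MP_70e04f_ag.Strip
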