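import Pool.Agent.Lib_MP_70e04f_strip.SPos

/-!
# Piece SINDA: emptiness for generic points in large characteristic
-/

set_option autoImplicit false

namespace Pool.MP_70e04f_ag.Strip

open MvPolynomial

/-- PROOF. Induction on the factorization of `G` into irreducible factors: `dotp` is additive
(`mu_mul`, `totalDegree_mul_of_isDomain`), a unit has `dotp = 0`. -/
theorem dotp_pos {k : Type*} [Field k] {n : ℕ} (D : ℕ) (M : Fin n → ℕ) (p : Fin n → Fin 2 → k)
    (E : ℕ) (h : ∀ F : A2 k, Irreducible F → F.totalDegree ≤ E → 1 ≤ dotp D M p F) {G : A2 k}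
    (hG : G ≠ 0) (hE : G.totalDegree ≤ E) (h1 : 1 ≤ G.totalDegree) : 1 ≤ dotp D M p G := by
  have key : ∀ G : A2 k, G ≠ 0 → G.totalDegree ≤ E →
      0 ≤ dotp D M p G ∧ (1 ≤ G.totalDegree → 1 ≤ dotp D M p G) := by
    intro G
    induction G using WfDvdMonoid.induction_on_irreducible with
    | zero => intro h0; exact absurd rfl h0
    | unit u hu =>
      intro _ _
      obtain ⟨c, hc, rfl⟩ := isUnit_iff_eq_C_of_isReduced.1 hu
      have hc0 : c ≠ 0 := hc.ne_zero
      constructor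
      · unfold dotp
        simp only [totalDegree_C, mu_C hc0]
        simp
      · intro h2
        rw [totalDegree_C] at h2
        omega
    | mul a i ha hi iha =>
      intro _ hdeg
      have hi0 : i ≠ 0 := hi.ne_zero
      have hd : (i * a).totalDegree = i.totalDegree + a.totalDegree :=
        totalDegree_mul_of_isDomain hi0 ha
      have h2 := (iha ha (by omega)).1
      have h3 := h i hi (by omega)
      have h4 : dotp D M p (i * a) = dotp D M p i + dotp D M p a := by
        unfold dotp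
        rw [hd]
        have h5 : ∀ j, (M j : ℤ) * mu (p j) (i * a)
            = (M j : ℤ) * mu (p j) i + (M j : ℤ) * mu (p j) a := by
          intro j
          rw [mu_mul hi0 ha]
          push_cast
          ring
        rw [Finset.sum_congr rfl fun j _ => h5 j, Finset.sum_add_distrib]
        push_cast
        ring
      rw [h4]
      exact ⟨by omega, fun _ => by omega⟩
  exact (key G hG hE).2 h1

/-- PROOF. Let `S = ∑ m i ^ 2`, `M i = d * m i`, `X = d * m (α 9)`. `d ≥ 1`, `m (α 9) ≥ 1`, `S > d ^ 2`. Then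
`∑ M i ^ 2 + X ^ 2 = d ^ 2 (S + m (α 9) ^ 2) < S ^ 2`: `S ^ 2 - d ^ 2 S = S (S - d ^ 2) ≥ S m (α 9) ^ 2 >
d ^ 2 m (α 9) ^ 2`. And `M (α 0) + M (α 1) + M (α 2) ≤ d ^ 2 ≤ S`. Choose a prime `ℓ > max d 3`,
`k = KK n ℓ`, `p = gp`. By `pos` (`α ∘ Fin.castSucc`) and `dotp_pos`, every nonzero `G` of degree
between `1` and `d` has `S * deg G > d ∑ m i * mu (gp i) G`. If `G ∈ Iz p m` then the right side is
`≥ d S` (`mem_iff_le_mu`), so `deg G > d`. A nonzero constant is not in `Iz p m`. -/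
theorem empty_gen {n : ℕ} (d : ℕ) (m : Fin n → ℕ) (h1 : ∀ i, 1 ≤ m i) (α : Fin 10 → Fin n)
    (hα : Function.Injective α) (hanti : Antitone (fun s => m (α s)))
    (hother : ∀ i, i ∉ Set.range α → m i ≤ m (α 9)) (hstd : m (α 0) + m (α 1) + m (α 2) ≤ d)
    (hsq : d ^ 2 + m (α 9) ^ 2 ≤ ∑ i, m i ^ 2) :
    ∃ (k : Type) (_ : Field k) (_ : Infinite k) (p : Fin n → Fin 2 → k),
      Function.Injective p ∧ Pt k d ⊓ sp (Iz p m) = ⊥ := by
  obtain ⟨ℓ, hℓ, hℓp⟩ := Nat.exists_infinite_primes (d + 4)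
  haveI : Fact ℓ.Prime := ⟨hℓp⟩
  set S : ℕ := ∑ i, m i ^ 2 with hS
  have m0 := h1 (α 0)
  have m9 := h1 (α 9)
  have m1 := h1 (α 1)
  have hd : 1 ≤ d := by omega
  have hn : 0 < n := (α 0).pos
  have hpos : ∀ F : A2 (KK n ℓ), Irreducible F → F.totalDegree ≤ d →
      1 ≤ dotp S (fun i => d * m i) (gp n ℓ) F := by
    intro F hF hFd
    refine pos (by omega) S (d * m (α 9)) (fun i => d * m i) (α ∘ Fin.castSucc)
      (hα.comp (Fin.castSucc_injective 9)) ?_ ?_ ?_ ?_ ?_ ?_ hF (by omega)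
    · intro a b hab
      exact Nat.mul_le_mul_left d (hanti (show Fin.castSucc a ≤ Fin.castSucc b from hab))
    · exact Nat.mul_pos hd m9
    · exact Nat.mul_le_mul_left d (hanti (show Fin.castSucc 8 ≤ (9 : Fin 10) by decide))
    · intro i hi
      refine Nat.mul_le_mul_left d ?_
      by_cases h : i ∈ Set.range α
      · obtain ⟨j, rfl⟩ := h
        rcases Fin.eq_castSucc_or_eq_last j with ⟨j', rfl⟩ | rfl
        · exact absurd ⟨j', rfl⟩ hi
        · exact le_refl _
      · exact hother i h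
    · have e1 : d * m (α 0) + d * m (α 1) + d * m (α 2) = d * (m (α 0) + m (α 1) + m (α 2)) := by
        ring
      have e2 : d * (m (α 0) + m (α 1) + m (α 2)) ≤ d * d := Nat.mul_le_mul_left d hstd
      have e3 : d * d = d ^ 2 := by ring
      change d * m (α 0) + d * m (α 1) + d * m (α 2) ≤ S
      omega
    · have e1 : ∑ i, (d * m i) ^ 2 = d ^ 2 * S := by
        rw [hS, Finset.mul_sum]
        exact Finset.sum_congr rfl fun i _ => by ring
      rw [e1]
      have e2 : 1 ≤ m (α 9) ^ 2 := Nat.one_le_pow _ _ m9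
      set T := m (α 9) ^ 2 with hT
      have e3 : (d * m (α 9)) ^ 2 = d ^ 2 * T := by rw [hT]; ring
      rw [e3]
      obtain ⟨u, hu⟩ := Nat.exists_eq_add_of_le hsq
      rw [hu]
      generalize d ^ 2 = D
      nlinarith [Nat.zero_le (D * u), Nat.zero_le (T * u), Nat.zero_le (u * u),
        Nat.zero_le (D * T), Nat.zero_le (D * D), Nat.mul_pos e2 e2]
  refine ⟨KK n ℓ, inferInstance, infinite_KK ℓ hn, gp n ℓ, gp_inj n ℓ, ?_⟩
  rw [eq_bot_iff]
  rintro G ⟨hG1, hG2⟩
  rw [Submodule.mem_bot]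
  by_contra hG0
  have hdeg : G.totalDegree ≤ d := mem_Pt.1 hG1
  have hmu : ∀ i, m i ≤ mu (gp n ℓ i) G := fun i =>
    (mem_iff_le_mu hG0 (m i)).1 (mem_Iz.1 hG2 i)
  by_cases h2 : 1 ≤ G.totalDegree
  · have h3 := dotp_pos S (fun i => d * m i) (gp n ℓ) d hpos hG0 hdeg h2
    unfold dotp at h3
    have h4 : (d : ℤ) * S ≤ ∑ i, ((d * m i : ℕ) : ℤ) * (mu (gp n ℓ i) G : ℤ) := by
      have e1 : (d : ℤ) * S = ∑ i, ((d * m i : ℕ) : ℤ) * (m i : ℤ) := by
        rw [hS]
        push_cast
        rw [Finset.mul_sum]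
        exact Finset.sum_congr rfl fun i _ => by ring
      rw [e1]
      refine Finset.sum_le_sum fun i _ => ?_
      exact mul_le_mul_of_nonneg_left (by exact_mod_cast hmu i) (by positivity)
    have h5 : (S : ℤ) * G.totalDegree ≤ S * d :=
      mul_le_mul_of_nonneg_left (by exact_mod_cast hdeg) (by positivity)
    nlinarith [h3, h4, h5]
  · have h3 : G.totalDegree = 0 := by omega
    rw [totalDegree_eq_zero_iff_eq_C] at h3
    have h4 : coeff 0 G ≠ 0 := by
      intro h0
      rw [h0, C_0] at h3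
      exact hG0 h3
    have h5 := hmu (α 0)
    rw [h3, mu_C h4] at h5
    omega

end Pool.MP_70e04f_ag.Strip
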