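import Pool.Agent.Lib_MP_70e04f_strip.SInd
import Pool.Agent.Lib_MP_70e04f_strip.SIndA
import Pool.Agent.Lib_MP_70e04f_strip.SSimp

/-!
# The strip theorem: assembly
-/

set_option autoImplicit false

namespace Pool.MP_70e04f_ag.Strip

open MvPolynomial

/-- an enumeration of a set of indices which contains the ten largest ones -/
theorem exists_enum {n : ℕ} (S : Finset (Fin n)) (α : Fin 10 → Fin n)
    (hα : Function.Injective α) (hS : ∀ j, α j ∈ S) :
    ∃ (ι : Fin S.card → Fin n) (α' : Fin 10 → Fin S.card), Function.Injective ι ∧
      Set.range ι = ↑S ∧ (∀ j, ι (α' j) = α j) ∧ Function.Injective α' := by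
  refine ⟨S.orderEmbOfFin rfl, fun j => (S.orderIsoOfFin rfl).symm ⟨α j, hS j⟩,
    (S.orderEmbOfFin rfl).injective, Finset.range_orderEmbOfFin S rfl, ?_, ?_⟩
  · intro j
    rw [← Finset.coe_orderIsoOfFin_apply, OrderIso.apply_symm_apply]
  · intro j j' h
    have h1 := (S.orderIsoOfFin rfl).symm.injective h
    exact hα (Subtype.ext_iff.1 h1)

theorem sum_enum {n r : ℕ} (S : Finset (Fin n)) (ι : Fin r → Fin n) (hι : Function.Injective ι)
    (hr : Set.range ι = ↑S) (f : Fin n → ℕ) : ∑ a, f (ι a) = ∑ i ∈ S, f i := by
  classical
  have h : S = Finset.univ.map ⟨ι, hι⟩ := by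
    ext i
    rw [← Finset.mem_coe, ← hr]
    simp
  rw [h, Finset.sum_map]
  rfl

/-- The strip theorem. -/
theorem gen_strip (n d D : ℕ) (mult : Fin n → ℕ) (α : Fin 10 → Fin n)
    (hα : Function.Injective α) (hanti : Antitone (fun j => mult (α j)))
    (h2 : 2 ≤ mult (α 9)) (hother : ∀ i, i ∉ Set.range α → mult i ≤ mult (α 9))
    (hstd : mult (α 0) + mult (α 1) + mult (α 2) ≤ d)
    (hbig : ∑ i with 2 ≤ mult i, (mult i + 1) ^ 2 + (mult (α 9) + 1) ^ 2 < (d + 3) ^ 2 ∨
      d ^ 2 + mult (α 9) ^ 2 ≤ ∑ i, mult i ^ 2)
    (hD : D = d ∨ D ≤ d ∧ (d + 1) * (d + 2) ≤ ∑ i, mult i * (mult i + 1)) : GExp D mult := by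
  classical
  have h9 : ∀ j, mult (α 9) ≤ mult (α j) := fun j => hanti (Fin.le_last j)
  have key : GExp d mult := by
    rcases hbig with hb | hb
    · obtain ⟨ι, α', hι, hr, hια, hα'⟩ := exists_enum (Finset.univ.filter (fun i => 2 ≤ mult i)) α hα
        (fun j => by
          rw [Finset.mem_filter]
          exact ⟨Finset.mem_univ _, h2.trans (h9 j)⟩)
      obtain ⟨k, _, _, p, hp, hind⟩ := ind_gen d (fun a => mult (ι a)) α' hα'
        (fun a b hab => by
          have := hanti hab
          simp only [hια] at this ⊢
          exact this)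
        (fun i hi => by
          rw [hια]
          apply hother
          rintro ⟨j, hj⟩
          exact hi ⟨j, hι (by rw [hια, hj])⟩)
        (by simp only [hια]; exact hstd)
        (by
          have := sum_enum _ ι hι hr (fun i => (mult i + 1) ^ 2)
          rw [this, hια]
          exact hb)
      obtain ⟨p2, hp2⟩ := (EXP.of_ind hp hind).extend ι hι
        (fun i hi => by
          by_contra hcon
          apply hi
          have : i ∈ (↑(Finset.univ.filter (fun i => 2 ≤ mult i)) : Set (Fin n)) := by
            rw [Finset.mem_coe, Finset.mem_filter]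
            exact ⟨Finset.mem_univ _, by omega⟩
          rw [← hr] at this
          exact this)
      exact gexp_of_good d mult p2 hp2.good
    · obtain ⟨ι, α', hι, hr, hια, hα'⟩ := exists_enum (Finset.univ.filter (fun i => 1 ≤ mult i)) α hα
        (fun j => by
          rw [Finset.mem_filter]
          exact ⟨Finset.mem_univ _, by have := h9 j; omega⟩)
      obtain ⟨k, _, _, p, hp, hbot⟩ := empty_gen d (fun a => mult (ι a))
        (fun a => by
          have : ι a ∈ (↑(Finset.univ.filter (fun i => 1 ≤ mult i)) : Set (Fin n)) := by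
            rw [← hr]; exact ⟨a, rfl⟩
          rw [Finset.mem_coe, Finset.mem_filter] at this
          exact this.2) α' hα'
        (fun a b hab => by
          have := hanti hab
          simp only [hια] at this ⊢
          exact this)
        (fun i hi => by
          rw [hια]
          apply hother
          rintro ⟨j, hj⟩
          exact hi ⟨j, hι (by rw [hια, hj])⟩)
        (by simp only [hια]; exact hstd)
        (by
          have := sum_enum _ ι hι hr (fun i => mult i ^ 2)
          rw [this, hια]
          refine hb.trans (le_of_eq ?_)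
          symm
          apply Finset.sum_subset (Finset.subset_univ _)
          intro i _ hi
          rw [Finset.mem_filter] at hi
          have : mult i = 0 := by
            by_contra h0
            exact hi ⟨Finset.mem_univ _, by omega⟩
          rw [this]; rfl)
      obtain ⟨p2, hp2⟩ := (EXP.of_bot hbot).extend ι hι
        (fun i hi => by
          by_contra hcon
          apply hi
          have : i ∈ (↑(Finset.univ.filter (fun i => 1 ≤ mult i)) : Set (Fin n)) := by
            rw [Finset.mem_coe, Finset.mem_filter]
            exact ⟨Finset.mem_univ _, by omega⟩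
          rw [← hr] at this
          exact this)
      exact gexp_of_good d mult p2 hp2.good
  rcases hD with rfl | ⟨h3, h4⟩
  · exact key
  · exact key.le h3 h4

end Pool.MP_70e04f_ag.Strip
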