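import Pool.Agent.Lib_MP_70e04f_strip.SLen
import Pool.Agent.Lib_MP_70e04f_strip.SBez

/-!
# Piece SMB: Bezout with multiplicities
-/

set_option autoImplicit false

namespace Pool.MP_70e04f_ag.Strip

open MvPolynomial

variable {k : Type*} [Field k] {n : ℕ} {p : Fin n → Fin 2 → k}

/-- the map of quotients given by `(u, v) ↦ F u + g v` -/
noncomputable def SMB_phi {A B C : Submodule k (A2 k)} (F g : A2 k)
    (hA : A ≤ C.comap (LinearMap.mulLeft k F)) (hB : B ≤ C.comap (LinearMap.mulLeft k g)) :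
    ((A2 k ⧸ A) × (A2 k ⧸ B)) →ₗ[k] (A2 k ⧸ C) :=
  LinearMap.coprod (Submodule.mapQ A C (LinearMap.mulLeft k F) hA)
    (Submodule.mapQ B C (LinearMap.mulLeft k g) hB)

/-- PROOF. Let `J = pr F ⊔ pr g ⊔ Iz p (a + β)`; `len J ≤ len (pr F ⊔ pr g)` (surjection of finite
dimensional spaces). The kernel of `A2 k ⧸ sp (Iz p (a + β)) → A2 k ⧸ sp J` is the image of
`(u, v) ↦ u F + v g`; since `F ∈ Iz p a` and `g ∈ Iz p β`, the class of `u F` only depends on
`u` modulo `Iz p β` and the class of `v g` only on `v` modulo `Iz p a`. So this kernel is the image of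
`(A2 k ⧸ sp (Iz p β)) × (A2 k ⧸ sp (Iz p a))`, of dimension `≤ len (Iz p β) + len (Iz p a)`, and
`len J ≥ len (Iz p (a + β)) - len (Iz p β) - len (Iz p a) = ∑ a i * β i` by `len_Iz`. -/
theorem len_pair_ge (hp : Function.Injective p) {F g : A2 k} {a β : Fin n → ℕ} (hF : F ∈ Iz p a)
    (hg : g ∈ Iz p β) (hfin : FinC (pr F ⊔ pr g)) :
    ∑ i, a i * β i ≤ len (pr F ⊔ pr g) := by
  obtain ⟨L, hL⟩ : ∃ L : Ideal (A2 k), L = Iz p (fun i => a i + β i) := ⟨_, rfl⟩
  have hLc : FinC L := hL ▸ finC_Iz hp _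
  have ha : FinC (Iz p a) := finC_Iz hp _
  have hb : FinC (Iz p β) := finC_Iz hp _
  obtain ⟨J, hJ⟩ : ∃ J : Ideal (A2 k), J = (pr F ⊔ pr g) ⊔ L := ⟨_, rfl⟩
  have h1 : pr F ⊔ pr g ≤ J := hJ ▸ le_sup_left
  have h2 : L ≤ J := hJ ▸ le_sup_right
  have hJc : FinC J := hLc.mono h2
  have hA : sp (Iz p β) ≤ (sp L).comap (LinearMap.mulLeft k F) := by
    intro u hu
    rw [hL]
    exact Iz_mul_mem hF hu
  have hB : sp (Iz p a) ≤ (sp L).comap (LinearMap.mulLeft k g) := by
    intro u hu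
    rw [hL]
    have h3 : u * g ∈ Iz p (fun i => a i + β i) := Iz_mul_mem hu hg
    show g * u ∈ Iz p (fun i => a i + β i)
    rw [mul_comm]
    exact h3
  unfold FinC at hLc ha hb hJc hfin
  have h3 : len J ≤ len (pr F ⊔ pr g) := by
    unfold len
    exact LinearMap.finrank_le_finrank_of_surjective (Submodule.factor_surjective (sp_mono h1))
  have h4 := LinearMap.finrank_range_add_finrank_ker (Submodule.factor (sp_mono h2))
  rw [LinearMap.range_eq_top.2 (Submodule.factor_surjective (sp_mono h2)), finrank_top] at h4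
  have h5 : LinearMap.ker (Submodule.factor (sp_mono h2)) ≤ LinearMap.range (SMB_phi F g hA hB) := by
    intro z hz
    obtain ⟨x, rfl⟩ := Submodule.mkQ_surjective _ z
    rw [LinearMap.mem_ker, Submodule.factor_mk] at hz
    have h6 : x ∈ J := (Submodule.Quotient.mk_eq_zero _).1 hz
    rw [hJ] at h6
    obtain ⟨y, hy, l, hl, e⟩ := Submodule.mem_sup.1 h6
    obtain ⟨y1, hy1, y2, hy2, e2⟩ := Submodule.mem_sup.1 hy
    obtain ⟨u, hu⟩ := mem_pr.1 hy1
    obtain ⟨v, hv⟩ := mem_pr.1 hy2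
    refine ⟨((sp (Iz p β)).mkQ u, (sp (Iz p a)).mkQ v), ?_⟩
    have h7 : SMB_phi F g hA hB ((sp (Iz p β)).mkQ u, (sp (Iz p a)).mkQ v) =
        (sp L).mkQ (F * u + g * v) := by
      unfold SMB_phi
      rw [LinearMap.coprod_apply, Submodule.mkQ_apply, Submodule.mkQ_apply, Submodule.mapQ_apply,
        Submodule.mapQ_apply, map_add]
      rfl
    rw [h7, ← sub_eq_zero, ← map_sub]
    refine (Submodule.Quotient.mk_eq_zero _).2 ?_
    have h8 : F * u + g * v - x = -l := by
      rw [← e, ← e2, hu, hv]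
      ring
    rw [h8]
    exact L.neg_mem hl
  have h6 : Module.finrank k ↥(LinearMap.ker (Submodule.factor (sp_mono h2))) ≤
      len (Iz p β) + len (Iz p a) := by
    refine (Submodule.finrank_mono h5).trans ((LinearMap.finrank_range_le _).trans ?_)
    rw [Module.finrank_prod]
    exact le_rfl
  have h7 := len_Iz hp (fun i => a i + β i)
  have h8 := len_Iz hp a
  have h9 := len_Iz hp β
  rw [← hL] at h7
  have h10 : ∑ i, (a i + β i) * (a i + β i + 1) =
      ∑ i, a i * (a i + 1) + ∑ i, β i * (β i + 1) + 2 * ∑ i, a i * β i := by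
    rw [Finset.mul_sum, ← Finset.sum_add_distrib, ← Finset.sum_add_distrib]
    refine Finset.sum_congr rfl fun i _ => ?_
    ring
  have h11 : len J + Module.finrank k ↥(LinearMap.ker (Submodule.factor (sp_mono h2))) = len L := h4
  omega

/-- Bezout with multiplicities.
PROOF. `f = g + F h` with `g ∈ Iz p β`, so `pr F ⊔ pr f = pr F ⊔ pr g`. By `bez` (`irr_relPrime`;
`f ≠ 0` since `F ∣ 0`) this ideal has `len ≤ deg F * deg f`; apply `len_pair_ge` with
`a i = mu (p i) F`. -/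
theorem mulbez (hp : Function.Injective p) {F f : A2 k} (hF : Irreducible F) (hf : ¬ F ∣ f)
    (β : Fin n → ℕ) (h : f ∈ Iz p β ⊔ pr F) :
    ∑ i, mu (p i) F * β i ≤ F.totalDegree * f.totalDegree := by
  obtain ⟨g, hg, y, hy, e⟩ := Submodule.mem_sup.1 h
  have hf0 : f ≠ 0 := by
    rintro rfl
    exact hf (dvd_zero F)
  obtain ⟨h1, h2⟩ := bez hF.ne_zero hf0 (irr_relPrime hF hf)
  have h3 : pr F ⊔ pr f = pr F ⊔ pr g := by
    apply le_antisymm
    · refine sup_le le_sup_left ?_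
      unfold pr
      rw [Ideal.span_singleton_le_iff_mem, ← e]
      exact Ideal.add_mem _ (Ideal.mem_sup_right (self_mem_pr g)) (Ideal.mem_sup_left hy)
    · refine sup_le le_sup_left ?_
      have h4 : g = f - y := by rw [← e]; ring
      have h5 : g ∈ pr F ⊔ pr f := by
        rw [h4]
        exact Ideal.sub_mem _ (Ideal.mem_sup_right (self_mem_pr f)) (Ideal.mem_sup_left hy)
      exact (Ideal.span_singleton_le_iff_mem _).2 h5
  rw [h3] at h1 h2
  have h4 : F ∈ Iz p (fun i => mu (p i) F) :=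
    mem_Iz.2 fun i => (mem_iff_le_mu hF.ne_zero _).2 le_rfl
  exact (len_pair_ge hp h4 hg h1).trans h2

end Pool.MP_70e04f_ag.Strip
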