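import Pool.Agent.Lib_MP_70e04f_strip.SLead
import Pool.Agent.Lib_MP_70e04f_strip.SMB

/-!
# Piece SGONA: independence of the monomials in two sections of different order
-/

set_option autoImplicit false

namespace Pool.MP_70e04f_ag.Strip

open MvPolynomial

theorem SGonA_mono {k : Type*} [Field k] {q : Fin 2 → k} {F f : A2 k} {a b : ℕ} (h : b ≤ a)
    (hf : f ∈ mp q ^ a ⊔ pr F) : f ∈ mp q ^ b ⊔ pr F := by
  have h1 : mp q ^ a ⊔ pr F ≤ mp q ^ b ⊔ pr F := sup_le_sup (Ideal.pow_le_pow_right h) le_rfl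
  exact h1 hf

/-- the order at a smooth point is finite.
PROOF. `f ∈ mp q ^ 0 ⊔ pr F = ⊤`. If `f ∈ mp q ^ r ⊔ pr F` then `mulbez` (one point, `β = r`) gives
`mu q F * r ≤ deg F * deg f`. So there is a largest `r` (`Nat.find` for the complement). -/
theorem exists_ord {k : Type*} [Field k] {q : Fin 2 → k} {F : A2 k} (hF : Irreducible F)
    (h : mu q F = 1) {f : A2 k} (hf : ¬ F ∣ f) :
    ∃ r : ℕ, f ∈ mp q ^ r ⊔ pr F ∧ f ∉ mp q ^ (r + 1) ⊔ pr F := by
  by_contra hc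
  push Not at hc
  have hall : ∀ r : ℕ, f ∈ mp q ^ r ⊔ pr F := by
    intro r
    induction r with
    | zero => rw [pow_zero, Ideal.one_eq_top, top_sup_eq]; trivial
    | succ r ih => exact hc r ih
  have hb := mulbez (k := k) (n := 1) (p := fun _ => q) (fun a b _ => Subsingleton.elim a b) hF hf
    (fun _ => F.totalDegree * f.totalDegree + 1) (by
      have h1 : Iz (n := 1) (fun _ => q) (fun _ => F.totalDegree * f.totalDegree + 1)
          = mp q ^ (F.totalDegree * f.totalDegree + 1) := by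
        unfold Iz
        exact iInf_const
      rw [h1]
      exact hall _)
  rw [Fin.sum_univ_one, h, one_mul] at hb
  omega

/-- The monomials in `u, w` of degree `κ` are independent modulo `F`.
PROOF. `w ∉ mp q ^ r ⊔ pr F` implies `¬ F ∣ w`. Let `s`, `r'` be the orders of `w`, `u` (`exists_ord`); then
`s < r ≤ r'` (`Ideal.pow_le_pow_right`). Suppose `F ∣ ∑ c a u ^ a w ^ (κ - a)` and not all `c a` are zero;
let `a0` be minimal with `c a0 ≠ 0`. By `ord_pow`, `ord_mul`, `u ^ a w ^ (κ - a)` is in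
`mp q ^ (a r' + (κ - a) s) ⊔ pr F`, and for `a = a0` not in `mp q ^ (a0 r' + (κ - a0) s + 1) ⊔ pr F`. For
`a > a0`, `a r' + (κ - a) s ≥ a0 r' + (κ - a0) s + 1`. Contradiction. -/
theorem monomials_indep {k : Type*} [Field k] {q : Fin 2 → k} {F : A2 k} (hF : Irreducible F)
    (h : mu q F = 1) {u w : A2 k} (hu : ¬ F ∣ u) {r : ℕ} (h1 : u ∈ mp q ^ r ⊔ pr F)
    (h2 : w ∉ mp q ^ r ⊔ pr F) (κ : ℕ) (c : ℕ → k)
    (hc : F ∣ ∑ a ∈ Finset.range (κ + 1), C (c a) * (u ^ a * w ^ (κ - a))) :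
    ∀ a ∈ Finset.range (κ + 1), c a = 0 := by
  have hF0 : F ≠ 0 := hF.ne_zero
  have hw : ¬ F ∣ w := fun hd => h2 (Ideal.mem_sup_right (mem_pr.2 hd))
  obtain ⟨s, hs1, hs2⟩ := exists_ord hF h hw
  obtain ⟨r', hr1, hr2⟩ := exists_ord hF h hu
  have hsr : s < r := by
    by_contra hlt
    exact h2 (SGonA_mono (not_lt.1 hlt) hs1)
  have hrr : r ≤ r' := by
    by_contra hlt
    exact hr2 (SGonA_mono (by omega) h1)
  have hterm : ∀ a : ℕ, u ^ a * w ^ (κ - a) ∈ mp q ^ (a * r' + (κ - a) * s) ⊔ pr F ∧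
      u ^ a * w ^ (κ - a) ∉ mp q ^ (a * r' + (κ - a) * s + 1) ⊔ pr F := by
    intro a
    have e1 := ord_pow hF0 h hr1 hr2 a
    have e2 := ord_pow hF0 h hs1 hs2 (κ - a)
    exact ord_mul hF0 h e1.1 e1.2 e2.1 e2.2
  by_contra hne
  push Not at hne
  classical
  have hex : ∃ a, a ∈ Finset.range (κ + 1) ∧ c a ≠ 0 := hne
  have hm := Nat.find_spec hex
  have hmin : ∀ b, b < Nat.find hex → c b = 0 := by
    intro b hb
    by_contra hcb
    refine Nat.find_min hex hb ⟨?_, hcb⟩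
    have := Finset.mem_range.1 hm.1
    exact Finset.mem_range.2 (by omega)
  set a0 := Nat.find hex with ha0
  have ha0k : a0 < κ + 1 := Finset.mem_range.1 hm.1
  have hI : ∀ a ∈ (Finset.range (κ + 1)).erase a0,
      C (c a) * (u ^ a * w ^ (κ - a)) ∈ mp q ^ (a0 * r' + (κ - a0) * s + 1) ⊔ pr F := by
    intro a ha
    rw [Finset.mem_erase, Finset.mem_range] at ha
    rcases lt_or_gt_of_ne ha.1 with hlt | hgt
    · rw [hmin a hlt, C_0, zero_mul]
      exact Ideal.zero_mem _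
    · refine Ideal.mul_mem_left _ _ (SGonA_mono ?_ (hterm a).1)
      obtain ⟨d, hd⟩ := Nat.exists_eq_add_of_lt hgt
      obtain ⟨e, he⟩ := Nat.exists_eq_add_of_le (show a ≤ κ by omega)
      have h3 : κ - a = e := by omega
      have h4 : κ - a0 = e + (d + 1) := by omega
      rw [h3, h4, hd]
      have h5 : s + 1 ≤ r' := by omega
      have h6 : (d + 1) * (s + 1) ≤ (d + 1) * r' := Nat.mul_le_mul_left _ h5
      nlinarith
  have hsum : ∑ a ∈ (Finset.range (κ + 1)).erase a0, C (c a) * (u ^ a * w ^ (κ - a)) ∈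
      mp q ^ (a0 * r' + (κ - a0) * s + 1) ⊔ pr F := Ideal.sum_mem _ hI
  have htot : ∑ a ∈ Finset.range (κ + 1), C (c a) * (u ^ a * w ^ (κ - a)) ∈
      mp q ^ (a0 * r' + (κ - a0) * s + 1) ⊔ pr F := Ideal.mem_sup_right (mem_pr.2 hc)
  rw [← Finset.add_sum_erase _ _ hm.1] at htot
  have h7 := (Ideal.add_mem_iff_left _ hsum).1 htot
  have h8 : C (c a0)⁻¹ * (C (c a0) * (u ^ a0 * w ^ (κ - a0))) ∈
      mp q ^ (a0 * r' + (κ - a0) * s + 1) ⊔ pr F := Ideal.mul_mem_left _ _ h7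
  rw [← mul_assoc, ← C_mul, inv_mul_cancel₀ hm.2, C_1, one_mul] at h8
  exact (hterm a0).2 h8

end Pool.MP_70e04f_ag.Strip
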