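import Pool.Agent.Lib_MP_70e04f_strip.SSurfA

/-!
# Piece SSURF: Serre vanishing on the plane
-/

set_option autoImplicit false

namespace Pool.MP_70e04f_ag.Strip

open MvPolynomial

private theorem SSurf_idx {D j κ : ℕ} (hD : 1 ≤ D) (hj : 3 ≤ j) :
    (j + κ) * D - 3 = j * D - 3 + κ * D := by
  have h : 3 ≤ j * D := by nlinarith
  rw [Nat.add_mul]
  omega

private theorem SSurf_idx2 {m j κ : ℕ} (hm : 1 ≤ m) (hj : 3 ≤ j) :
    (j + κ) * m - 1 = j * m - 1 + κ * m := by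
  have h : 1 ≤ j * m := by nlinarith
  rw [Nat.add_mul]
  omega

private theorem SSurf_mul_mem {n : ℕ} {k : Type} [Field k] {p : Fin n → Fin 2 → k}
    {β γ : Fin n → ℕ} {f g : A2 k} (hf : f ∈ Iz p γ) (hg : g ∈ Iz p β) :
    f * g ∈ Iz p (fun i => β i + γ i) := by
  rw [mul_comm]
  exact Iz_mul_mem hg hf

/-- Serre vanishing.
PROOF. Write `v j = cod (j D - 3) (Iz p (j M - 1))`. By `exists_kappa` (`B = 0`) and `finrank_sys_ge`
there is `κ0 ≥ 1`, depending only on `D, M`, with a nonzero element of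
`Pt k (κ0 D) ⊓ sp (Iz p (κ0 M))`, for all `k, p`. Let `J1 ≥ 3` be at least the `J` of `surf_mul` for
`κ0`. For `j ≥ J1`, `v (j + κ0) ≤ v j` (`step_le`; note `(j + κ0) D - 3 = j D - 3 + κ0 D` since
`j D ≥ 3`, and `(j + κ0) M i - 1 = j M i - 1 + κ0 M i`). Since `v j ≤ len ≤ ∑ (j M i) ^ 2` (`cod_le_len`,
`len_Iz`), for all `j ≥ J1`: `v j ≤ B := ∑ ((J1 + κ0) * M i) ^ 2` (write `j` as an element of
`[J1, J1 + κ0)` plus a multiple of `κ0`). Choose `κ` for this `B` by `exists_kappa`, let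
`E = max (κ0 D) (κ D)` and `J2 ≥ J1` at least the `J` of `surf_mul` for `κ`. For `j ≥ J2`, `step_lt` with
`W = Pt k (κ D) ⊓ sp (Iz p (κ M))` (`finrank W > B ≥ v j`): `v (j + κ) < v j` or `v (j + κ) = v j = 0`. So
`v j = 0` for `j ≥ J2 + κ (B + 1)`, and `FinC.cod_eq_zero`. -/
theorem surf_van (n D : ℕ) (M : Fin n → ℕ) (hM : ∀ i, 1 ≤ M i) (hsq : ∑ i, M i ^ 2 < D ^ 2) :
    ∃ E : ℕ, ∀ (k : Type) [Field k] [Infinite k] (p : Fin n → Fin 2 → k), Function.Injective p →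
    (∀ F : A2 k, Irreducible F → F.totalDegree ≤ E → 1 ≤ dotp D M p F) →
    ∃ J : ℕ, ∀ j, J ≤ j → Ind (j * D - 3) (Iz p (fun i => j * M i - 1)) := by
  have hD : 1 ≤ D := by
    rcases Nat.eq_zero_or_pos D with h | h
    · rw [h] at hsq
      simp at hsq
    · exact h
  obtain ⟨κ0, hκ0, hκ0'⟩ := exists_kappa D 0 M hsq
  obtain ⟨Ja, hJa⟩ := surf_mul D κ0 M hM hD
  obtain ⟨J1, hJ1a, hJ13⟩ : ∃ J1, Ja ≤ J1 ∧ 3 ≤ J1 := ⟨max Ja 3, le_max_left _ _, le_max_right _ _⟩
  obtain ⟨B, hB⟩ : ∃ B, B = ∑ i, ((J1 + κ0) * M i) ^ 2 := ⟨_, rfl⟩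
  obtain ⟨κ, hκ, hκ'⟩ := exists_kappa D B M hsq
  obtain ⟨Jb, hJb⟩ := surf_mul D κ M hM hD
  obtain ⟨J2, hJ2b, hJ21⟩ : ∃ J2, Jb ≤ J2 ∧ J1 ≤ J2 := ⟨max Jb J1, le_max_left _ _, le_max_right _ _⟩
  refine ⟨max (κ0 * D) (κ * D), fun k _ _ p hp hpos => ?_⟩
  obtain ⟨v, hv⟩ : ∃ v : ℕ → ℕ, ∀ j, v j = cod (j * D - 3) (Iz p (fun i => j * M i - 1)) :=
    ⟨_, fun _ => rfl⟩
  -- a nonzero element for `κ0`
  have hW0 := finrank_sys_ge hp (κ0 * D) (fun i => κ0 * M i)
  have hW0' : 0 < Module.finrank k ↥(Pt k (κ0 * D) ⊓ sp (Iz p (fun i => κ0 * M i))) := by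
    have : (0 : ℤ) < 2 * (Module.finrank k ↥(Pt k (κ0 * D) ⊓ sp (Iz p (fun i => κ0 * M i))) : ℤ) := by
      refine lt_of_lt_of_le ?_ hW0
      simpa using hκ0'
    omega
  obtain ⟨s0, hs0⟩ : ∃ s0 : ↥(Pt k (κ0 * D) ⊓ sp (Iz p (fun i => κ0 * M i))), s0 ≠ 0 := by
    haveI := Module.nontrivial_of_finrank_pos hW0'
    exact exists_ne 0
  have hs0P : (s0 : A2 k) ∈ Pt k (κ0 * D) := (Submodule.mem_inf.1 s0.2).1
  have hs0I : (s0 : A2 k) ∈ Iz p (fun i => κ0 * M i) := (Submodule.mem_inf.1 s0.2).2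
  have hs0n : (s0 : A2 k) ≠ 0 := fun h => hs0 (Subtype.ext h)
  have hstep0 : ∀ j, J1 ≤ j → v (j + κ0) ≤ v j := by
    intro j hj
    rw [hv, hv, SSurf_idx hD (by omega)]
    have he : (fun i => (j + κ0) * M i - 1) = fun i => j * M i - 1 + κ0 * M i := by
      funext i
      exact SSurf_idx2 (hM i) (by omega)
    rw [he]
    refine step_le hs0P (fun g hg => SSurf_mul_mem hs0I hg) ?_ (finC_Iz hp _)
    exact hJa k p hp (fun F hF hdeg => hpos F hF (hdeg.trans (le_max_left _ _))) _ hs0n hs0P hs0I j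
      (by omega)
  have hbound : ∀ j, J1 ≤ j → v j ≤ B := by
    intro j
    induction j using Nat.strong_induction_on with
    | _ j ih =>
      intro hj
      by_cases hlt : j < J1 + κ0
      · rw [hv]
        refine (cod_le_len (finC_Iz hp _) _).trans ?_
        have h3 := len_Iz hp (fun i => j * M i - 1)
        have h4 : ∑ i, (j * M i - 1) * (j * M i - 1 + 1) ≤ B := by
          rw [hB]
          refine Finset.sum_le_sum fun i _ => ?_
          have h5 : j * M i - 1 ≤ (J1 + κ0) * M i :=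
            (Nat.sub_le _ _).trans (Nat.mul_le_mul_right _ (by omega))
          have h6 : j * M i - 1 + 1 ≤ (J1 + κ0) * M i := by
            have h7 : 1 ≤ j * M i := Nat.mul_pos (by omega) (hM i)
            have h8 : j * M i ≤ (J1 + κ0) * M i := Nat.mul_le_mul_right _ (by omega)
            omega
          calc (j * M i - 1) * (j * M i - 1 + 1) ≤ ((J1 + κ0) * M i) * ((J1 + κ0) * M i) :=
                Nat.mul_le_mul h5 h6
            _ = ((J1 + κ0) * M i) ^ 2 := (sq _).symm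
        omega
      · have h1 := ih (j - κ0) (by omega) (by omega)
        have h2 := hstep0 (j - κ0) (by omega)
        rw [Nat.sub_add_cancel (by omega)] at h2
        exact h2.trans h1
  have hW := finrank_sys_ge hp (κ * D) (fun i => κ * M i)
  have hW' : B < Module.finrank k ↥(Pt k (κ * D) ⊓ sp (Iz p (fun i => κ * M i))) := by
    have : 2 * (B : ℤ) <
        2 * (Module.finrank k ↥(Pt k (κ * D) ⊓ sp (Iz p (fun i => κ * M i))) : ℤ) :=
      lt_of_lt_of_le hκ' hW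
    omega
  have hstep : ∀ j, J2 ≤ j → v (j + κ) < v j ∨ v (j + κ) = 0 ∧ v j = 0 := by
    intro j hj
    rw [hv (j + κ), SSurf_idx hD (by omega)]
    have he : (fun i => (j + κ) * M i - 1) = fun i => j * M i - 1 + κ * M i := by
      funext i
      exact SSurf_idx2 (hM i) (by omega)
    have hvB := hbound j (by omega)
    rw [he]
    rw [hv] at hvB ⊢
    refine step_lt (Pt k (κ * D) ⊓ sp (Iz p (fun i => κ * M i))) inf_le_left
      (fun s hs g hg => SSurf_mul_mem (Submodule.mem_inf.1 hs).2 hg) (fun s hs hsn => ?_)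
      (finC_Iz hp _) (lt_of_le_of_lt hvB hW')
    exact hJb k p hp (fun F hF hdeg => hpos F hF (hdeg.trans (le_max_right _ _))) s hsn
      (Submodule.mem_inf.1 hs).1 (Submodule.mem_inf.1 hs).2 j (by omega)
  have hdec : ∀ m j, J2 ≤ j → v (j + κ * m) ≤ B - m := by
    intro m
    induction m with
    | zero =>
      intro j hj
      simpa using hbound j (by omega)
    | succ m ih =>
      intro j hj
      have h1 := ih j hj
      have h2 := hstep (j + κ * m) (by omega)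
      have h3 : j + κ * m + κ = j + κ * (m + 1) := by ring
      rw [h3] at h2
      omega
  refine ⟨J2 + κ * (B + 1), fun j hj => ?_⟩
  have h1 := hdec (B + 1) (j - κ * (B + 1)) (by omega)
  have h2 : j - κ * (B + 1) + κ * (B + 1) = j := Nat.sub_add_cancel (by omega)
  rw [h2] at h1
  have h3 : v j = 0 := by omega
  rw [hv] at h3
  exact (FinC.cod_eq_zero (finC_Iz hp _) _).1 h3

end Pool.MP_70e04f_ag.Strip
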