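import Pool.Agent.Lib_MP_70e04f_strip.STraceA

/-!
# Piece STRACE: the Frobenius trace and multiplicities
-/

set_option autoImplicit false

namespace Pool.MP_70e04f_ag.Strip

open MvPolynomial

variable {k : Type*} [Field k]

theorem STrace_mem (p : Fin 2 → k) (c : Fin 2) : (X c - C (p c) : A2 k) ∈ mp p := by
  rw [mem_mp]; simp

theorem STrace_shift (p : Fin 2 → k) (s : Fin 2 →₀ ℕ) (a : k) :
    shift (fun c => - p c) (monomial s a) =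
      a • ((X 0 - C (p 0)) ^ s 0 * (X 1 - C (p 1)) ^ s 1 : A2 k) := by
  have h1 : (monomial s a : A2 k) = C a * (X 0 ^ s 0 * X 1 ^ s 1) := by
    rw [monomial_eq]
    congr 1
    rw [Finsupp.prod_fintype _ _ (fun _ => pow_zero _), Fin.prod_univ_two]
  rw [h1, MvPolynomial.smul_eq_C_mul]
  simp only [shift, map_mul, map_pow, aeval_X, aeval_C, MvPolynomial.algebraMap_eq, map_neg]
  rw [sub_eq_add_neg, sub_eq_add_neg]

theorem STrace_pow (ℓ e : ℕ) [Fact ℓ.Prime] [CharP k ℓ] (c : Fin 2) (x : k) (a : ℕ) :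
    (X c - C x : A2 k) ^ a =
      expand (ℓ ^ e) ((X c - C (x ^ ℓ ^ e)) ^ (a / ℓ ^ e)) * (X c - C x) ^ (a % ℓ ^ e) := by
  have h1 : expand (ℓ ^ e) (X c - C (x ^ ℓ ^ e) : A2 k) = (X c - C x) ^ (ℓ ^ e) := by
    rw [map_sub, expand_X, expand_C, sub_pow_char_pow, C_pow]
  rw [map_pow, h1, ← pow_mul, ← pow_add, Nat.div_add_mod]

theorem STrace_mono (ℓ e : ℕ) [Fact ℓ.Prime] [CharP k ℓ] (m : ℕ) (p : Fin 2 → k) (a b : ℕ)
    (hab : ℓ ^ e * (m + 1) - 1 ≤ a + b) :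
    tr (ℓ ^ e) ((X 0 - C (p 0)) ^ a * (X 1 - C (p 1)) ^ b : A2 k) ∈
      mp (fun c => p c ^ (ℓ ^ e)) ^ m := by
  have hq : 1 ≤ ℓ ^ e := Nat.one_le_pow _ _ (Fact.out : ℓ.Prime).pos
  have ha := Nat.div_add_mod a (ℓ ^ e)
  have hb := Nat.div_add_mod b (ℓ ^ e)
  have ha' := Nat.mod_lt a hq
  have hb' := Nat.mod_lt b hq
  have e1 : ((X 0 - C (p 0)) ^ a * (X 1 - C (p 1)) ^ b : A2 k) =
      expand (ℓ ^ e) ((X 0 - C (p 0 ^ ℓ ^ e)) ^ (a / ℓ ^ e) *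
        (X 1 - C (p 1 ^ ℓ ^ e)) ^ (b / ℓ ^ e)) *
      ((X 0 - C (p 0)) ^ (a % ℓ ^ e) * (X 1 - C (p 1)) ^ (b % ℓ ^ e)) := by
    rw [STrace_pow ℓ e 0 (p 0) a, STrace_pow ℓ e 1 (p 1) b, map_mul]
    ring
  rw [e1, tr_expand _ hq]
  refine Ideal.mul_mem_right _ _ ?_
  set i := a / ℓ ^ e
  set j := b / ℓ ^ e
  have hij : m ≤ i + j := by
    by_contra hlt
    rw [not_le] at hlt
    have h2 : ℓ ^ e * (i + j + 1) ≤ ℓ ^ e * m := Nat.mul_le_mul_left _ hlt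
    have h3 : ℓ ^ e * (i + j + 1) = ℓ ^ e * i + ℓ ^ e * j + ℓ ^ e := by ring
    have h4 : ℓ ^ e * (m + 1) = ℓ ^ e * m + ℓ ^ e := by ring
    omega
  refine Ideal.pow_le_pow_right hij ?_
  rw [pow_add]
  exact Ideal.mul_mem_mul
    (Ideal.pow_mem_pow (STrace_mem (fun c => p c ^ (ℓ ^ e)) 0) _)
    (Ideal.pow_mem_pow (STrace_mem (fun c => p c ^ (ℓ ^ e)) 1) _)

/-- PROOF. Let `N = q (m + 1) - 1`, `ξ = p 0`, `η = p 1`. `mp p` is spanned by `X 0 - C ξ`, `X 1 - C η`, so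
`mp p ^ N` is the ideal generated by the products `(X 0 - C ξ) ^ a (X 1 - C η) ^ b`, `a + b = N` (or use
`mem_mp_pow` and the expansion of `f` in powers of `X 0 - C ξ`, `X 1 - C η`, i.e.
`f = shift (-p) (shift p f)`). Write `a = q i + a'`, `b = q j + b'` with `a', b' < q`; then
`q (i + j) ≥ N - 2 (q - 1) = q (m - 1) + 1` (if `m ≥ 1`), so `i + j ≥ m`. In characteristic `ℓ`,
`(X 0 - C ξ) ^ q = X 0 ^ q - C (ξ ^ q) = expand q (X 0 - C (ξ ^ q))` (`sub_pow_char_pow`), so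
`(X 0 - C ξ) ^ a (X 1 - C η) ^ b u = expand q ((X 0 - C (ξ^q)) ^ i (X 1 - C (η^q)) ^ j) * u'` and
`tr_expand` applies. -/
theorem tr_mp (ℓ e : ℕ) [Fact ℓ.Prime] [CharP k ℓ] (m : ℕ) (p : Fin 2 → k)
    {f : A2 k} (hf : f ∈ mp p ^ (ℓ ^ e * (m + 1) - 1)) :
    tr (ℓ ^ e) f ∈ mp (fun c => p c ^ (ℓ ^ e)) ^ m := by
  classical
  have hq : 1 ≤ ℓ ^ e := Nat.one_le_pow _ _ (Fact.out : ℓ.Prime).pos
  rw [mem_mp_pow] at hf
  set h := shift p f with hh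
  have hfe : f = shift (fun c => - p c) h := (shift_shift_neg p f).symm
  have hsum : shift (fun c => - p c) h =
      ∑ s ∈ h.support, coeff s h • ((X 0 - C (p 0)) ^ s 0 * (X 1 - C (p 1)) ^ s 1 : A2 k) := by
    conv_lhs => rw [h.as_sum]
    rw [map_sum]
    refine Finset.sum_congr rfl fun s _ => ?_
    exact STrace_shift p s _
  rw [hfe, hsum, map_sum]
  refine Ideal.sum_mem _ fun s hs => ?_
  rw [map_smul, MvPolynomial.smul_eq_C_mul]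
  refine Ideal.mul_mem_left _ _ ?_
  rw [mem_support_iff] at hs
  have hdeg : ℓ ^ e * (m + 1) - 1 ≤ s 0 + s 1 := by
    by_contra hlt
    rw [not_le] at hlt
    have := hf (s 0) (s 1) hlt
    rw [mon_eta] at this
    exact hs this
  exact STrace_mono ℓ e m p (s 0) (s 1) hdeg

/-- Independence for large multiples implies independence.
PROOF. Let `f` be given and `f' ` with `tr f' = f` (`tr_surj`). `f' = g + h` with
`g ∈ Pt k (q (d + 3) - 3)`, `h ∈ Iz p (q (m + 1) - 1)`; apply `tr`, `tr_Pt`, `tr_mp`. -/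
theorem trace_ind (ℓ e : ℕ) [Fact ℓ.Prime] [CharP k ℓ] {n : ℕ} (p : Fin n → Fin 2 → k) (d : ℕ)
    (m : Fin n → ℕ)
    (h : Ind (ℓ ^ e * (d + 3) - 3) (Iz p (fun i => ℓ ^ e * (m i + 1) - 1))) :
    Ind d (Iz (fun i c => p i c ^ (ℓ ^ e)) m) := by
  have hq : 1 ≤ ℓ ^ e := Nat.one_le_pow _ _ (Fact.out : ℓ.Prime).pos
  rw [ind_iff] at h ⊢
  intro f
  obtain ⟨f', hf'⟩ := tr_surj (k := k) (ℓ ^ e) hq f
  obtain ⟨g, hg, u, hu, e1⟩ := h f'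
  refine ⟨tr (ℓ ^ e) g, tr_Pt (ℓ ^ e) hq d hg, tr (ℓ ^ e) u, ?_, ?_⟩
  · rw [mem_Iz] at hu ⊢
    intro i
    exact tr_mp ℓ e (m i) (p i) (hu i)
  · rw [← map_add, e1, hf']

end Pool.MP_70e04f_ag.Strip
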