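import Pool.Agent.Lib_MP_70e04f_strip.SPos
import Pool.Agent.Lib_MP_70e04f_strip.SSurf
import Pool.Agent.Lib_MP_70e04f_strip.STrace

/-!
# Piece SIND: independence for suitable points in large characteristic
-/

set_option autoImplicit false

namespace Pool.MP_70e04f_ag.Strip

open MvPolynomial

/-- PROOF. Let `D = d + 3`, `M i = m i + 1`, `X = m (α 9) + 1`. `surf_van n D M` gives `E`. Let `ℓ` be a
prime larger than `E` and `3` and `k = KK n ℓ`. `pos` for the first nine of the ten points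
(`α ∘ Fin.castSucc`; the tenth one has `M = X`) shows that `(D; M)` is positive on every irreducible
curve of degree `≤ E`. So there is `J` with `Ind (j D - 3) (Iz (gp) (j M - 1))` for `j ≥ J`; take
`j = ℓ ^ e ≥ J` and apply `trace_ind` (`charP_KK`). The points `(gp i) ^ (ℓ ^ e)` are different, since
`x ↦ x ^ (ℓ ^ e)` is injective (`frobenius_inj`/`iterateFrobenius`). -/
theorem ind_gen {n : ℕ} (d : ℕ) (m : Fin n → ℕ) (α : Fin 10 → Fin n)
    (hα : Function.Injective α) (hanti : Antitone (fun s => m (α s)))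
    (hother : ∀ i, i ∉ Set.range α → m i ≤ m (α 9)) (hstd : m (α 0) + m (α 1) + m (α 2) ≤ d)
    (hsq : ∑ i, (m i + 1) ^ 2 + (m (α 9) + 1) ^ 2 < (d + 3) ^ 2) :
    ∃ (k : Type) (_ : Field k) (_ : Infinite k) (p : Fin n → Fin 2 → k),
      Function.Injective p ∧ Ind d (Iz p m) := by
  obtain ⟨E, hE⟩ := surf_van n (d + 3) (fun i => m i + 1) (fun i => by omega) (by omega)
  obtain ⟨ℓ, hℓ, hprime⟩ := Nat.exists_infinite_primes (E + 4)
  have : Fact ℓ.Prime := ⟨hprime⟩
  have : CharP (KK n ℓ) ℓ := charP_KK n ℓ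
  have hn : 0 < n := lt_of_le_of_lt (Nat.zero_le _) (α 0).2
  have hinf : Infinite (KK n ℓ) := infinite_KK ℓ hn
  have hpos : ∀ F : A2 (KK n ℓ), Irreducible F → F.totalDegree ≤ E →
      1 ≤ dotp (d + 3) (fun i => m i + 1) (gp n ℓ) F := by
    intro F hF hFE
    refine pos (by omega) (d + 3) (m (α 9) + 1) (fun i => m i + 1) (fun s => α s.castSucc)
      (hα.comp (Fin.castSucc_injective _)) ?_ (by omega) ?_ ?_ ?_ hsq hF (by omega)
    · intro a b hab
      have := hanti (Fin.castSucc_le_castSucc_iff.2 hab)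
      simp only at this ⊢
      omega
    · have := hanti (show (8 : Fin 9).castSucc ≤ (9 : Fin 10) from by decide)
      simp only at this ⊢
      omega
    · intro i hi
      by_cases h9 : i = α 9
      · rw [h9]
      · have := hother i (by
          rintro ⟨s, hs⟩
          rcases Fin.eq_castSucc_or_eq_last s with ⟨s', rfl⟩ | rfl
          · exact hi ⟨s', hs⟩
          · exact h9 hs.symm)
        omega
    · have e0 : (0 : Fin 9).castSucc = (0 : Fin 10) := rfl
      have e1 : (1 : Fin 9).castSucc = (1 : Fin 10) := rfl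
      have e2 : (2 : Fin 9).castSucc = (2 : Fin 10) := rfl
      rw [e0, e1, e2]
      omega
  obtain ⟨J, hJ⟩ := hE (KK n ℓ) (gp n ℓ) (gp_inj n ℓ) hpos
  have hJe : J ≤ ℓ ^ J := (Nat.lt_pow_self hprime.one_lt).le
  have h1 := hJ (ℓ ^ J) hJe
  have h2 := trace_ind ℓ J (gp n ℓ) d m h1
  refine ⟨KK n ℓ, inferInstance, hinf, _, ?_, h2⟩
  intro i j hij
  apply gp_inj n ℓ
  funext c
  have h3 := congrFun hij c
  exact iterateFrobenius_inj (KK n ℓ) ℓ J h3

end Pool.MP_70e04f_ag.Strip
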