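import Pool.Agent.Lib_MP_70e04f_strip.SLeadA

/-!
# Piece SLEAD: the order at a smooth point. Let `mu q F = 1`. The ideals `I r = mp q ^ r ⊔ pr F`
define the order of a polynomial on the curve `F` at `q`.
-/

set_option autoImplicit false

namespace Pool.MP_70e04f_ag.Strip

open MvPolynomial

variable {k : Type*} [Field k]

/-- local coordinate -/
noncomputable def SLead_u (q : Fin 2 → k) (i : Fin 2) : A2 k := X i - C (q i)

theorem SLead_u_mem (q : Fin 2 → k) (i : Fin 2) : SLead_u q i ∈ mp q := by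
  rw [mem_mp]
  unfold SLead_u
  rw [map_sub, eval_X, eval_C, sub_self]

theorem SLead_shift_u (q : Fin 2 → k) (i : Fin 2) : shift q (SLead_u q i) = X i := by
  unfold SLead_u shift
  rw [map_sub, aeval_X, aeval_C]
  show X i + C (q i) - C (q i) = X i
  ring

theorem SLead_coeff (q : Fin 2 → k) (c : k) (a b a' b' : ℕ) :
    coeff (mon a' b') (shift q (C c * (SLead_u q 0 ^ a * SLead_u q 1 ^ b))) =
      if a = a' ∧ b = b' then c else 0 := by
  classical
  have h0 : shift q (C c : A2 k) = C c := by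
    unfold shift
    rw [aeval_C]
    rfl
  rw [map_mul, map_mul, map_pow, map_pow, SLead_shift_u, SLead_shift_u, h0]
  have h1 : (C c * (X 0 ^ a * X 1 ^ b) : A2 k) = monomial (mon a b) c := by
    rw [monomial_eq, Finsupp.prod_fintype _ _ (fun i => pow_zero _), Fin.prod_univ_two, mon_zero',
      mon_one']
  rw [h1, coeff_monomial]
  by_cases h : a = a' ∧ b = b'
  · rw [if_pos h, if_pos (mon_inj.2 h)]
  · rw [if_neg h, if_neg fun e => h (mon_inj.1 e)]

theorem SLead_taylor {q : Fin 2 → k} {r : ℕ} {f : A2 k} (hf : f ∈ mp q ^ r) :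
    f - ∑ a ∈ Finset.range (r + 1), C (coeff (mon a (r - a)) (shift q f)) *
      (SLead_u q 0 ^ a * SLead_u q 1 ^ (r - a)) ∈ mp q ^ (r + 1) := by
  rw [mem_mp_pow]
  intro a' b' hab
  rw [map_sub, coeff_sub, map_sum, coeff_sum]
  simp only [SLead_coeff]
  by_cases h : a' + b' < r
  · rw [mem_mp_pow.1 hf a' b' h, zero_sub, neg_eq_zero]
    refine Finset.sum_eq_zero fun a ha => ?_
    rw [Finset.mem_range] at ha
    rw [if_neg]
    rintro ⟨rfl, h2⟩
    omega
  · have h1 : a' + b' = r := by omega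
    rw [Finset.sum_eq_single a']
    · have h2 : r - a' = b' := by omega
      rw [h2, if_pos ⟨rfl, rfl⟩, sub_self]
    · intro a _ ha
      rw [if_neg fun e => ha e.1]
    · intro ha
      rw [Finset.mem_range] at ha
      omega

theorem SLead_mul {q : Fin 2 → k} {F : A2 k} {i j : ℕ} {a z : A2 k} (ha : a ∈ mp q ^ i)
    (hz : z ∈ mp q ^ j ⊔ pr F) : a * z ∈ mp q ^ (i + j) ⊔ pr F := by
  rw [Submodule.mem_sup] at hz ⊢
  obtain ⟨y, hy, w, hw, rfl⟩ := hz
  refine ⟨a * y, ?_, a * w, Ideal.mul_mem_left _ _ hw, by ring⟩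
  rw [pow_add]
  exact Ideal.mul_mem_mul ha hy

theorem SLead_pow {q : Fin 2 → k} {F v w : A2 k} (c : k) (hv : v ∈ mp q) (hw : w ∈ mp q)
    (h : v - C c * w ∈ mp q ^ 2 ⊔ pr F) (b : ℕ) :
    v ^ b - (C c * w) ^ b ∈ mp q ^ (b + 1) ⊔ pr F := by
  induction b with
  | zero => rw [pow_zero, pow_zero, sub_self]; exact Submodule.zero_mem _
  | succ b ih =>
    have e : v ^ (b + 1) - (C c * w) ^ (b + 1) =
        v * (v ^ b - (C c * w) ^ b) + (C c * w) ^ b * (v - C c * w) := by ring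
    rw [e]
    refine Submodule.add_mem _ ?_ ?_
    · have h1 := SLead_mul (F := F) (i := 1) (a := v) (by rwa [pow_one]) ih
      have e2 : 1 + (b + 1) = b + 1 + 1 := by omega
      rwa [e2] at h1
    · have h1 := SLead_mul (F := F) (i := b) (a := (C c * w) ^ b)
        (Ideal.pow_mem_pow (Ideal.mul_mem_left _ _ hw) b) h
      have e2 : b + 2 = b + 1 + 1 := by omega
      rwa [e2] at h1

theorem SLead_mono {q : Fin 2 → k} {F v w : A2 k} (c : k) (hv : v ∈ mp q) (hw : w ∈ mp q)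
    (h : v - C c * w ∈ mp q ^ 2 ⊔ pr F) (a b : ℕ) :
    w ^ a * v ^ b - C (c ^ b) * w ^ (a + b) ∈ mp q ^ (a + b + 1) ⊔ pr F := by
  have h1 := SLead_mul (F := F) (i := a) (a := w ^ a) (Ideal.pow_mem_pow hw a)
    (SLead_pow c hv hw h b)
  have e : w ^ a * (v ^ b - (C c * w) ^ b) = w ^ a * v ^ b - C (c ^ b) * w ^ (a + b) := by
    rw [mul_pow, C_pow, pow_add]
    ring
  rw [e] at h1
  exact h1

/-- PROOF. (→) `f = g + F h` with `g ∈ mp q ^ (r + 1)`, so `lf f = lf (F h)` (`lf_add`, `lf_eq_zero`). If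
`r = 0` then `F h ∈ mp q`, `lf = 0`. If `r = s + 1`: `F h = f - g ∈ mp q ^ r`, so `h ∈ mp q ^ s`
(`mem_of_mul_mem`), and `lf (F h) = lf q 1 F * lf q s h = 0` (`lf_mul`, `lf_self`).
(←) Let `λ 0, λ 1` be the coefficients of degree one of `shift q F`, not both zero (`exists_coeff_ne`),
say `λ 1 ≠ 0` (the other case is symmetric). Put `u c = X c - C (q c) ∈ mp q`,
`L = λ 0 u 0 + λ 1 u 1`. `F - L ∈ mp q ^ 2`, so `L mp q ^ (r - 1) ⊆ mp q ^ (r + 1) ⊔ pr F` (for `r ≥ 1`). Modulo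
`mp q ^ (r + 1)`, `f` is `∑ c a b u 0 ^ a u 1 ^ b`, `a + b = r` (`c a b` the coefficients of degree `r` of
`shift q f`). And `u 0 ^ a u 1 ^ b - (- λ 0 / λ 1) ^ b u 0 ^ r` is `L` times an element of
`mp q ^ (r - 1)` (induction on `b`), so modulo `mp q ^ (r + 1) ⊔ pr F`
`f = (∑ c a b (- λ 0 / λ 1) ^ b) u 0 ^ r = λ 1 ^ (- r) (lf q r (tgt q F) f) u 0 ^ r = 0`. -/
theorem lead_iff {q : Fin 2 → k} {F : A2 k} (hF0 : F ≠ 0) (h : mu q F = 1) {r : ℕ} {f : A2 k}
    (hf : f ∈ mp q ^ r) :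
    f ∈ mp q ^ (r + 1) ⊔ pr F ↔ lf q r (tgt q F) f = 0 := by
  have hF1 : F ∈ mp q ^ 1 := (mem_iff_le_mu hF0 1).2 h.ge
  constructor
  · intro hmem
    rw [Submodule.mem_sup] at hmem
    obtain ⟨g, hg, w, hw, hgw⟩ := hmem
    obtain ⟨u, rfl⟩ := mem_pr.1 hw
    rw [← hgw, lf_add, lf_eq_zero _ hg, zero_add]
    rcases r with _ | s
    · exact lf_eq_zero _ (Ideal.mul_mem_right _ _ (by rwa [zero_add]))
    · have h1 : F * u ∈ mp q ^ (s + 1) := by
        have h2 : F * u = f - g := by rw [← hgw]; ring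
        rw [h2]
        exact Ideal.sub_mem _ hf (Ideal.pow_le_pow_right (Nat.le_succ _) hg)
      have h2 := mem_of_mul_mem hF0 h1
      rw [h, Nat.add_sub_cancel] at h2
      have h3 := lf_mul (tgt q F) hF1 h2
      rw [lf_self, zero_mul, add_comm 1 s] at h3
      exact h3
  · intro hlf
    obtain ⟨c0, hc0⟩ : ∃ c0, c0 = coeff (mon 1 0) (shift q F) := ⟨_, rfl⟩
    obtain ⟨c1, hc1⟩ : ∃ c1, c1 = coeff (mon 0 1) (shift q F) := ⟨_, rfl⟩
    have hL : C c0 * SLead_u q 0 + C c1 * SLead_u q 1 ∈ mp q ^ 2 ⊔ pr F := by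
      have h1 := SLead_taylor hF1
      rw [Finset.sum_range_succ, Finset.sum_range_one] at h1
      simp only [pow_zero, pow_one, Nat.sub_zero, Nat.sub_self, one_mul, mul_one] at h1
      rw [← hc0, ← hc1] at h1
      have h2 : C c0 * SLead_u q 0 + C c1 * SLead_u q 1 =
          -(F - (C c1 * SLead_u q 1 + C c0 * SLead_u q 0)) + F := by ring
      rw [h2]
      exact Submodule.add_mem _ (Submodule.neg_mem _ (Submodule.mem_sup_left h1))
        (Submodule.mem_sup_right (self_mem_pr F))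
    have hne : c0 ≠ 0 ∨ c1 ≠ 0 := by
      obtain ⟨a, b, hab, hcne⟩ := exists_coeff_ne (q := q) hF0
      rw [h] at hab
      have h1 : (a = 1 ∧ b = 0) ∨ (a = 0 ∧ b = 1) := by omega
      rcases h1 with ⟨rfl, rfl⟩ | ⟨rfl, rfl⟩
      · exact Or.inl (by rw [hc0]; exact hcne)
      · exact Or.inr (by rw [hc1]; exact hcne)
    have hu0 := SLead_u_mem q 0
    have hu1 := SLead_u_mem q 1
    have ht := SLead_taylor hf
    obtain ⟨co, hco⟩ : ∃ co : ℕ → k, co = fun a => coeff (mon a (r - a)) (shift q f) := ⟨_, rfl⟩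
    have hlf' : ∑ a ∈ Finset.range (r + 1), co a * (c1 ^ a * (-c0) ^ (r - a)) = 0 := by
      rw [← hlf, hco, hc0, hc1]
      rfl
    have ht' : f - ∑ a ∈ Finset.range (r + 1), C (co a) *
        (SLead_u q 0 ^ a * SLead_u q 1 ^ (r - a)) ∈ mp q ^ (r + 1) ⊔ pr F := by
      rw [hco]
      exact Submodule.mem_sup_left ht
    -- it is enough to have a common factor
    have key : ∀ (w : A2 k) (e : ℕ → k), (∑ a ∈ Finset.range (r + 1), co a * e a = 0) →
        (∀ a ∈ Finset.range (r + 1), SLead_u q 0 ^ a * SLead_u q 1 ^ (r - a) - C (e a) * w ^ r ∈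
          mp q ^ (r + 1) ⊔ pr F) → f ∈ mp q ^ (r + 1) ⊔ pr F := by
      intro w e he hmem
      have h1 : ∑ a ∈ Finset.range (r + 1), C (co a) *
          (SLead_u q 0 ^ a * SLead_u q 1 ^ (r - a) - C (e a) * w ^ r) ∈
            mp q ^ (r + 1) ⊔ pr F :=
        Submodule.sum_mem _ fun a ha => Ideal.mul_mem_left _ _ (hmem a ha)
      have h2 : ∑ a ∈ Finset.range (r + 1), C (co a) *
          (SLead_u q 0 ^ a * SLead_u q 1 ^ (r - a) - C (e a) * w ^ r) =
          ∑ a ∈ Finset.range (r + 1), C (co a) *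
            (SLead_u q 0 ^ a * SLead_u q 1 ^ (r - a)) := by
        have h3 : ∀ a, C (co a) * (SLead_u q 0 ^ a * SLead_u q 1 ^ (r - a) - C (e a) * w ^ r) =
            C (co a) * (SLead_u q 0 ^ a * SLead_u q 1 ^ (r - a)) - C (co a * e a) * w ^ r := by
          intro a
          rw [C_mul]
          ring
        simp only [h3]
        rw [Finset.sum_sub_distrib, ← Finset.sum_mul, ← map_sum, he, C_0, zero_mul, sub_zero]
      rw [h2] at h1
      have h4 := Submodule.add_mem _ ht' h1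
      rwa [sub_add_cancel] at h4
    by_cases h1 : c1 = 0
    · have h0 : c0 ≠ 0 := hne.resolve_right (not_not.2 h1)
      -- `u 0 ≡ c u 1`
      have hcong : SLead_u q 0 - C (-(c1 / c0)) * SLead_u q 1 ∈ mp q ^ 2 ⊔ pr F := by
        have h2 := Ideal.mul_mem_left _ (C c0⁻¹) hL
        have h3 : C c0⁻¹ * (C c0 * SLead_u q 0 + C c1 * SLead_u q 1) =
            SLead_u q 0 - C (-(c1 / c0)) * SLead_u q 1 := by
          have h4 : (C c0⁻¹ * C c0 : A2 k) = 1 := by rw [← C_mul, inv_mul_cancel₀ h0, C_1]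
          have h5 : (C (-(c1 / c0)) : A2 k) = -(C c0⁻¹ * C c1) := by
            rw [← C_mul, ← C_neg, div_eq_inv_mul]
          rw [h5]
          linear_combination (SLead_u q 0) * h4
        rw [h3] at h2
        exact h2
      refine key (SLead_u q 1) (fun a => (-(c1 / c0)) ^ a) ?_ ?_
      · have h2 : ∀ a ∈ Finset.range (r + 1), co a * (c1 ^ a * (-c0) ^ (r - a)) =
            (-c0) ^ r * (co a * (-(c1 / c0)) ^ a) := by
          intro a ha
          rw [Finset.mem_range] at ha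
          have h3 : (-c0) ^ r = (-c0) ^ a * (-c0) ^ (r - a) := by
            rw [← pow_add]
            congr 1
            omega
          have h4 : c1 ^ a = (-c0) ^ a * (-(c1 / c0)) ^ a := by
            rw [← mul_pow]
            congr 1
            field_simp
          rw [h3, h4]
          ring
        rw [Finset.sum_congr rfl h2, ← Finset.mul_sum] at hlf'
        exact (mul_eq_zero.1 hlf').resolve_left (pow_ne_zero _ (neg_ne_zero.2 h0))
      · intro a ha
        rw [Finset.mem_range] at ha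
        have h2 := SLead_mono _ hu0 hu1 hcong (r - a) a
        have h3 : r - a + a = r := by omega
        rw [h3, mul_comm (SLead_u q 1 ^ (r - a))] at h2
        exact h2
    · have hcong : SLead_u q 1 - C (-(c0 / c1)) * SLead_u q 0 ∈ mp q ^ 2 ⊔ pr F := by
        have h2 := Ideal.mul_mem_left _ (C c1⁻¹) hL
        have h3 : C c1⁻¹ * (C c0 * SLead_u q 0 + C c1 * SLead_u q 1) =
            SLead_u q 1 - C (-(c0 / c1)) * SLead_u q 0 := by
          have h4 : (C c1⁻¹ * C c1 : A2 k) = 1 := by rw [← C_mul, inv_mul_cancel₀ h1, C_1]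
          have h5 : (C (-(c0 / c1)) : A2 k) = -(C c1⁻¹ * C c0) := by
            rw [← C_mul, ← C_neg, div_eq_inv_mul]
          rw [h5]
          linear_combination (SLead_u q 1) * h4
        rw [h3] at h2
        exact h2
      refine key (SLead_u q 0) (fun a => (-(c0 / c1)) ^ (r - a)) ?_ ?_
      · have h2 : ∀ a ∈ Finset.range (r + 1), co a * (c1 ^ a * (-c0) ^ (r - a)) =
            c1 ^ r * (co a * (-(c0 / c1)) ^ (r - a)) := by
          intro a ha
          rw [Finset.mem_range] at ha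
          have h3 : c1 ^ r = c1 ^ a * c1 ^ (r - a) := by
            rw [← pow_add]
            congr 1
            omega
          have h4 : (-c0) ^ (r - a) = c1 ^ (r - a) * (-(c0 / c1)) ^ (r - a) := by
            rw [← mul_pow]
            congr 1
            field_simp
          rw [h3, h4]
          ring
        rw [Finset.sum_congr rfl h2, ← Finset.mul_sum] at hlf'
        exact (mul_eq_zero.1 hlf').resolve_left (pow_ne_zero _ h1)
      · intro a ha
        rw [Finset.mem_range] at ha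
        have h2 := SLead_mono _ hu1 hu0 hcong a (r - a)
        have h3 : a + (r - a) = r := by omega
        rw [h3] at h2
        exact h2

/-- The order is additive.
PROOF. `f = f' + F u`, `g = g' + F v` with `f' ∈ mp q ^ r`, `g' ∈ mp q ^ s`. `f g - f' g' ∈ pr F`; by
`lead_iff` `lf f' ≠ 0`, `lf g' ≠ 0`, so `lf (f' g') ≠ 0` (`lf_mul`) and `f' g' ∉ mp q ^ (r + s + 1) ⊔ pr F`. -/
theorem ord_mul {q : Fin 2 → k} {F : A2 k} (hF0 : F ≠ 0) (h : mu q F = 1) {r s : ℕ} {f g : A2 k}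
    (hf : f ∈ mp q ^ r ⊔ pr F) (hf' : f ∉ mp q ^ (r + 1) ⊔ pr F)
    (hg : g ∈ mp q ^ s ⊔ pr F) (hg' : g ∉ mp q ^ (s + 1) ⊔ pr F) :
    f * g ∈ mp q ^ (r + s) ⊔ pr F ∧ f * g ∉ mp q ^ (r + s + 1) ⊔ pr F := by
  obtain ⟨f', hf1, w, hw, rfl⟩ := Submodule.mem_sup.1 hf
  obtain ⟨g', hg1, v, hv, rfl⟩ := Submodule.mem_sup.1 hg
  have e1 : f' ∉ mp q ^ (r + 1) ⊔ pr F := fun h1 =>
    hf' (Submodule.add_mem _ h1 (Submodule.mem_sup_right hw))
  have e2 : g' ∉ mp q ^ (s + 1) ⊔ pr F := fun h1 =>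
    hg' (Submodule.add_mem _ h1 (Submodule.mem_sup_right hv))
  rw [lead_iff hF0 h hf1] at e1
  rw [lead_iff hF0 h hg1] at e2
  have hm : f' * g' ∈ mp q ^ (r + s) := by
    rw [pow_add]
    exact Ideal.mul_mem_mul hf1 hg1
  have e3 : f' * g' ∉ mp q ^ (r + s + 1) ⊔ pr F := by
    rw [lead_iff hF0 h hm, lf_mul _ hf1 hg1]
    exact mul_ne_zero e1 e2
  have e4 : (f' + w) * (g' + v) = f' * g' + (f' * v + (g' + v) * w) := by ring
  have e5 : f' * v + (g' + v) * w ∈ pr F :=
    Ideal.add_mem _ (Ideal.mul_mem_left _ _ hv) (Ideal.mul_mem_left _ _ hw)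
  rw [e4]
  refine ⟨Submodule.add_mem _ (Submodule.mem_sup_left hm) (Submodule.mem_sup_right e5), ?_⟩
  intro h1
  apply e3
  have h2 := Submodule.sub_mem _ h1 (Submodule.mem_sup_right (S := mp q ^ (r + s + 1)) e5)
  rwa [add_sub_cancel_right] at h2

/-- PROOF. Induction on `a` with `ord_mul`; for `a = 0`: `1 ∉ mp q ⊔ pr F = mp q`. -/
theorem ord_pow {q : Fin 2 → k} {F : A2 k} (hF0 : F ≠ 0) (h : mu q F = 1) {r : ℕ} {f : A2 k}
    (hf : f ∈ mp q ^ r ⊔ pr F) (hf' : f ∉ mp q ^ (r + 1) ⊔ pr F) (a : ℕ) :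
    f ^ a ∈ mp q ^ (a * r) ⊔ pr F ∧ f ^ a ∉ mp q ^ (a * r + 1) ⊔ pr F := by
  induction a with
  | zero =>
    rw [pow_zero, zero_mul, zero_add, pow_zero, pow_one]
    refine ⟨Submodule.mem_sup_left (by rw [Ideal.one_eq_top]; trivial), fun h1 => ?_⟩
    have h2 : mp q ⊔ pr F ≤ mp q := by
      refine sup_le le_rfl ?_
      unfold pr
      rw [Ideal.span_singleton_le_iff_mem]
      exact (one_le_mu hF0).1 h.ge
    have h3 := mem_mp.1 (h2 h1)
    rw [map_one] at h3
    exact one_ne_zero h3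
  | succ a ih =>
    have h1 := ord_mul hF0 h ih.1 ih.2 hf hf'
    rw [pow_succ, add_mul, one_mul]
    exact h1

end Pool.MP_70e04f_ag.Strip
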