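import Pool.Agent.Lib_MP_70e04f_strip.SMu

/-!
# Piece SLEADA: leading forms. `lf q r τ f` is the value at the direction `τ` of the form of degree `r`
in the Taylor expansion of `f` at `q`.
-/

set_option autoImplicit false

namespace Pool.MP_70e04f_ag.Strip

open MvPolynomial

variable {k : Type*} [Field k]

/-- the form of degree `r` of `f` at `q`, evaluated at `τ` -/
noncomputable def lf (q : Fin 2 → k) (r : ℕ) (τ : Fin 2 → k) (f : A2 k) : k :=
  ∑ a ∈ Finset.range (r + 1), coeff (mon a (r - a)) (shift q f) * (τ 0 ^ a * τ 1 ^ (r - a))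

/-- the tangent direction of `F` at `q` -/
noncomputable def tgt (q : Fin 2 → k) (F : A2 k) : Fin 2 → k :=
  ![coeff (mon 0 1) (shift q F), - coeff (mon 1 0) (shift q F)]

theorem lf_add (q : Fin 2 → k) (r : ℕ) (τ : Fin 2 → k) (f g : A2 k) :
    lf q r τ (f + g) = lf q r τ f + lf q r τ g := by
  unfold lf
  rw [← Finset.sum_add_distrib]
  refine Finset.sum_congr rfl fun a _ => ?_
  rw [map_add, coeff_add, add_mul]

/-- PROOF. `mem_mp_pow`. -/
theorem lf_eq_zero {q : Fin 2 → k} {r : ℕ} (τ : Fin 2 → k) {f : A2 k} (h : f ∈ mp q ^ (r + 1)) :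
    lf q r τ f = 0 := by
  unfold lf
  refine Finset.sum_eq_zero fun a ha => ?_
  have h1 : a + (r - a) < r + 1 := by
    rw [Finset.mem_range] at ha
    omega
  rw [mem_mp_pow.1 h a (r - a) h1, zero_mul]

/-- the restriction to the line through the origin of direction `τ` -/
noncomputable def SLeadA_line (τ : Fin 2 → k) : A2 k →ₐ[k] Polynomial k :=
  aeval (fun i => Polynomial.C (τ i) * Polynomial.X)

theorem SLeadA_coeff (τ : Fin 2 → k) (P : A2 k) (n : ℕ) :
    (SLeadA_line τ P).coeff n =
      ∑ a ∈ Finset.range (n + 1), coeff (mon a (n - a)) P * (τ 0 ^ a * τ 1 ^ (n - a)) := by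
  induction P using MvPolynomial.induction_on' with
  | monomial s x =>
    have h2 : SLeadA_line τ (monomial s x) =
        Polynomial.C (x * (τ 0 ^ s 0 * τ 1 ^ s 1)) * Polynomial.X ^ (s 0 + s 1) := by
      unfold SLeadA_line
      rw [aeval_monomial, Finsupp.prod_fintype _ _ (fun i => pow_zero _), Fin.prod_univ_two]
      simp only [mul_pow, map_mul, map_pow, pow_add, Polynomial.algebraMap_eq]
      ring
    rw [h2, Polynomial.coeff_C_mul_X_pow]
    by_cases hn : n = s 0 + s 1
    · rw [if_pos hn, Finset.sum_eq_single (s 0)]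
      · have h3 : n - s 0 = s 1 := by omega
        rw [h3, mon_eta, coeff_monomial, if_pos rfl]
      · intro a _ ha
        rw [coeff_monomial, if_neg, zero_mul]
        intro h
        rw [h, mon_zero'] at ha
        exact ha rfl
      · intro h
        rw [Finset.mem_range] at h
        omega
    · rw [if_neg hn]
      symm
      refine Finset.sum_eq_zero fun a ha => ?_
      rw [Finset.mem_range] at ha
      rw [coeff_monomial, if_neg, zero_mul]
      intro h
      rw [h, mon_zero', mon_one'] at hn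
      omega
  | add P Q ihP ihQ =>
    rw [map_add, Polynomial.coeff_add, ihP, ihQ, ← Finset.sum_add_distrib]
    refine Finset.sum_congr rfl fun a _ => ?_
    rw [coeff_add, add_mul]

theorem SLeadA_lf (q : Fin 2 → k) (r : ℕ) (τ : Fin 2 → k) (f : A2 k) :
    lf q r τ f = (SLeadA_line τ (shift q f)).coeff r := by
  rw [SLeadA_coeff]
  rfl

theorem SLeadA_dvd {q : Fin 2 → k} {r : ℕ} (τ : Fin 2 → k) {f : A2 k} (hf : f ∈ mp q ^ r) :
    Polynomial.X ^ r ∣ SLeadA_line τ (shift q f) := by
  rw [Polynomial.X_pow_dvd_iff]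
  intro d hd
  rw [SLeadA_coeff]
  refine Finset.sum_eq_zero fun a ha => ?_
  rw [Finset.mem_range] at ha
  rw [mem_mp_pow.1 hf a (d - a) (by omega), zero_mul]

/-- PROOF. `shift q (f g) = shift q f * shift q g`; the coefficients of degree `r + s` of the product
are the convolutions of the coefficients of degree `r` and `s` (the lower ones vanish,
`mem_mp_pow`), and `τ ^ (a + a') = τ ^ a τ ^ a'`. (Or: `lf q r τ f` is the value at `τ` of the homogeneous
component of degree `r` of `shift q f`.) -/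
theorem lf_mul {q : Fin 2 → k} {r s : ℕ} (τ : Fin 2 → k) {f g : A2 k} (hf : f ∈ mp q ^ r)
    (hg : g ∈ mp q ^ s) : lf q (r + s) τ (f * g) = lf q r τ f * lf q s τ g := by
  obtain ⟨P, hP⟩ := SLeadA_dvd τ hf
  obtain ⟨Q, hQ⟩ := SLeadA_dvd τ hg
  have h0 : ∀ (n : ℕ) (R : Polynomial k), (Polynomial.X ^ n * R).coeff n = R.coeff 0 := by
    intro n R
    have h := Polynomial.coeff_X_pow_mul R n 0
    rwa [zero_add] at h
  have h1 : Polynomial.X ^ r * P * (Polynomial.X ^ s * Q) = Polynomial.X ^ (r + s) * (P * Q) := by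
    ring
  rw [SLeadA_lf, SLeadA_lf, SLeadA_lf, map_mul, map_mul, hP, hQ, h1, h0, h0, h0,
    Polynomial.mul_coeff_zero]

/-- PROOF. `λ 0 * λ 1 - λ 1 * λ 0 = 0` where `λ 0, λ 1` are the coefficients of degree one. -/
theorem lf_self (q : Fin 2 → k) (F : A2 k) : lf q 1 (tgt q F) F = 0 := by
  unfold lf tgt
  rw [Finset.sum_range_succ, Finset.sum_range_one]
  simp only [Matrix.cons_val_zero, Matrix.cons_val_one, pow_zero, pow_one, Nat.sub_zero,
    Nat.sub_self, one_mul, mul_one]
  ring

/-- Euler's formula.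
PROOF. Both sides are linear in the coefficients `c a b` of degree `r + 1` of `shift q F`, and the
coefficient of `c a b` (`a + b = r + 1`) is `- (a + b) (v 0) ^ a (v 1) ^ b` on both sides. (Split the sum of
the left side in two, shift the index in the first one.) -/
theorem lf_euler {q : Fin 2 → k} (r : ℕ) (v : Fin 2 → k) {F G : A2 k}
    (h : ∀ a b : ℕ, a + b = r → coeff (mon a b) (shift q G) =
      - (v 0 * (((a : k) + 1) * coeff (mon (a + 1) b) (shift q F))
        + v 1 * (((b : k) + 1) * coeff (mon a (b + 1)) (shift q F)))) :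
    lf q r v G = - ((r : k) + 1) * lf q (r + 1) v F := by
  have h1 : lf q r v G = - (∑ a ∈ Finset.range (r + 1), (((a + 1 : ℕ) : k) *
      coeff (mon (a + 1) (r + 1 - (a + 1))) (shift q F) *
        (v 0 ^ (a + 1) * v 1 ^ (r + 1 - (a + 1)))) +
      ∑ a ∈ Finset.range (r + 1), ((((r : k) + 1) - (a : k)) *
        coeff (mon a (r + 1 - a)) (shift q F) * (v 0 ^ a * v 1 ^ (r + 1 - a)))) := by
    unfold lf
    rw [← Finset.sum_add_distrib, ← Finset.sum_neg_distrib]
    refine Finset.sum_congr rfl fun a ha => ?_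
    have ha' : a ≤ r := by
      rw [Finset.mem_range] at ha
      omega
    obtain ⟨b, rfl⟩ := Nat.exists_eq_add_of_le ha'
    have e1 : a + b - a = b := by omega
    have e2 : a + b + 1 - (a + 1) = b := by omega
    have e3 : a + b + 1 - a = b + 1 := by omega
    rw [e1, e2, e3, h a b rfl]
    push_cast
    ring
  have h2 : ∑ a ∈ Finset.range (r + 1), (((a + 1 : ℕ) : k) *
      coeff (mon (a + 1) (r + 1 - (a + 1))) (shift q F) *
        (v 0 ^ (a + 1) * v 1 ^ (r + 1 - (a + 1)))) =
      ∑ a ∈ Finset.range (r + 2), ((a : k) *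
        coeff (mon a (r + 1 - a)) (shift q F) * (v 0 ^ a * v 1 ^ (r + 1 - a))) := by
    rw [Finset.sum_range_succ' _ (r + 1)]
    rw [Nat.cast_zero, zero_mul, zero_mul, add_zero]
  have h3 : ∑ a ∈ Finset.range (r + 1), ((((r : k) + 1) - (a : k)) *
        coeff (mon a (r + 1 - a)) (shift q F) * (v 0 ^ a * v 1 ^ (r + 1 - a))) =
      ∑ a ∈ Finset.range (r + 2), ((((r : k) + 1) - (a : k)) *
        coeff (mon a (r + 1 - a)) (shift q F) * (v 0 ^ a * v 1 ^ (r + 1 - a))) := by
    rw [Finset.sum_range_succ _ (r + 1)]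
    push_cast
    rw [sub_self, zero_mul, zero_mul, add_zero]
  rw [h1, h2, h3, ← Finset.sum_add_distrib]
  unfold lf
  rw [neg_mul, Finset.mul_sum]
  congr 1
  refine Finset.sum_congr rfl fun a _ => ?_
  ring

end Pool.MP_70e04f_ag.Strip
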