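import Pool.Agent.Lib_MP_70e04f_strip.SMu
import Pool.Agent.Lib_MP_70e04f_strip.SJet

/-!
# Piece SLEN: the number of conditions of fat points on a curve
-/

set_option autoImplicit false

namespace Pool.MP_70e04f_ag.Strip

open MvPolynomial

variable {k : Type*} [Field k] {n : ℕ} {p : Fin n → Fin 2 → k}

/-- the kernel of the multiplication by `F` modulo `Iz p β` -/
theorem slen_ker {F : A2 k} (hF : F ≠ 0) (β : Fin n → ℕ) :
    LinearMap.ker ((sp (Iz p β)).mkQ ∘ₗ LinearMap.mulLeft k F) =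
      sp (Iz p (fun i => β i - mu (p i) F)) := by
  ext g
  rw [LinearMap.mem_ker, LinearMap.comp_apply, Submodule.mkQ_apply,
    Submodule.Quotient.mk_eq_zero, LinearMap.mulLeft_apply, mem_sp, mem_sp, mem_Iz, mem_Iz]
  constructor
  · intro h i
    exact mem_of_mul_mem hF (h i)
  · intro h i
    have h1 : F ∈ mp (p i) ^ mu (p i) F := (mem_iff_le_mu hF _).2 le_rfl
    have h2 := Ideal.mul_mem_mul h1 (h i)
    rw [← pow_add] at h2
    exact Ideal.pow_le_pow_right (by omega) h2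

/-- the image of `Iz p β ⊔ pr F` modulo `Iz p β` -/
theorem slen_map {F : A2 k} (β : Fin n → ℕ) :
    (sp (Iz p β ⊔ pr F)).map (sp (Iz p β)).mkQ =
      LinearMap.range ((sp (Iz p β)).mkQ ∘ₗ LinearMap.mulLeft k F) := by
  rw [LinearMap.range_comp, sp_sup, Submodule.map_sup]
  have h1 : (sp (Iz p β)).map (sp (Iz p β)).mkQ = ⊥ := by
    rw [eq_bot_iff, Submodule.map_le_iff_le_comap, Submodule.comap_bot, Submodule.ker_mkQ]
  have h2 : sp (pr F) = LinearMap.range (LinearMap.mulLeft k F) := by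
    ext g
    rw [mem_sp, mem_pr, LinearMap.mem_range]
    constructor
    · rintro ⟨c, hc⟩
      exact ⟨c, by rw [LinearMap.mulLeft_apply, hc]⟩
    · rintro ⟨c, hc⟩
      exact ⟨c, by rw [← hc, LinearMap.mulLeft_apply]⟩
  rw [h1, h2, bot_sup_eq]

/-- the exact sequence -/
theorem slen_add (hp : Function.Injective p) {F : A2 k} (hF : F ≠ 0) (β : Fin n → ℕ) :
    len (Iz p β ⊔ pr F) + len (Iz p (fun i => β i - mu (p i) F)) = len (Iz p β) := by
  have hfin : Module.Finite k (A2 k ⧸ sp (Iz p β)) := finC_Iz hp β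
  have hle : sp (Iz p β) ≤ sp (Iz p β ⊔ pr F) := sp_mono le_sup_left
  have h1 := Submodule.finrank_quotient_add_finrank
    ((sp (Iz p β ⊔ pr F)).map (sp (Iz p β)).mkQ)
  have h2 := (Submodule.quotientQuotientEquivQuotient (sp (Iz p β)) (sp (Iz p β ⊔ pr F))
    hle).finrank_eq
  have h3 := (LinearMap.quotKerEquivRange
    ((sp (Iz p β)).mkQ ∘ₗ LinearMap.mulLeft k F)).finrank_eq
  rw [slen_ker hF, ← slen_map] at h3
  unfold len
  rw [← h2, h3, h1]

/-- PROOF. Let `γ i = β i - mu (p i) F` (truncated). Multiplication by `F` is a linear map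
`A2 k ⧸ sp (Iz p γ) → A2 k ⧸ sp (Iz p β)` (well defined since `F ∈ mp (p i) ^ mu (p i) F`), injective by
`mem_of_mul_mem`, and its range is the kernel of `A2 k ⧸ sp (Iz p β) → A2 k ⧸ sp (Iz p β ⊔ pr F)`. So
`len (Iz p β ⊔ pr F) = len (Iz p β) - len (Iz p γ)`, and by `len_Iz`
`2 len = ∑ β i (β i + 1) - γ i (γ i + 1)`. If `a = mu (p i) F ≤ β i` then
`β (β + 1) - (β - a) (β - a + 1) = 2 a β - a (a - 1)`; if `a = β + 1` both sides are `a (a - 1)`. -/
theorem len_curve (hp : Function.Injective p) {F : A2 k} (hF : F ≠ 0) (β : Fin n → ℕ)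
    (hβ : ∀ i, mu (p i) F ≤ β i + 1) :
    2 * (len (Iz p β ⊔ pr F) : ℤ) =
      ∑ i, (2 * (mu (p i) F : ℤ) * β i - (mu (p i) F : ℤ) * ((mu (p i) F : ℤ) - 1)) := by
  have h1 := slen_add hp hF β
  have h2 := len_Iz hp β
  have h3 := len_Iz hp (fun i => β i - mu (p i) F)
  have h1' : (len (Iz p β ⊔ pr F) : ℤ) = (len (Iz p β) : ℤ) -
      (len (Iz p (fun i => β i - mu (p i) F)) : ℤ) := by
    have := congrArg (fun x : ℕ => (x : ℤ)) h1
    push_cast at this
    linarith
  have h2' : 2 * (len (Iz p β) : ℤ) = ∑ i, (β i : ℤ) * ((β i : ℤ) + 1) := by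
    have := congrArg (fun x : ℕ => (x : ℤ)) h2
    push_cast at this
    exact this
  have h3' : 2 * (len (Iz p (fun i => β i - mu (p i) F)) : ℤ) =
      ∑ i, ((β i - mu (p i) F : ℕ) : ℤ) * (((β i - mu (p i) F : ℕ) : ℤ) + 1) := by
    have := congrArg (fun x : ℕ => (x : ℤ)) h3
    simp only [Nat.cast_mul, Nat.cast_sum, Nat.cast_add, Nat.cast_one, Nat.cast_ofNat] at this
    exact this
  rw [h1', mul_sub, h2', h3', ← Finset.sum_sub_distrib]
  refine Finset.sum_congr rfl fun i _ => ?_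
  have hi := hβ i
  rcases Nat.lt_or_ge (β i) (mu (p i) F) with h | h
  · have e : mu (p i) F = β i + 1 := by omega
    rw [Nat.sub_eq_zero_of_le h.le, e]
    push_cast
    ring
  · rw [Nat.cast_sub h]
    ring

end Pool.MP_70e04f_ag.Strip
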