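import Pool.Agent.Lib_MP_70e04f_ag.Mat

/-!
# Piece SMINOR: maximal minors
-/

set_option autoImplicit false

namespace Pool.MP_70e04f_ag.Strip

open MvPolynomial

/-- The determinant of a product in terms of the minors of the second factor. -/
theorem SMinor_det_mul {K J I : Type*} [Field K] [Fintype J] [Fintype I] [DecidableEq I]
    (L : Matrix I J K) (A : Matrix J I K) :
    (L * A).det = ∑ f : I → J, (∏ i, L i (f i)) * (A.submatrix f id).det := by
  have h1 : (L * A) = fun i => ∑ j : J, L i j • A j := by
    funext i k
    simp [Matrix.mul_apply, Finset.sum_apply]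
  have h2 := (Matrix.detRowAlternating (n := I) (R := K)).toMultilinearMap.map_sum
    (fun (i : I) (j : J) => L i j • A j)
  have h3 : (L * A).det = (Matrix.detRowAlternating (n := I) (R := K)).toMultilinearMap
      (fun i => ∑ j : J, L i j • A j) := by
    rw [h1]; rfl
  rw [h3, h2]
  refine Finset.sum_congr rfl fun f _ => ?_
  have h4 := (Matrix.detRowAlternating (n := I) (R := K)).toMultilinearMap.map_smul_univ
    (fun i => L i (f i)) (fun i => A (f i))
  rw [h4]
  rfl

/-- Some minor of the second factor does not vanish. -/
theorem SMinor_exists {K J I : Type*} [Field K] [Fintype J] [Fintype I] [DecidableEq I]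
    (L : Matrix I J K) (A : Matrix J I K) (h : (L * A).det ≠ 0) :
    ∃ f : I → J, (A.submatrix f id).det ≠ 0 := by
  by_contra hc
  push Not at hc
  apply h
  rw [SMinor_det_mul]
  exact Finset.sum_eq_zero fun f _ => by rw [hc f, mul_zero]

/-- A matrix of maximal rank has a maximal minor which is not zero.
PROOF. `Good.exists_left`: `L * A = 1`, so the columns of `A` are linearly independent and its rows span
`I → K`; `exists_linearIndependent'` for the family of the rows gives a basis among the rows.
`Matrix.linearIndependent_rows_iff_isUnit`. -/
theorem exists_minor_left {K J I : Type*} [Field K] [Fintype J] [Fintype I] [DecidableEq I]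
    [DecidableEq J] {A : Matrix J I K} (h : Good A) (hc : Fintype.card I ≤ Fintype.card J) :
    ∃ f : I → J, (A.submatrix f id).det ≠ 0 := by
  obtain ⟨L, hL⟩ := h.exists_left hc
  refine SMinor_exists L A ?_
  rw [hL, Matrix.det_one]
  exact one_ne_zero

/-- PROOF. The same for the columns (or transpose). -/
theorem exists_minor_right {K J I : Type*} [Field K] [Fintype J] [Fintype I] [DecidableEq I]
    [DecidableEq J] {A : Matrix J I K} (h : Good A) (hc : Fintype.card J ≤ Fintype.card I) :
    ∃ f : J → I, (A.submatrix id f).det ≠ 0 := by
  obtain ⟨R, hR⟩ := h.exists_right hc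
  obtain ⟨f, hf⟩ := SMinor_exists R.transpose A.transpose (by
    rw [← Matrix.transpose_mul, hR, Matrix.det_transpose, Matrix.det_one]
    exact one_ne_zero)
  refine ⟨f, ?_⟩
  rw [← Matrix.det_transpose]
  exact hf

/-- PROOF. Let `k` be the rank condition: if the minor with rows `f` is not zero then the kernel of `A` is
zero. (`good_of_left` with `L = (Matrix.submatrix 1 f id)`: `L * A = A.submatrix f id`.) -/
theorem good_of_minor_left {K J I : Type*} [Field K] [Fintype J] [Fintype I] [DecidableEq I]
    [DecidableEq J] {A : Matrix J I K} (f : I → J) (h : (A.submatrix f id).det ≠ 0) : Good A := by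
  refine good_of_left ((1 : Matrix J J K).submatrix f id) A ?_
  have : (1 : Matrix J J K).submatrix f id * A = A.submatrix f id := by
    ext i j
    simp [Matrix.mul_apply, Matrix.one_apply]
  rw [this]
  exact h

theorem good_of_minor_right {K J I : Type*} [Field K] [Fintype J] [Fintype I] [DecidableEq I]
    [DecidableEq J] {A : Matrix J I K} (f : J → I) (h : (A.submatrix id f).det ≠ 0) : Good A := by
  refine good_of_right ((1 : Matrix I I K).submatrix id f) A ?_
  have : A * (1 : Matrix I I K).submatrix id f = A.submatrix id f := by
    ext i j
    simp [Matrix.mul_apply, Matrix.one_apply]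
  rw [this]
  exact h

end Pool.MP_70e04f_ag.Strip
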