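import Pool.Agent.Lib_MP_70e04f_strip.SDefs

/-!
# Piece SMU: multiplicities

Everything follows from the Taylor coefficients (`mem_mp_pow`): `F ∈ mp q ^ a` iff all coefficients
of degree `< a` of `shift q F` vanish.  `shift q` is an automorphism (`shift_shift_neg`) and does not
raise the total degree.
-/

set_option autoImplicit false

namespace Pool.MP_70e04f_ag.Strip

open MvPolynomial

variable {k : Type*} [Field k]

/-- the order of the Taylor series -/
noncomputable def SMu_o (q : Fin 2 → k) (F : A2 k) : ℕ∞ :=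
  MvPowerSeries.order ((shift q F : A2 k) : MvPowerSeries (Fin 2) k)

theorem SMu_mem_iff {q : Fin 2 → k} {F : A2 k} {a : ℕ} :
    F ∈ mp q ^ a ↔ (a : ℕ∞) ≤ SMu_o q F := by
  unfold SMu_o
  rw [mem_mp_pow]
  constructor
  · intro h
    apply MvPowerSeries.nat_le_order
    intro s hs
    rw [MvPolynomial.coeff_coe, ← mon_eta s]
    apply h
    rw [← mon_eta s, degree_mon] at hs
    exact hs
  · intro h b c hbc
    rw [← MvPolynomial.coeff_coe]
    apply MvPowerSeries.coeff_of_lt_order
    rw [degree_mon]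
    exact lt_of_lt_of_le (by exact_mod_cast hbc) h

theorem SMu_shift_ne {q : Fin 2 → k} {F : A2 k} (hF : F ≠ 0) : shift q F ≠ 0 := by
  intro h
  apply hF
  rw [← shift_shift_neg q F, h, map_zero]

theorem SMu_deg_shift {q : Fin 2 → k} (F : A2 k) :
    (shift q F).totalDegree ≤ F.totalDegree := by
  unfold shift
  rw [MvPolynomial.aeval_def, MvPolynomial.eval₂_eq]
  refine (totalDegree_finset_sum _ _).trans ?_
  apply Finset.sup_le
  intro s hs
  refine (totalDegree_mul _ _).trans ?_
  have h1 : (algebraMap k (A2 k) (coeff s F)).totalDegree = 0 := by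
    rw [MvPolynomial.algebraMap_eq, totalDegree_C]
  rw [h1, zero_add]
  refine (totalDegree_finset_prod _ _).trans ?_
  refine le_trans (Finset.sum_le_sum (g := fun i => s i) ?_) ?_
  · intro i _
    refine (totalDegree_pow _ _).trans ?_
    have : (X i + C (q i) : A2 k).totalDegree ≤ 1 := by
      refine (totalDegree_add _ _).trans ?_
      rw [totalDegree_C]
      simp [totalDegree_X]
    calc s i * (X i + C (q i) : A2 k).totalDegree ≤ s i * 1 := Nat.mul_le_mul_left _ this
      _ = s i := mul_one _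
  · exact le_totalDegree hs

/-- the powers of `mp q` which contain `F ≠ 0` are bounded by the degree. -/
theorem le_deg_of_mem {q : Fin 2 → k} {F : A2 k} (hF : F ≠ 0) {a : ℕ} (h : F ∈ mp q ^ a) :
    a ≤ F.totalDegree := by
  by_contra hcon
  push Not at hcon
  apply SMu_shift_ne (q := q) hF
  ext s
  rw [coeff_zero]
  by_cases hs : s.degree < a
  · rw [mem_mp_pow] at h
    rw [← mon_eta s, degree_mon] at hs
    rw [← mon_eta s]
    exact h _ _ hs
  · apply coeff_eq_zero_of_totalDegree_lt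
    refine lt_of_le_of_lt (SMu_deg_shift F) (hcon.trans_le ?_)
    push Not at hs
    exact hs

/-- PROOF. `mu q F` is the supremum of a nonempty (`a = 0`) set, bounded by `le_deg_of_mem`, which is
closed downwards (`Ideal.pow_le_pow_right`); `Nat.sSup_mem`. -/
theorem mem_iff_le_mu {q : Fin 2 → k} {F : A2 k} (hF : F ≠ 0) (a : ℕ) :
    F ∈ mp q ^ a ↔ a ≤ mu q F := by
  have hb : BddAbove {a | F ∈ mp q ^ a} := ⟨F.totalDegree, fun a ha => le_deg_of_mem hF ha⟩
  constructor
  · intro h
    exact le_csSup hb h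
  · intro h
    have h1 : mu q F ∈ {a | F ∈ mp q ^ a} := Nat.sSup_mem ⟨0, by simp⟩ hb
    exact Ideal.pow_le_pow_right h h1

theorem mu_le_deg {q : Fin 2 → k} {F : A2 k} (hF : F ≠ 0) : mu q F ≤ F.totalDegree :=
  le_deg_of_mem hF ((mem_iff_le_mu hF _).2 le_rfl)

theorem SMu_o_eq {q : Fin 2 → k} {F : A2 k} (hF : F ≠ 0) : SMu_o q F = (mu q F : ℕ∞) := by
  apply le_antisymm
  · by_contra hcon
    push Not at hcon
    have h1 : ((mu q F + 1 : ℕ) : ℕ∞) ≤ SMu_o q F := by
      push_cast
      exact Order.add_one_le_of_lt hcon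
    have h2 := (mem_iff_le_mu hF _).1 (SMu_mem_iff.2 h1)
    omega
  · exact SMu_mem_iff.1 ((mem_iff_le_mu hF _).2 le_rfl)

theorem mu_mul {q : Fin 2 → k} {F G : A2 k} (hF : F ≠ 0) (hG : G ≠ 0) :
    mu q (F * G) = mu q F + mu q G := by
  have h : SMu_o q (F * G) = SMu_o q F + SMu_o q G := by
    unfold SMu_o
    rw [map_mul, MvPolynomial.coe_mul, MvPowerSeries.order_mul]
  rw [SMu_o_eq hF, SMu_o_eq hG, SMu_o_eq (mul_ne_zero hF hG)] at h
  exact_mod_cast h

/-- PROOF. trivial for `g = 0`; otherwise `mem_iff_le_mu` and `mu_mul`. -/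
theorem mem_of_mul_mem {q : Fin 2 → k} {F g : A2 k} (hF : F ≠ 0) {b : ℕ}
    (h : F * g ∈ mp q ^ b) : g ∈ mp q ^ (b - mu q F) := by
  by_cases hg : g = 0
  · rw [hg]; exact Ideal.zero_mem _
  rw [mem_iff_le_mu (mul_ne_zero hF hg), mu_mul hF hg] at h
  rw [mem_iff_le_mu hg]
  omega

theorem one_le_mu {q : Fin 2 → k} {F : A2 k} (hF : F ≠ 0) : 1 ≤ mu q F ↔ F ∈ mp q := by
  rw [← mem_iff_le_mu hF, pow_one]

/-- a nonzero constant has multiplicity zero -/
theorem mu_C {q : Fin 2 → k} {c : k} (hc : c ≠ 0) : mu q (C c : A2 k) = 0 := by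
  have h := mu_le_deg (q := q) (F := (C c : A2 k)) (by rwa [Ne, C_eq_zero])
  rw [totalDegree_C] at h
  omega

/-- some coefficient of degree `mu q F` of `shift q F` is not zero -/
theorem exists_coeff_ne {q : Fin 2 → k} {F : A2 k} (hF : F ≠ 0) :
    ∃ a b : ℕ, a + b = mu q F ∧ coeff (mon a b) (shift q F) ≠ 0 := by
  by_contra hcon
  push Not at hcon
  have h : F ∈ mp q ^ (mu q F + 1) := by
    rw [mem_mp_pow]
    intro a b hab
    rcases Nat.lt_or_ge (a + b) (mu q F) with h1 | h1
    · exact mem_mp_pow.1 ((mem_iff_le_mu hF _).2 le_rfl) a b h1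
    · exact hcon a b (by omega)
  have := (mem_iff_le_mu hF _).1 h
  omega

end Pool.MP_70e04f_ag.Strip
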