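import Pool.Agent.Lib_MP_70e04f_strip.SDer
import Pool.Agent.Lib_MP_70e04f_strip.SGon

/-!
# Piece SNINE: curves through nine generic points
-/

set_option autoImplicit false

namespace Pool.MP_70e04f_ag.Strip

open MvPolynomial

/-- Higher contact with `Γ` at `gp j`.
PROOF. `F = g + Γ h` with `g ∈ mp (gp j) ^ (mu (gp j) F + 1)`. By `crt` there is `h'` with
`h' - h ∈ mp (gp j) ^ (mu (gp j) F + 1)` and `h' ∈ mp (gp i) ^ mu (gp i) F` for `i ≠ j`. Then
`F - Γ h' ∈ Iz (gp) β` for `β j = mu (gp j) F + 1` and `β i = mu (gp i) F` (`i ≠ j`). -/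
theorem contact {n ℓ : ℕ} [Fact ℓ.Prime] {F Γ : A2 (KK n ℓ)} (hF : F ≠ 0) (j : Fin n)
    (h : F ∈ mp (gp n ℓ j) ^ (mu (gp n ℓ j) F + 1) ⊔ pr Γ) :
    F ∈ Iz (gp n ℓ) (fun i => if i = j then mu (gp n ℓ j) F + 1 else mu (gp n ℓ i) F) ⊔ pr Γ := by
  obtain ⟨g, hg, y, hy, e⟩ := Submodule.mem_sup.1 h
  rw [mem_pr] at hy
  obtain ⟨h₀, rfl⟩ := hy
  obtain ⟨h', hh'⟩ := crt (gp_inj n ℓ)
    (fun i => if i = j then mu (gp n ℓ j) F + 1 else mu (gp n ℓ i) F)
    (fun i => if i = j then h₀ else 0)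
  have hmem : F - Γ * h' ∈ Iz (gp n ℓ)
      (fun i => if i = j then mu (gp n ℓ j) F + 1 else mu (gp n ℓ i) F) := by
    rw [mem_Iz]
    intro i
    have h1 := hh' i
    by_cases hij : i = j
    · subst hij
      simp only [if_true] at h1 ⊢
      have h2 : F - Γ * h' = g - Γ * (h' - h₀) := by
        rw [← e]
        ring
      rw [h2]
      exact Ideal.sub_mem _ hg (Ideal.mul_mem_left _ _ h1)
    · simp only [if_neg hij, sub_zero] at h1 ⊢
      exact Ideal.sub_mem _ ((mem_iff_le_mu hF _).2 le_rfl) (Ideal.mul_mem_left _ _ h1)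
  have h3 := Submodule.add_mem_sup hmem (mem_pr.2 (dvd_mul_right Γ h') : Γ * h' ∈ pr Γ)
  rwa [sub_add_cancel] at h3

private theorem SNine_sum {n m : ℕ} (α : Fin m → Fin n) (hα : Function.Injective α)
    (μ β : Fin n → ℕ) (h1 : ∀ s, μ (α s) = 1) (h0 : ∀ i, i ∉ Set.range α → μ i = 0) :
    ∑ i, μ i * β i = ∑ s, β (α s) := by
  classical
  have h2 : ∑ i, μ i * β i = ∑ i ∈ Finset.univ.image α, μ i * β i := by
    symm
    apply Finset.sum_subset (Finset.subset_univ _)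
    intro i _ hi
    rw [h0 i, zero_mul]
    rintro ⟨s, rfl⟩
    exact hi (Finset.mem_image_of_mem _ (Finset.mem_univ s))
  rw [h2, Finset.sum_image (fun a _ b _ h => hα h)]
  apply Finset.sum_congr rfl
  intro s _
  rw [h1, one_mul]

private theorem SNine_deg_pos {k : Type*} [Field k] {F : A2 k} (hF : Irreducible F) :
    1 ≤ F.totalDegree := by
  by_contra h
  have h0 : F.totalDegree = 0 := by omega
  rw [totalDegree_eq_zero_iff_eq_C] at h0
  have hc : coeff 0 F ≠ 0 := by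
    intro hc
    rw [hc, C_0] at h0
    exact hF.ne_zero h0
  apply hF.not_isUnit
  rw [h0]
  exact (IsUnit.mk0 _ hc).map C

/-- PROOF. Let `e = deg F`, `μ i = mu (gp i) F`, `q s = gp (α s)`. `mulbez` for the irreducible curve `Γ`, the
polynomial `F` and `β = μ` gives `∑ s, μ (α s) ≤ 3 e` (the sum over all `i` has only the nine terms
`i = α s` by `h1`, `h0`). Suppose that equality holds. `e ≥ 1`, so `μ (α s) ≥ 1` for some `s`; let `j = α s`,
`r = μ j`, `q = gp j` (then `mu q Γ = 1`). If `F ∈ mp q ^ (r + 1) ⊔ pr Γ` then `contact` and `mulbez` give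
`∑ s, μ (α s) + 1 ≤ 3 e`: contradiction. So `lf q r τ F ≠ 0`, `τ = tgt q Γ`, by `lead_iff`. Let `G` be as in
`der` for `F`, `j`, `v = τ`. By `lf_euler` (degree `r - 1`) `lf q (r - 1) τ G = - r * lf q r τ F ≠ 0`
(`cast_ne_zero_KK`, `r ≤ e < ℓ`), so by `lead_iff` (`G ∈ mp q ^ (r - 1)` by `der_mem`)
`G ∉ mp q ^ r ⊔ pr Γ`. Apply `gon` to the curve `Γ`, `t = e`, `β i = μ i` (`i ≠ j`), `β j = r - 1`
(`dotp = 3 e - (3 e - 1) = 1`), `u = F`, `w = G`, and `r`: `F ∈ mp q ^ r`, `¬ Γ ∣ F`. It gives `3 * 0 < 0`,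
since all `mu (gp i) Γ` are `0` or `1`. -/
theorem nine {n ℓ : ℕ} [Fact ℓ.Prime] (α : Fin 9 → Fin n) (hα : Function.Injective α)
    {Γ : A2 (KK n ℓ)} (hΓ : Irreducible Γ) (hd : Γ.totalDegree = 3)
    (h1 : ∀ s, mu (gp n ℓ (α s)) Γ = 1) (h0 : ∀ i, i ∉ Set.range α → mu (gp n ℓ i) Γ = 0)
    {F : A2 (KK n ℓ)} (hF : Irreducible F) (hdeg : F.totalDegree < ℓ) (hFΓ : ¬ Γ ∣ F) :
    ∑ s, mu (gp n ℓ (α s)) F + 1 ≤ 3 * F.totalDegree := by
  classical
  have hF0 := hF.ne_zero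
  have hΓ0 := hΓ.ne_zero
  set e := F.totalDegree with he
  have hmulb : ∀ β : Fin n → ℕ, F ∈ Iz (gp n ℓ) β ⊔ pr Γ → ∑ s, β (α s) ≤ 3 * e := by
    intro β hβ
    have h2 := mulbez (gp_inj n ℓ) hΓ hFΓ β hβ
    rw [SNine_sum α hα (fun i => mu (gp n ℓ i) Γ) β h1 h0, hd] at h2
    exact h2
  have hFI : F ∈ Iz (gp n ℓ) (fun i => mu (gp n ℓ i) F) :=
    mem_Iz.2 fun i => (mem_iff_le_mu hF0 _).2 le_rfl
  have hA := hmulb _ (Ideal.mem_sup_left hFI)
  by_contra hcon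
  have hEq : ∑ s, mu (gp n ℓ (α s)) F = 3 * e := by omega
  have he1 : 1 ≤ e := SNine_deg_pos hF
  have hex : ∃ s, 1 ≤ mu (gp n ℓ (α s)) F := by
    by_contra hno
    push Not at hno
    have : ∑ s, mu (gp n ℓ (α s)) F = 0 := Finset.sum_eq_zero fun s _ => by
      have := hno s
      omega
    omega
  obtain ⟨s₀, hs₀⟩ := hex
  set j := α s₀ with hj
  set q := gp n ℓ j with hq
  have hqΓ : mu q Γ = 1 := h1 s₀
  have hFq : F ∈ mp q ^ mu q F := (mem_iff_le_mu hF0 _).2 le_rfl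
  have hnot : F ∉ mp q ^ (mu q F + 1) ⊔ pr Γ := by
    intro hmem
    have h2 := hmulb _ (contact hF0 j hmem)
    have h3 : ∑ s, (if α s = j then mu (gp n ℓ j) F + 1 else mu (gp n ℓ (α s)) F) =
        ∑ s, mu (gp n ℓ (α s)) F + 1 := by
      have h4 : ∀ s, (if α s = j then mu (gp n ℓ j) F + 1 else mu (gp n ℓ (α s)) F) =
          mu (gp n ℓ (α s)) F + if s = s₀ then 1 else 0 := by
        intro s
        by_cases hs : s = s₀
        · subst hs
          simp [hj]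
        · have : α s ≠ j := fun h => hs (hα (h.trans hj))
          rw [if_neg this, if_neg hs, add_zero]
      rw [Finset.sum_congr rfl fun s _ => h4 s, Finset.sum_add_distrib]
      simp
    rw [h3] at h2
    omega
  obtain ⟨r, hr⟩ : ∃ r, mu q F = r + 1 := ⟨mu q F - 1, by omega⟩
  have hlf : lf q (r + 1) (tgt q Γ) F ≠ 0 := by
    intro h2
    apply hnot
    rw [hr]
    rw [hr] at hFq
    exact (lead_iff hΓ0 hqΓ hFq).2 h2
  obtain ⟨G, hGd, hGi, hGc⟩ := der hF0 j (tgt q Γ)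
  have hGq : G ∈ mp q ^ r := by
    have := der_mem hF0 j (tgt q Γ) hGc
    rw [← hq, hr, Nat.add_sub_cancel] at this
    exact this
  have heuler : lf q r (tgt q Γ) G = - (((r : KK n ℓ)) + 1) * lf q (r + 1) (tgt q Γ) F :=
    lf_euler r (tgt q Γ) fun a b hab => hGc a b (by rw [← hq, hr]; omega)
  have hrℓ : ((r : KK n ℓ)) + 1 ≠ 0 := by
    have h2 : r + 1 ≤ e := by
      rw [← hr]
      exact mu_le_deg hF0
    have := cast_ne_zero_KK (n := n) (ℓ := ℓ) (a := r + 1) (by omega) (by omega)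
    push_cast at this
    exact this
  have hGnot : G ∉ mp q ^ (r + 1) ⊔ pr Γ := by
    intro h2
    have h3 := (lead_iff hΓ0 hqΓ hGq).1 h2
    rw [heuler] at h3
    exact mul_ne_zero (neg_ne_zero.2 hrℓ) hlf h3
  have hn : 0 < n := lt_of_le_of_lt (Nat.zero_le _) j.2
  have := infinite_KK ℓ hn
  have hμ01 : ∀ i, mu (gp n ℓ i) Γ = 0 ∨ mu (gp n ℓ i) Γ = 1 := by
    intro i
    by_cases hi : i ∈ Set.range α
    · obtain ⟨s, rfl⟩ := hi
      exact Or.inr (h1 s)
    · exact Or.inl (h0 i hi)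
  set β : Fin n → ℕ := fun i => if i = j then r else mu (gp n ℓ i) F with hβ
  have hβsum : ∑ s, β (α s) + 1 = 3 * e := by
    rw [← hEq]
    have h4 : ∀ s, mu (gp n ℓ (α s)) F = β (α s) + if s = s₀ then 1 else 0 := by
      intro s
      rw [hβ]
      simp only
      by_cases hs : s = s₀
      · subst hs
        rw [if_pos hj.symm, if_pos rfl]
        exact hr
      · have : α s ≠ j := fun h => hs (hα (h.trans hj))
        rw [if_neg this, if_neg hs, add_zero]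
    rw [Finset.sum_congr rfl fun s _ => h4 s, Finset.sum_add_distrib]
    simp
  have hsumβ : ∑ i, mu (gp n ℓ i) Γ * β i = ∑ s, β (α s) :=
    SNine_sum α hα (fun i => mu (gp n ℓ i) Γ) β h1 h0
  have hdot : dotp e β (gp n ℓ) Γ = 1 := by
    unfold dotp
    rw [hd]
    have h5 : ∑ i, (β i : ℤ) * (mu (gp n ℓ i) Γ : ℤ) = ((∑ i, mu (gp n ℓ i) Γ * β i : ℕ) : ℤ) := by
      push_cast
      exact Finset.sum_congr rfl fun i _ => mul_comm _ _
    rw [h5, hsumβ]
    have h6 : ((∑ s, β (α s) : ℕ) : ℤ) + 1 = 3 * (e : ℤ) := by exact_mod_cast hβsum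
    push_cast at h6 ⊢
    linarith
  have hg := gon (gp_inj n ℓ) hΓ e β (fun i => by rcases hμ01 i with h | h <;> omega) hdot
    (u := F) (w := G) (mem_Pt.2 le_rfl) (mem_Pt.2 hGd)
    (Iz_mono (fun i => by
      rw [hβ]
      simp only
      split_ifs with hi
      · rw [hi, ← hq, hr]
        exact Nat.le_succ r
      · exact le_rfl) hFI)
    (mem_Iz.2 fun i => by
      rw [hβ]
      simp only
      split_ifs with hi
      · rw [hi]
        exact hGq
      · exact hGi i hi) hFΓ hqΓ (r := r + 1)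
    (Ideal.mem_sup_left (by rw [← hr]; exact hFq)) hGnot
  rw [hd] at hg
  have hz : ∑ i, (mu (gp n ℓ i) Γ : ℤ) * ((mu (gp n ℓ i) Γ : ℤ) - 1) = 0 := by
    apply Finset.sum_eq_zero
    intro i _
    rcases hμ01 i with h | h <;> rw [h] <;> simp
  rw [hz] at hg
  norm_num at hg

end Pool.MP_70e04f_ag.Strip
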