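import Pool.Agent.Lib_MP_70e04f_strip.SNumA

/-!
# Piece SNUM: numerical positivity
-/

set_option autoImplicit false

namespace Pool.MP_70e04f_ag.Strip

theorem SNum_cauchy {n : ℕ} (M b : Fin n → ℕ) (X y : ℕ) :
    (∑ i, M i * b i + X * y) ^ 2 ≤ (∑ i, M i ^ 2 + X ^ 2) * (∑ i, b i ^ 2 + y ^ 2) := by
  have h := Finset.sum_mul_sq_le_sq_mul_sq (Finset.univ : Finset (Fin (n + 1)))
    (Fin.cons X M : Fin (n + 1) → ℕ) (Fin.cons y b : Fin (n + 1) → ℕ)
  rw [Fin.sum_univ_succ, Fin.sum_univ_succ, Fin.sum_univ_succ] at h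
  simp only [Fin.cons_zero, Fin.cons_succ] at h
  rw [add_comm (∑ i, M i * b i), add_comm (∑ i, M i ^ 2), add_comm (∑ i, b i ^ 2)]
  exact h

theorem SNum_update {n : ℕ} (g : Fin n → ℕ → ℕ) (a : Fin n → ℕ) (i : Fin n) (c : ℕ) :
    ∑ j, g j (Function.update a i c j) + g i (a i) = ∑ j, g j (a j) + g i c := by
  have h1 := Finset.add_sum_erase Finset.univ (fun j => g j (Function.update a i c j))
    (Finset.mem_univ i)
  have h2 := Finset.add_sum_erase Finset.univ (fun j => g j (a j)) (Finset.mem_univ i)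
  have h3 : ∑ j ∈ Finset.univ.erase i, g j (Function.update a i c j)
      = ∑ j ∈ Finset.univ.erase i, g j (a j) := by
    refine Finset.sum_congr rfl fun j hj => ?_
    rw [Function.update_of_ne (Finset.ne_of_mem_erase hj)]
  simp only [Function.update_self] at h1
  rw [h3] at h1
  omega

theorem SNum_split {n : ℕ} (α : Fin 9 → Fin n) (hα : Function.Injective α) (f : Fin n → ℕ) :
    ∑ i, f i = ∑ s, f (α s) + ∑ i ∈ (Finset.univ.map ⟨α, hα⟩)ᶜ, f i := by
  rw [← Finset.sum_add_sum_compl (Finset.univ.map ⟨α, hα⟩) f, Finset.sum_map]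
  rfl

theorem SNum_parity {n : ℕ} (a : Fin n → ℕ) : (∑ i, a i ^ 2) % 2 = (∑ i, a i) % 2 := by
  rw [Finset.sum_nat_mod, Finset.sum_nat_mod Finset.univ 2 a]
  congr 1
  refine Finset.sum_congr rfl fun i _ => ?_
  rcases Nat.mod_two_eq_zero_or_one (a i) with h | h
  · rw [Nat.pow_mod, h]
  · rw [Nat.pow_mod, h]

/-- PROOF. (1) Suppose that `a i ≥ 2` for some `i ∉ range α`. Let `a' = a` except `a' i = a i - 1`. By
`hxu i`, `∑ a' ^ 2 + 1 = ∑ a ^ 2 - 2 a i + 2 ≤ e ^ 2 - a i + 2 ≤ e ^ 2`. By Cauchy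
`(∑ M a' + X * 1) ^ 2 ≤ (∑ M ^ 2 + X ^ 2) (∑ a' ^ 2 + 1) < D ^ 2 e ^ 2`, so `∑ M a' + X < D e` and
`∑ M a = ∑ M a' + M i ≤ ∑ M a' + X < D e`.
(2) Now `a i ≤ 1` outside `range α`; let `s` be the number of `i ∉ range α` with `a i = 1`, and
`T = ∑ a (α s)`. By `abel_nine` `∑ M a ≤ D e - M (α 8) (3 e - T) + X s`. If `s = 0` we are done (`hnine`). If
`s ≥ 1` then `∑ a ^ 2 ≤ e ^ 2 + 1` by `hxu`. If `∑ a ^ 2 ≤ e ^ 2`: Cauchy,
`(∑ M a) ^ 2 ≤ ∑ M ^ 2 ∑ a ^ 2 < D ^ 2 e ^ 2`. Otherwise `∑ a ^ 2 = e ^ 2 + 1`, `∑ a = T + s`. If `s ≥ 2`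
then `hts` gives `T + s + 1 ≤ 3 e` and `M (α 8) (3 e - T) ≥ X (s + 1) > X s`. If `s = 1` then
`e ^ 2 + 1 = ∑ a ^ 2 ≡ ∑ a = T + 1` modulo 2, so `3 e - T` is even and `≥ 1`, so `≥ 2`, and
`M (α 8) (3 e - T) ≥ 2 X > X`. -/
theorem num {n : ℕ} (e D X : ℕ) (a M : Fin n → ℕ) (α : Fin 9 → Fin n)
    (hα : Function.Injective α) (he : 1 ≤ e) (hae : ∀ i, a i ≤ e)
    (hxu : ∀ j, 1 ≤ a j → ∑ i, a i ^ 2 ≤ e ^ 2 + a j)
    (hnine : ∑ s, a (α s) + 1 ≤ 3 * e)
    (hts : ∀ i j, i ≠ j → a i = 1 → a j = 1 → ∑ s, a s ^ 2 = e ^ 2 + 1 → ∑ s, a s + 1 ≤ 3 * e)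
    (hanti : Antitone (fun s => M (α s))) (hX : 1 ≤ X) (hX8 : X ≤ M (α 8))
    (hother : ∀ i, i ∉ Set.range α → M i ≤ X) (hstd : M (α 0) + M (α 1) + M (α 2) ≤ D)
    (hsq : ∑ i, M i ^ 2 + X ^ 2 < D ^ 2) :
    ∑ i, M i * a i < D * e := by
  have he2 : 0 < e ^ 2 := by positivity
  by_cases hcase : ∃ i, i ∉ Set.range α ∧ 2 ≤ a i
  · obtain ⟨i, hi, hai⟩ := hcase
    obtain ⟨t, ht⟩ : ∃ t, a i = t + 2 := ⟨a i - 2, by omega⟩
    have h1 := SNum_update (fun _ x => x ^ 2) a i (t + 1)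
    have h2 := SNum_update (fun j x => M j * x) a i (t + 1)
    simp only [ht] at h1 h2
    have h3 := hxu i (by omega)
    rw [ht] at h3
    have h4 : ∑ j, (Function.update a i (t + 1) j) ^ 2 + 1 ^ 2 ≤ e ^ 2 := by nlinarith
    have h5 := SNum_cauchy M (Function.update a i (t + 1)) X 1
    have h6 : ∑ j, M j * a j ≤ ∑ j, M j * Function.update a i (t + 1) j + X * 1 := by
      have := hother i hi
      nlinarith
    refine lt_of_le_of_lt h6 ?_
    have h7 : (∑ j, M j * Function.update a i (t + 1) j + X * 1) ^ 2 < (D * e) ^ 2 := by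
      calc _ ≤ _ := h5
        _ ≤ (∑ i, M i ^ 2 + X ^ 2) * e ^ 2 := Nat.mul_le_mul le_rfl h4
        _ < D ^ 2 * e ^ 2 := Nat.mul_lt_mul_of_pos_right hsq he2
        _ = (D * e) ^ 2 := (mul_pow D e 2).symm
    exact lt_of_pow_lt_pow_left₀ 2 (Nat.zero_le _) h7
  · push Not at hcase
    set O := (Finset.univ.map ⟨α, hα⟩)ᶜ with hO
    have memO : ∀ i, i ∈ O → i ∉ Set.range α := by
      rintro i hi ⟨s, hs⟩
      rw [hO, Finset.mem_compl] at hi
      exact hi (Finset.mem_map.2 ⟨s, Finset.mem_univ s, hs⟩)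
    have ha1 : ∀ i ∈ O, a i ≤ 1 := fun i hi => by
      have := hcase i (memO i hi)
      omega
    have hsa := SNum_split α hα a
    have hsM := SNum_split α hα (fun i => M i * a i)
    rw [← hO] at hsa hsM
    have hOM : ∑ i ∈ O, M i * a i ≤ X * ∑ i ∈ O, a i := by
      rw [Finset.mul_sum]
      exact Finset.sum_le_sum fun i hi => Nat.mul_le_mul (hother i (memO i hi)) le_rfl
    have hab := abel_nine (e : ℤ) (D : ℤ) (fun s => (a (α s) : ℤ)) (fun s => (M (α s) : ℤ))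
      (fun s => Int.natCast_nonneg _) (fun s => by exact_mod_cast hae (α s))
      (by have : ∑ s, a (α s) ≤ 3 * e := by omega
          exact_mod_cast this)
      (fun s t hst => Int.ofNat_le.2 (hanti hst)) (by exact_mod_cast hstd)
    obtain ⟨T, hT⟩ : ∃ T, T = ∑ s, a (α s) := ⟨_, rfl⟩
    obtain ⟨S, hS⟩ : ∃ S, S = ∑ i ∈ O, a i := ⟨_, rfl⟩
    obtain ⟨P, hP⟩ : ∃ P, P = ∑ s, M (α s) * a (α s) := ⟨_, rfl⟩
    obtain ⟨Q, hQ⟩ : ∃ Q, Q = ∑ i ∈ O, M i * a i := ⟨_, rfl⟩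
    have hab' : (P : ℤ) + (M (α 8) : ℤ) * (3 * e - T) ≤ D * e := by
      rw [hP, hT]
      push_cast
      exact hab
    rw [hsM, ← hP, ← hQ]
    rw [← hQ, ← hS] at hOM
    rw [← hT, ← hS] at hsa
    rw [← hT] at hnine
    have hsum_eq := hsM
    have key : ∀ w : ℕ, (w : ℤ) ≤ 3 * e - T → X * S < M (α 8) * w → P + Q < D * e := by
      intro w hw hlt
      have h1 : (M (α 8) : ℤ) * w ≤ (M (α 8) : ℤ) * (3 * e - T) :=
        mul_le_mul_of_nonneg_left hw (Int.natCast_nonneg _)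
      have h2 : ((X * S : ℕ) : ℤ) < ((M (α 8) * w : ℕ) : ℤ) := by exact_mod_cast hlt
      have h3 : (Q : ℤ) ≤ ((X * S : ℕ) : ℤ) := by exact_mod_cast hOM
      push_cast at h2 h3
      have h4 : (P : ℤ) + Q < D * e := by linarith
      exact_mod_cast h4
    by_cases hS0 : S = 0
    · refine key 1 (by push_cast; omega) ?_
      rw [hS0]
      omega
    · -- an index outside with value one
      obtain ⟨j, hj, hj0⟩ : ∃ j ∈ O, a j ≠ 0 := by
        by_contra hno
        push Not at hno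
        exact hS0 (hS.trans (Finset.sum_eq_zero hno))
      have hj1 : a j = 1 := by have := ha1 j hj; omega
      have h1 := hxu j (by omega)
      rw [hj1] at h1
      by_cases hle : ∑ i, a i ^ 2 ≤ e ^ 2
      · have h5 := SNum_cauchy M a 0 0
        have h7 : (∑ i, M i * a i) ^ 2 < (D * e) ^ 2 := by
          calc (∑ i, M i * a i) ^ 2 ≤ (∑ i, M i ^ 2) * (∑ i, a i ^ 2) := by
                simpa using h5
            _ ≤ (∑ i, M i ^ 2) * e ^ 2 := Nat.mul_le_mul le_rfl hle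
            _ < D ^ 2 * e ^ 2 := Nat.mul_lt_mul_of_pos_right (by omega) he2
            _ = (D * e) ^ 2 := (mul_pow D e 2).symm
        have h8 := lt_of_pow_lt_pow_left₀ 2 (Nat.zero_le _) h7
        rw [hsM, ← hP, ← hQ] at h8
        exact h8
      · have heq : ∑ i, a i ^ 2 = e ^ 2 + 1 := by omega
        by_cases hS2 : 2 ≤ S
        · obtain ⟨i, hi, hij, hi0⟩ : ∃ i ∈ O, i ≠ j ∧ a i ≠ 0 := by
            by_contra hno
            push Not at hno
            have : S = a j := by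
              rw [hS]
              refine Finset.sum_eq_single j (fun i hi hij => hno i hi hij) (fun h => absurd hj h)
            omega
          have hi1 : a i = 1 := by have := ha1 i hi; omega
          have h9 := hts i j hij hi1 hj1 heq
          rw [hsa] at h9
          refine key (S + 1) (by push_cast; omega) ?_
          have : X * S < X * (S + 1) := by nlinarith
          exact lt_of_lt_of_le this (Nat.mul_le_mul hX8 le_rfl)
        · have hS1 : S = 1 := by omega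
          have hpar := SNum_parity a
          rw [heq, hsa, hS1] at hpar
          have hpe : (e ^ 2 + 1) % 2 = (e + 1) % 2 := by
            rcases Nat.mod_two_eq_zero_or_one e with h | h
            · rw [Nat.add_mod, Nat.pow_mod, h, Nat.add_mod e, h]
            · rw [Nat.add_mod, Nat.pow_mod, h, Nat.add_mod e, h]
          rw [hpe] at hpar
          refine key 2 (by push_cast; omega) ?_
          rw [hS1]
          nlinarith

end Pool.MP_70e04f_ag.Strip
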