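import Mathlib

/-!
# Piece SNUMA: Abel summation for a class in standard form
-/

set_option autoImplicit false

namespace Pool.MP_70e04f_ag.Strip

/-- Abel summation for a class in standard form.
PROOF. Put `M' s = M s - M 8 ≥ 0` (decreasing, `M' 8 = 0`), `D' = D - 3 M 8 ≥ M' 0 + M' 1 + M' 2`. The
claim is `∑ s < 8, M' s a s ≤ D' e`. Abel summation: with `c j = M' (j - 1) - M' j ≥ 0` and
`A j = a 0 + ... + a (j - 1)`: `∑ M' s a s = ∑ c j A j`, `A 1 ≤ e`, `A 2 ≤ 2 e`, `A j ≤ ∑ a ≤ 3 e` for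
`j ≥ 3`, and `c 1 + 2 c 2 + 3 (c 3 + ... + c 8) = M' 0 + M' 1 + M' 2 ≤ D'`. (All is linear in the `a s`
once the products are introduced: `nlinarith` with the nine products `c j * (..) ≥ 0`.) -/
theorem abel_nine (e D : ℤ) (a M : Fin 9 → ℤ) (h0 : ∀ s, 0 ≤ a s) (hae : ∀ s, a s ≤ e)
    (hsum : ∑ s, a s ≤ 3 * e) (hanti : Antitone M) (hstd : M 0 + M 1 + M 2 ≤ D) :
    ∑ s, M s * a s + M 8 * (3 * e - ∑ s, a s) ≤ D * e := by
  have hs : ∑ s, a s = a 0 + a 1 + a 2 + a 3 + a 4 + a 5 + a 6 + a 7 + a 8 := by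
    simp [Fin.sum_univ_succ, Fin.succ]
    ring_nf
  have hm : ∑ s, M s * a s = M 0 * a 0 + M 1 * a 1 + M 2 * a 2 + M 3 * a 3 + M 4 * a 4
      + M 5 * a 5 + M 6 * a 6 + M 7 * a 7 + M 8 * a 8 := by
    simp [Fin.sum_univ_succ, Fin.succ]
    ring_nf
  rw [hs] at hsum
  rw [hm, hs]
  have e0 : 0 ≤ e := (h0 0).trans (hae 0)
  have c1 : 0 ≤ M 0 - M 1 := sub_nonneg.2 (hanti (by decide))
  have c2 : 0 ≤ M 1 - M 2 := sub_nonneg.2 (hanti (by decide))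
  have c3 : 0 ≤ M 2 - M 3 := sub_nonneg.2 (hanti (by decide))
  have c4 : 0 ≤ M 3 - M 4 := sub_nonneg.2 (hanti (by decide))
  have c5 : 0 ≤ M 4 - M 5 := sub_nonneg.2 (hanti (by decide))
  have c6 : 0 ≤ M 5 - M 6 := sub_nonneg.2 (hanti (by decide))
  have c7 : 0 ≤ M 6 - M 7 := sub_nonneg.2 (hanti (by decide))
  have c8 : 0 ≤ M 7 - M 8 := sub_nonneg.2 (hanti (by decide))
  have a0 := h0 0
  have a1 := h0 1
  have a2 := h0 2
  have a3 := h0 3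
  have a4 := h0 4
  have a5 := h0 5
  have a6 := h0 6
  have a7 := h0 7
  have a8 := h0 8
  have b0 := hae 0
  have b1 := hae 1
  have p0 := mul_nonneg (sub_nonneg.2 hstd) e0
  have p1 := mul_nonneg c1 (show 0 ≤ e - a 0 by linarith)
  have p2 := mul_nonneg c2 (show 0 ≤ 2 * e - a 0 - a 1 by linarith)
  have p3 := mul_nonneg c3 (show 0 ≤ 3 * e - a 0 - a 1 - a 2 by linarith)
  have p4 := mul_nonneg c4 (show 0 ≤ 3 * e - a 0 - a 1 - a 2 - a 3 by linarith)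
  have p5 := mul_nonneg c5 (show 0 ≤ 3 * e - a 0 - a 1 - a 2 - a 3 - a 4 by linarith)
  have p6 := mul_nonneg c6 (show 0 ≤ 3 * e - a 0 - a 1 - a 2 - a 3 - a 4 - a 5 by linarith)
  have p7 := mul_nonneg c7
    (show 0 ≤ 3 * e - a 0 - a 1 - a 2 - a 3 - a 4 - a 5 - a 6 by linarith)
  have p8 := mul_nonneg c8
    (show 0 ≤ 3 * e - a 0 - a 1 - a 2 - a 3 - a 4 - a 5 - a 6 - a 7 by linarith)
  linarith

end Pool.MP_70e04f_ag.Strip
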