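import Pool.Agent.Lib_MP_70e04f_strip.STwo
import Pool.Agent.Lib_MP_70e04f_strip.SCub
import Pool.Agent.Lib_MP_70e04f_strip.SNine
import Pool.Agent.Lib_MP_70e04f_strip.SNum

/-!
# Piece SPOS: positivity on irreducible curves through generic points
-/

set_option autoImplicit false

namespace Pool.MP_70e04f_ag.Strip

open MvPolynomial

/-- an irreducible polynomial is not constant -/
theorem spos_deg {k : Type*} [Field k] {F : A2 k} (hF : Irreducible F) : 1 ≤ F.totalDegree := by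
  by_contra h
  have h0 : F.totalDegree = 0 := by omega
  rw [totalDegree_eq_zero_iff_eq_C] at h0
  have hc : coeff 0 F ≠ 0 := by
    intro hc
    rw [hc, C_0] at h0
    exact hF.ne_zero h0
  apply hF.not_isUnit
  rw [h0]
  exact (Ne.isUnit hc).map C

/-- the sum of the squares over nine of the points -/
theorem spos_sq {n : ℕ} (M : Fin n → ℕ) (α : Fin 9 → Fin n) (hα : Function.Injective α) :
    ∑ s, M (α s) ^ 2 ≤ ∑ i, M i ^ 2 := by
  have h : ∑ s, M (α s) ^ 2 = ∑ i ∈ Finset.univ.map ⟨α, hα⟩, M i ^ 2 := by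
    rw [Finset.sum_map]
    rfl
  rw [h]
  exact Finset.sum_le_sum_of_subset (Finset.subset_univ _)

/-- the case of the cubic -/
theorem spos_cubic {n D X : ℕ} (M : Fin n → ℕ) (α : Fin 9 → Fin n) (hα : Function.Injective α)
    (hsq : ∑ i, M i ^ 2 + X ^ 2 < D ^ 2) : ∑ s, (M (α s) : ℤ) < 3 * D := by
  have h1 : (∑ s, (M (α s) : ℤ)) ^ 2 ≤ 9 * ∑ s, (M (α s) : ℤ) ^ 2 := by
    have := sq_sum_le_card_mul_sum_sq (s := (Finset.univ : Finset (Fin 9)))
      (f := fun s => (M (α s) : ℤ))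
    simpa using this
  have h2 : (∑ s, (M (α s) : ℤ) ^ 2) ≤ ∑ i, (M i : ℤ) ^ 2 := by
    exact_mod_cast spos_sq M α hα
  have h3 : (∑ i, (M i : ℤ) ^ 2) + (X : ℤ) ^ 2 < (D : ℤ) ^ 2 := by exact_mod_cast hsq
  by_contra h
  have h4 : 3 * (D : ℤ) ≤ ∑ s, (M (α s) : ℤ) := not_lt.1 h
  have h5 : (0 : ℤ) ≤ D := Int.natCast_nonneg D
  have h6 : (0 : ℤ) ≤ (X : ℤ) ^ 2 := sq_nonneg _
  nlinarith

/-- PROOF. Let `Γ` be the cubic of `exists_cubic`. If `Γ ∣ F` then `F = Γ * h` with `h` a unit (`F`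
irreducible), a constant, so `deg F = 3` and `mu (gp i) F = mu (gp i) Γ` (`mu_mul`, `mu_C`), and `dotp` is
`3 D - ∑ s, M (α s)`, positive since `(∑ s, M (α s)) ^ 2 ≤ 9 ∑ M ^ 2 < 9 D ^ 2` (Cauchy). Otherwise apply
`num` with `e = deg F ≥ 1`, `a i = mu (gp i) F ≤ e` (`mu_le_deg`), `xu`, `nine`, `two_simple`. -/
theorem pos {n ℓ : ℕ} [Fact ℓ.Prime] (hℓ : 3 < ℓ) (D X : ℕ) (M : Fin n → ℕ) (α : Fin 9 → Fin n)
    (hα : Function.Injective α) (hanti : Antitone (fun s => M (α s))) (hX : 1 ≤ X)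
    (hX8 : X ≤ M (α 8)) (hother : ∀ i, i ∉ Set.range α → M i ≤ X)
    (hstd : M (α 0) + M (α 1) + M (α 2) ≤ D) (hsq : ∑ i, M i ^ 2 + X ^ 2 < D ^ 2)
    {F : A2 (KK n ℓ)} (hF : Irreducible F) (hdeg : F.totalDegree < ℓ) :
    1 ≤ dotp D M (gp n ℓ) F := by
  obtain ⟨Γ, hΓ, hd3, hΓ1, hΓ0⟩ := exists_cubic hℓ α hα
  have hF0 : F ≠ 0 := hF.ne_zero
  by_cases hdvd : Γ ∣ F
  · obtain ⟨h, hh⟩ := hdvd
    have hu : IsUnit h := (hF.isUnit_or_isUnit hh).resolve_left hΓ.not_isUnit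
    obtain ⟨c, hc, hc'⟩ := MvPolynomial.isUnit_iff_eq_C_of_isReduced.1 hu
    have hc0 : c ≠ 0 := hc.ne_zero
    have hh0 : h ≠ 0 := hu.ne_zero
    have hdF : F.totalDegree = 3 := by
      rw [hh, totalDegree_mul_of_isDomain hΓ.ne_zero hh0, hd3, hc', totalDegree_C]
    have hmu : ∀ i, mu (gp n ℓ i) F = mu (gp n ℓ i) Γ := by
      intro i
      rw [hh, mu_mul hΓ.ne_zero hh0, hc', mu_C hc0, add_zero]
    have hsum : ∑ s, (M (α s) : ℤ) = ∑ i, (M i : ℤ) * mu (gp n ℓ i) F := by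
      refine Fintype.sum_of_injective α hα _ _ ?_ ?_
      · intro i hi
        rw [hmu, hΓ0 i hi]
        simp
      · intro s
        rw [hmu, hΓ1 s]
        simp
    unfold dotp
    rw [← hsum, hdF]
    have := spos_cubic M α hα hsq
    push_cast
    linarith
  · have hnum := num F.totalDegree D X (fun i => mu (gp n ℓ i) F) M α hα (spos_deg hF)
      (fun i => mu_le_deg hF0) (fun j hj => xu hF hdeg j hj)
      (nine α hα hΓ hd3 hΓ1 hΓ0 hF hdeg hdvd)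
      (fun i j hij hi hj hs => two_simple hF hdeg hij hi hj hs) hanti hX hX8 hother hstd hsq
    unfold dotp
    have h1 : (∑ i, (M i : ℤ) * mu (gp n ℓ i) F) < (D : ℤ) * F.totalDegree := by
      exact_mod_cast hnum
    linarith

end Pool.MP_70e04f_ag.Strip
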