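import Pool.Agent.Lib_MP_70e04f_strip.SMB

/-!
# Piece SSEC: the number of sections on a curve grows slowly
-/

set_option autoImplicit false

namespace Pool.MP_70e04f_ag.Strip

open MvPolynomial

variable {k : Type*} [Field k] {n : ℕ} {p : Fin n → Fin 2 → k}

/-- restriction to the line `x = c` -/
noncomputable def SSec_res (c : k) : A2 k →ₐ[k] Polynomial k :=
  aeval (![Polynomial.C c, Polynomial.X] : Fin 2 → Polynomial k)

/-- a polynomial in `y` -/
noncomputable def SSec_inc : Polynomial k →ₐ[k] A2 k := Polynomial.aeval (X 1 : A2 k)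

theorem SSec_dvd (c : k) (f : A2 k) (hf : SSec_res c f = 0) : (X 0 - C c : A2 k) ∣ f := by
  set I : Ideal (A2 k) := Ideal.span {X 0 - C c} with hI
  have h1 : ((Ideal.Quotient.mkₐ k I).comp (SSec_inc.comp (SSec_res c)))
      = Ideal.Quotient.mkₐ k I := by
    apply MvPolynomial.algHom_ext
    intro i
    fin_cases i
    · have : (X 0 - C c : A2 k) ∈ I := Ideal.subset_span rfl
      have h2 : Ideal.Quotient.mkₐ k I (C c) = Ideal.Quotient.mkₐ k I (X 0) := by
        rw [eq_comm]
        exact (Ideal.Quotient.eq).2 this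
      simp only [SSec_res, SSec_inc, AlgHom.comp_apply, aeval_X, Fin.zero_eta,
        Matrix.cons_val_zero, Polynomial.aeval_C]
      exact h2
    · simp [SSec_res, SSec_inc]
  have h3 := congrArg (fun ψ : A2 k →ₐ[k] (A2 k ⧸ I) => ψ f) h1
  simp only [AlgHom.comp_apply, hf, map_zero] at h3
  have h4 : f ∈ I := by
    rw [← Ideal.Quotient.eq_zero_iff_mem]
    exact h3.symm
  exact Ideal.mem_span_singleton.1 h4

theorem SSec_deg (c : k) (t : ℕ) (f : A2 k) (hf : f ∈ Pt k t) :
    SSec_res c f ∈ Polynomial.degreeLT k (t + 1) := by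
  obtain ⟨v, rfl⟩ := (mem_range_toPoly t f).1 hf
  rw [toPoly_apply, map_sum]
  refine Submodule.sum_mem _ fun q _ => ?_
  rw [map_smul]
  refine Submodule.smul_mem _ _ ?_
  rw [Polynomial.mem_degreeLT]
  have h1 : SSec_res c (X 0 ^ q.1.1 * X 1 ^ q.1.2 : A2 k)
      = Polynomial.C (c ^ q.1.1) * Polynomial.X ^ q.1.2 := by
    simp [SSec_res]
  rw [h1]
  refine lt_of_le_of_lt (Polynomial.degree_C_mul_X_pow_le _ _) ?_
  have := mem_tri.1 q.2
  exact_mod_cast (by omega : q.1.2 < t + 1)

theorem SSec_tdeg (c : k) (t : ℕ) (g : A2 k)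
    (h : (X 0 - C c : A2 k) * g ∈ Pt k (t + 1)) : g ∈ Pt k t := by
  rw [mem_Pt] at *
  by_cases hg : g = 0
  · subst hg; simp
  have hw : (X 0 - C c : A2 k) ≠ 0 := by
    intro h0
    have := congrArg (eval (fun _ => c + 1)) h0
    simp at this
  rw [totalDegree_mul_of_isDomain hw hg] at h
  have h1 : 1 ≤ (X 0 - C c : A2 k).totalDegree := by
    by_contra h0
    have h2 : (X 0 - C c : A2 k).totalDegree = 0 := by omega
    rw [totalDegree_eq_zero_iff_eq_C] at h2
    have h3 := congrArg (eval (fun _ => c + 1)) h2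
    have h4 := congrArg (eval (fun _ => c)) h2
    simp only [map_sub, eval_X, eval_C] at h3 h4
    rw [← h3] at h4
    simp at h4
  omega

theorem SSec_growth [Infinite k] (hp : Function.Injective p) (β : Fin n → ℕ) (a : Ideal (A2 k))
    (ha : Iz p β ≤ a) (t : ℕ) :
    Module.finrank k ↥(Pt k (t + 1) ⊓ sp a) ≤ Module.finrank k ↥(Pt k t ⊓ sp a) + (t + 2) := by
  classical
  obtain ⟨c, hc⟩ := Infinite.exists_notMem_finset (Finset.univ.image fun i => p i 0)
  have hc' : ∀ i, p i 0 ≠ c := by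
    intro i hi
    exact hc (Finset.mem_image.2 ⟨i, Finset.mem_univ _, hi⟩)
  set w : A2 k := X 0 - C c with hw
  obtain ⟨w', hw'⟩ := unit_mod hp β w (fun i => by
    rw [mem_mp, hw]
    simp only [map_sub, eval_X, eval_C]
    exact sub_ne_zero.2 (hc' i))
  have hfinA : ∀ s, Module.Finite k ↥(Pt k s ⊓ sp a) := fun s =>
    Submodule.finiteDimensional_of_le (inf_le_left : Pt k s ⊓ sp a ≤ Pt k s)
  have := hfinA (t + 1)
  have := hfinA t
  set V := Pt k (t + 1) ⊓ sp a with hV
  let φ : ↥V →ₗ[k] ↥(Polynomial.degreeLT k (t + 1 + 1)) :=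
    LinearMap.codRestrict _ ((SSec_res c).toLinearMap.domRestrict V)
      (fun f => SSec_deg c (t + 1) f.1 f.2.1)
  have h1 := LinearMap.finrank_range_add_finrank_ker φ
  have h2 : Module.finrank k ↥(LinearMap.range φ) ≤ t + 2 := by
    have e1 : Module.finrank k ↥(Polynomial.degreeLT k (t + 1 + 1)) = t + 2 := by
      rw [(Polynomial.degreeLTEquiv k (t + 1 + 1)).finrank_eq, Module.finrank_fin_fun]
    have : Module.Finite k ↥(Polynomial.degreeLT k (t + 1 + 1)) :=
      Module.Finite.equiv (Polynomial.degreeLTEquiv k (t + 1 + 1)).symm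
    exact (Submodule.finrank_le _).trans e1.le
  have h3 : Module.finrank k ↥(LinearMap.ker φ) ≤ Module.finrank k ↥(Pt k t ⊓ sp a) := by
    have e1 : (LinearMap.ker φ).map V.subtype ≤
        (Pt k t ⊓ sp a).map (LinearMap.mulLeft k w) := by
      rintro f ⟨⟨g, hg⟩, hgk, rfl⟩
      have hk : SSec_res c g = 0 := by
        have := LinearMap.mem_ker.1 hgk
        exact congrArg Subtype.val this
      obtain ⟨u, hu⟩ := SSec_dvd c g hk
      refine ⟨u, ⟨?_, ?_⟩, ?_⟩
      · apply SSec_tdeg c t u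
        rw [← hu]
        exact hg.1
      · have hga : w * u ∈ a := by
          rw [hw, ← hu]
          exact hg.2
        have e2 : u = w' * (w * u) - (w * w' - 1) * u := by ring
        rw [e2]
        exact Ideal.sub_mem _ (Ideal.mul_mem_left _ _ hga) (Ideal.mul_mem_right _ _ (ha hw'))
      · rw [hw]
        exact hu.symm
    have e2 : Module.finrank k ↥((LinearMap.ker φ).map V.subtype)
        = Module.finrank k ↥(LinearMap.ker φ) :=
      (LinearEquiv.finrank_eq (Submodule.equivMapOfInjective _ V.subtype_injective _)).symm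
    rw [← e2]
    exact (Submodule.finrank_mono e1).trans (Submodule.finrank_map_le _ _)
  omega

/-- PROOF. Choose `c` different from all `p i 0` (`k` infinite) and `w = X 0 - C c`, a unit modulo
`Iz p β` (`unit_mod`). The map `f ↦ f (c, y)` from `Pt k (t + 1) ⊓ sp a` (`a = Iz p β ⊔ pr F`) to the
univariate polynomials of degree `≤ t + 1` (dimension `t + 2`) has kernel contained in
`w * (Pt k t ⊓ sp a)`: if `f (c, y) = 0` then `f = w g` with `deg g ≤ t`, and `w g ∈ a` implies `g ∈ a`
since `w` is a unit modulo `Iz p β`. So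
`finrank (Pt k (t + 1) ⊓ sp a) ≤ finrank (Pt k t ⊓ sp a) + (t + 2)`. Now use `sec_add` and
`finrank_inf_pr`, `inf_pr_eq_bot`, `two_finrank_Pt` (`e = deg F`): the dimension of
`Pt k s ⊓ sp (pr F)` is `(s - e + 1) (s - e + 2) / 2` for `s ≥ e` and `0` for `s < e`. If `t ≥ e` it
increases by `t - e + 2`, so `sec` increases by at most `e`; if `t + 1 = e` it increases by `1`, and
`t + 2 - 1 = e`; if `t + 1 < e` then `t + 2 ≤ e`. -/
theorem sec_succ [Infinite k] (hp : Function.Injective p) {F : A2 k} (hF : F ≠ 0)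
    (β : Fin n → ℕ) (t : ℕ) :
    sec (t + 1) (Iz p β ⊔ pr F) F ≤ sec t (Iz p β ⊔ pr F) F + F.totalDegree := by
  have h1 := SSec_growth hp β (Iz p β ⊔ pr F) le_sup_left t
  have h2 := sec_add (F := F) (a := Iz p β ⊔ pr F) le_sup_right t
  have h3 := sec_add (F := F) (a := Iz p β ⊔ pr F) le_sup_right (t + 1)
  rcases lt_trichotomy (t + 1) F.totalDegree with h | h | h
  · have e1 : Module.finrank k ↥(Pt k t ⊓ sp (pr F)) = 0 := by
      rw [inf_pr_eq_bot (by omega)]; exact finrank_bot k _
    have e2 : Module.finrank k ↥(Pt k (t + 1) ⊓ sp (pr F)) = 0 := by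
      rw [inf_pr_eq_bot h]; exact finrank_bot k _
    omega
  · have e1 : Module.finrank k ↥(Pt k t ⊓ sp (pr F)) = 0 := by
      rw [inf_pr_eq_bot (by omega)]; exact finrank_bot k _
    have e2 := finrank_inf_pr hF 0
    have e3 := two_finrank_Pt (k := k) 0
    rw [zero_add, ← h] at e2
    omega
  · obtain ⟨s, hs⟩ : ∃ s, t = s + F.totalDegree := ⟨t - F.totalDegree, by omega⟩
    have e1 := finrank_inf_pr hF s
    have e2 := finrank_inf_pr hF (s + 1)
    have e3 := two_finrank_Pt (k := k) s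
    have e4 := two_finrank_Pt (k := k) (s + 1)
    rw [← hs] at e1
    rw [show s + 1 + F.totalDegree = t + 1 by omega] at e2
    have e5 : (s + 1 + 1) * (s + 1 + 2) = (s + 1) * (s + 2) + 2 * (s + 2) := by ring
    omega

end Pool.MP_70e04f_ag.Strip
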