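import Pool.Agent.Lib_MP_70e04f_strip.SCurve
import Pool.Agent.Lib_MP_70e04f_strip.SChain

/-!
# Piece SSURFA: multiplication by a curve
-/

set_option autoImplicit false

namespace Pool.MP_70e04f_ag.Strip

open MvPolynomial

/-- many curves in a big class.
PROOF. `Pt k (κ D) → A2 k ⧸ sp (Iz p (κ M))` has kernel `Pt k (κ D) ⊓ sp (..)`, so the dimension of the
kernel is at least `finrank Pt - len`; `two_finrank_Pt`, `len_Iz` (or `cod_add`). -/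
theorem finrank_sys_ge {n : ℕ} {k : Type} [Field k] {p : Fin n → Fin 2 → k}
    (hp : Function.Injective p) (t : ℕ) (β : Fin n → ℕ) :
    ((t : ℤ) + 1) * (t + 2) - ∑ i, (β i : ℤ) * (β i + 1) ≤
      2 * (Module.finrank k ↥(Pt k t ⊓ sp (Iz p β)) : ℤ) := by
  have h1 := cod_add (finC_Iz hp β) t
  have h2 : (2 * Module.finrank k ↥(Pt k t) : ℤ) = ((t : ℤ) + 1) * (t + 2) := by
    exact_mod_cast two_finrank_Pt (k := k) t
  have h3 : (2 * len (Iz p β) : ℤ) = ∑ i, (β i : ℤ) * (β i + 1) := by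
    exact_mod_cast len_Iz hp β
  have h4 : (cod t (Iz p β) : ℤ) + Module.finrank k ↥(Pt k t) =
      len (Iz p β) + Module.finrank k ↥(Pt k t ⊓ sp (Iz p β)) := by
    exact_mod_cast h1
  have h5 : (0 : ℤ) ≤ cod t (Iz p β) := Int.natCast_nonneg _
  linarith

/-- many curves, numerical form.
PROOF. `(κ D + 1) (κ D + 2) - ∑ κ M i (κ M i + 1) = κ ^ 2 (D ^ 2 - ∑ M i ^ 2) + κ (3 D - ∑ M i) + 2
≥ κ ^ 2 - κ ∑ M i`, which is `> 2 B` for `κ = ∑ M i + 2 B + 1`. -/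
theorem exists_kappa {n : ℕ} (D B : ℕ) (M : Fin n → ℕ) (hsq : ∑ i, M i ^ 2 < D ^ 2) :
    ∃ κ : ℕ, 1 ≤ κ ∧ 2 * (B : ℤ) < ((κ * D : ℕ) + 1 : ℤ) * ((κ * D : ℕ) + 2)
      - ∑ i, ((κ * M i : ℕ) : ℤ) * ((κ * M i : ℕ) + 1) := by
  refine ⟨∑ i, M i + 2 * B + 1, Nat.le_add_left 1 _, ?_⟩
  set κ : ℕ := ∑ i, M i + 2 * B + 1 with hκ
  have h0 : (κ : ℤ) = ∑ i, (M i : ℤ) + 2 * B + 1 := by
    rw [hκ]
    push_cast
    ring
  have h1 : ∑ i, ((κ * M i : ℕ) : ℤ) * ((κ * M i : ℕ) + 1) =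
      (κ : ℤ) ^ 2 * ∑ i, (M i : ℤ) ^ 2 + κ * ∑ i, (M i : ℤ) := by
    rw [Finset.mul_sum, Finset.mul_sum, ← Finset.sum_add_distrib]
    refine Finset.sum_congr rfl fun i _ => ?_
    push_cast
    ring
  have h2 : (∑ i, (M i : ℤ) ^ 2) + 1 ≤ (D : ℤ) ^ 2 := by
    have : (∑ i, (M i : ℤ) ^ 2) < (D : ℤ) ^ 2 := by exact_mod_cast hsq
    linarith
  rw [h1]
  push_cast
  have h3 : (0 : ℤ) ≤ B := Int.natCast_nonneg _
  have h4 : (0 : ℤ) ≤ D := Int.natCast_nonneg _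
  have h5 : (0 : ℤ) ≤ ∑ i, (M i : ℤ) := Finset.sum_nonneg fun i _ => Int.natCast_nonneg _
  set S1 : ℤ := ∑ i, (M i : ℤ)
  set S2 : ℤ := ∑ i, (M i : ℤ) ^ 2
  have h6 : (κ : ℤ) ^ 2 * (S2 + 1) ≤ (κ : ℤ) ^ 2 * (D : ℤ) ^ 2 :=
    mul_le_mul_of_nonneg_left h2 (sq_nonneg _)
  have h7 : (1 : ℤ) ≤ κ := by linarith
  have h8 : (κ : ℤ) * (κ - S1) = κ * (2 * B + 1) := by
    rw [h0]
    ring
  have h9 : (2 * B + 1 : ℤ) ≤ κ * (2 * B + 1) := by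
    nlinarith
  have h10 : (0 : ℤ) ≤ κ * D := by positivity
  nlinarith

/-- Serre vanishing, one multiplication step.
PROOF. Let `s ∈ Pt k (κ D) ⊓ sp (Iz p (κ M))`, `s ≠ 0`. `curve_van n D (κ D) (κ D + 3) M` gives `J`. For
`j ≥ J + 3` let `t = j D - 3`, `β i = j M i - 1`. For every irreducible `F` of degree `≤ κ D` and
`t ≤ t1 ≤ t + κ D`, `β ≤ β1 ≤ β + κ D` the class `(t1; β1)` is at distance `≤ κ D + 3` from `j (D; M)`, so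
`Ind t1 (Iz p β1 ⊔ pr F)` (`M i = 0` does not occur). By `chain` with `E = κ D`,
`Ind (t + deg s) (Iz p (β + mu s) ⊔ pr s)`, and by `Ind.mono` (`deg s ≤ κ D`, `mu (p i) s ≥ κ M i` by
`mem_iff_le_mu`) `Ind (t + κ D) (Iz p (β + κ M) ⊔ pr s)`. (`D ≥ 1`: `∑ M i ^ 2 < D ^ 2`.) -/
theorem surf_mul {n : ℕ} (D κ : ℕ) (M : Fin n → ℕ) (hM : ∀ i, 1 ≤ M i) (hD : 1 ≤ D) :
    ∃ J : ℕ, ∀ (k : Type) [Field k] [Infinite k] (p : Fin n → Fin 2 → k), Function.Injective p →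
    (∀ F : A2 k, Irreducible F → F.totalDegree ≤ κ * D → 1 ≤ dotp D M p F) →
    ∀ s : A2 k, s ≠ 0 → s ∈ Pt k (κ * D) → s ∈ Iz p (fun i => κ * M i) → ∀ j, J ≤ j →
    Ind (j * D - 3 + κ * D) (Iz p (fun i => j * M i - 1 + κ * M i) ⊔ pr s) := by
  obtain ⟨J, hJ⟩ := curve_van n D (κ * D) (κ * D + 3) M
  refine ⟨J + 3, fun k _ _ p hp hpos s hs0 hsP hsI j hj => ?_⟩
  have key := chain (p := p) (κ * D) (j * D - 3) (fun i => j * M i - 1) (fun F hF hdeg t1 β1 h1 h2 h3 h4 =>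
    hJ k p hp F hF hdeg (fun i hi => absurd hi (by have := hM i; omega)) (hpos F hF hdeg) j t1 β1
      (by omega) (by omega) (by omega) (fun i => by have := h3 i; omega)
      (fun i => by have := h4 i; omega)) s hs0 (mem_Pt.1 hsP)
  refine key.mono (Nat.add_le_add_left (mem_Pt.1 hsP) _) (sup_le_sup_right (Iz_mono fun i => ?_) _)
  exact Nat.add_le_add_left ((mem_iff_le_mu hs0 _).1 (mem_Iz.1 hsI i)) _

end Pool.MP_70e04f_ag.Strip
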