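import Pool.Agent.Lib_MP_70e04f_strip.SDefs

/-!
# Piece STRACEA: the Frobenius trace. The linear map `tr q` sends the monomial
`x ^ (q i + q - 1) y ^ (q j + q - 1)` to `x ^ i y ^ j` and all other monomials to zero.
-/

set_option autoImplicit false

namespace Pool.MP_70e04f_ag.Strip

open MvPolynomial

variable {k : Type*} [Field k]

/-- the Frobenius trace (values on monomials) -/
noncomputable def tr (q : ℕ) : A2 k →ₗ[k] A2 k :=
  (basisMonomials (Fin 2) k).constr k (fun s =>
    if q ∣ s 0 + 1 ∧ q ∣ s 1 + 1 then monomial (mon ((s 0 + 1) / q - 1) ((s 1 + 1) / q - 1)) 1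
    else 0)

theorem tr_monomial (q : ℕ) (s : Fin 2 →₀ ℕ) :
    tr q (monomial s (1 : k)) =
      if q ∣ s 0 + 1 ∧ q ∣ s 1 + 1 then monomial (mon ((s 0 + 1) / q - 1) ((s 1 + 1) / q - 1)) 1
      else 0 := by
  have h := (basisMonomials (Fin 2) k).constr_basis k (fun s : Fin 2 →₀ ℕ =>
    if q ∣ s 0 + 1 ∧ q ∣ s 1 + 1 then
      (monomial (mon ((s 0 + 1) / q - 1) ((s 1 + 1) / q - 1)) 1 : A2 k)
    else 0) s
  rw [coe_basisMonomials] at h
  exact h

theorem STraceA_aux {q : ℕ} (hq : 1 ≤ q) (s a : ℕ) :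
    (q ∣ s + 1 ∧ (s + 1) / q - 1 = a) ↔ s = q * a + (q - 1) := by
  constructor
  · rintro ⟨⟨u, hu⟩, h⟩
    rw [hu, Nat.mul_div_cancel_left u hq] at h
    have hu1 : 1 ≤ u := by
      rcases Nat.eq_zero_or_pos u with h0 | h0
      · rw [h0] at hu; omega
      · exact h0
    have hua : u = a + 1 := by omega
    rw [hua, mul_add, mul_one] at hu
    omega
  · intro h
    have e : s + 1 = q * (a + 1) := by rw [h, mul_add, mul_one]; omega
    refine ⟨⟨a + 1, e⟩, ?_⟩
    rw [e, Nat.mul_div_cancel_left _ hq]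
    omega

theorem STraceA_sum (a b : ℕ) : ((mon a b).sum fun _ e => e) = a + b := by
  rw [← degree_mon a b, Finsupp.degree_eq_sum]
  rw [Finsupp.sum_fintype _ _ (fun _ => rfl)]

theorem STraceA_X (q : ℕ) (hq : 1 ≤ q) (i : Fin 2) (f : A2 k) :
    tr q (X i ^ q * f) = X i * tr q f := by
  classical
  have h : (tr q).comp (LinearMap.mulLeft k (X i ^ q : A2 k)) =
      (LinearMap.mulLeft k (X i : A2 k)).comp (tr q) := by
    refine (basisMonomials (Fin 2) k).ext fun s => ?_
    rw [coe_basisMonomials, LinearMap.comp_apply, LinearMap.comp_apply, LinearMap.mulLeft_apply,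
      LinearMap.mulLeft_apply, X_pow_eq_monomial, monomial_mul, one_mul, tr_monomial, tr_monomial]
    have key : ∀ t : ℕ, q ∣ t + 1 → (q + t + 1) / q - 1 = 1 + ((t + 1) / q - 1) := by
      rintro t ⟨u, hu⟩
      have hu1 : 1 ≤ u := by
        rcases Nat.eq_zero_or_pos u with h0 | h0
        · rw [h0] at hu; omega
        · exact h0
      have e : q + t + 1 = q * (u + 1) := by rw [mul_add, mul_one, ← hu]; omega
      rw [e, hu, Nat.mul_div_cancel_left _ hq, Nat.mul_div_cancel_left _ hq]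
      omega
    have key2 : ∀ t : ℕ, q ∣ q + t + 1 ↔ q ∣ t + 1 := by
      intro t
      rw [add_assoc]
      exact (Nat.dvd_add_right dvd_rfl)
    fin_cases i
    · have e0 : (Finsupp.single (0 : Fin 2) q + s) 0 = q + s 0 := by simp
      have e1 : (Finsupp.single (0 : Fin 2) q + s) 1 = s 1 := by simp
      change (if q ∣ (Finsupp.single (0 : Fin 2) q + s) 0 + 1 ∧
        q ∣ (Finsupp.single (0 : Fin 2) q + s) 1 + 1 then
        (monomial (mon (((Finsupp.single (0 : Fin 2) q + s) 0 + 1) / q - 1)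
          (((Finsupp.single (0 : Fin 2) q + s) 1 + 1) / q - 1)) 1 : A2 k) else 0) =
        (X (0 : Fin 2) : A2 k) * _
      simp only [e0, e1, key2]
      by_cases hc : q ∣ s 0 + 1 ∧ q ∣ s 1 + 1
      · rw [if_pos hc, if_pos hc, key _ hc.1, X, monomial_mul, one_mul]
        congr 1
        simp only [mon, Finsupp.single_add]
        rw [add_assoc]
      · rw [if_neg hc, if_neg hc, mul_zero]
    · have e0 : (Finsupp.single (1 : Fin 2) q + s) 0 = s 0 := by simp
      have e1 : (Finsupp.single (1 : Fin 2) q + s) 1 = q + s 1 := by simp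
      change (if q ∣ (Finsupp.single (1 : Fin 2) q + s) 0 + 1 ∧
        q ∣ (Finsupp.single (1 : Fin 2) q + s) 1 + 1 then
        (monomial (mon (((Finsupp.single (1 : Fin 2) q + s) 0 + 1) / q - 1)
          (((Finsupp.single (1 : Fin 2) q + s) 1 + 1) / q - 1)) 1 : A2 k) else 0) =
        (X (1 : Fin 2) : A2 k) * _
      simp only [e0, e1, key2]
      by_cases hc : q ∣ s 0 + 1 ∧ q ∣ s 1 + 1
      · rw [if_pos hc, if_pos hc, key _ hc.2, X, monomial_mul, one_mul]
        congr 1
        simp only [mon, Finsupp.single_add]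
        abel
      · rw [if_neg hc, if_neg hc, mul_zero]
  exact congrArg (fun L : A2 k →ₗ[k] A2 k => L f) h

theorem STraceA_expand (q : ℕ) (hq : 1 ≤ q) (g f : A2 k) :
    tr q (expand q g * f) = g * tr q f := by
  induction g using MvPolynomial.induction_on generalizing f with
  | C a =>
    rw [expand_C, ← MvPolynomial.smul_eq_C_mul, ← MvPolynomial.smul_eq_C_mul, map_smul]
  | add g1 g2 h1 h2 => rw [map_add, add_mul, map_add, h1, h2, add_mul]
  | mul_X g i h =>
    rw [map_mul (expand q) g (X i), expand_X, mul_assoc, h, STraceA_X q hq, mul_assoc]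

/-- PROOF. Both sides are linear in `f`; check on monomials (`tr_monomial`):
`q ∣ s 0 + 1` and `(s 0 + 1) / q - 1 = a` iff `s 0 = q a + (q - 1)`. -/
theorem coeff_tr (q : ℕ) (hq : 1 ≤ q) (f : A2 k) (a b : ℕ) :
    coeff (mon a b) (tr q f) = coeff (mon (q * a + (q - 1)) (q * b + (q - 1))) f := by
  classical
  have h : (lcoeff k (mon a b)).comp (tr q) =
      lcoeff k (mon (q * a + (q - 1)) (q * b + (q - 1))) := by
    refine (basisMonomials (Fin 2) k).ext fun s => ?_
    rw [coe_basisMonomials, LinearMap.comp_apply, tr_monomial, lcoeff_apply, lcoeff_apply,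
      coeff_monomial]
    have h0 := STraceA_aux hq (s 0) a
    have h1 := STraceA_aux hq (s 1) b
    by_cases hs : s = mon (q * a + (q - 1)) (q * b + (q - 1))
    · have e0 : s 0 = q * a + (q - 1) := by rw [hs, mon_zero']
      have e1 : s 1 = q * b + (q - 1) := by rw [hs, mon_one']
      obtain ⟨c0, d0⟩ := h0.2 e0
      obtain ⟨c1, d1⟩ := h1.2 e1
      rw [if_pos ⟨c0, c1⟩, if_pos hs, d0, d1, coeff_monomial, if_pos rfl]
    · rw [if_neg hs]
      by_cases hc : q ∣ s 0 + 1 ∧ q ∣ s 1 + 1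
      · rw [if_pos hc, coeff_monomial, if_neg]
        intro he
        obtain ⟨c0, c1⟩ := mon_inj.1 he
        apply hs
        rw [← mon_eta s, mon_inj]
        exact ⟨h0.1 ⟨hc.1, c0⟩, h1.1 ⟨hc.2, c1⟩⟩
      · rw [if_neg hc, coeff_zero]
  exact congrArg (fun L : A2 k →ₗ[k] k => L f) h

/-- PROOF. If `x ^ (q i + q - 1) y ^ (q j + q - 1)` occurs in `f` then
`q (i + j) + 2 (q - 1) ≤ q (d + 3) - 3`, so `q (i + j) ≤ q d + q - 1` and `i + j ≤ d`. -/
theorem tr_Pt (q : ℕ) (hq : 1 ≤ q) (d : ℕ) {f : A2 k} (hf : f ∈ Pt k (q * (d + 3) - 3)) :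
    tr q f ∈ Pt k d := by
  rw [mem_Pt] at hf ⊢
  unfold totalDegree
  refine Finset.sup_le fun s hs => ?_
  rw [mem_support_iff, ← mon_eta s, coeff_tr q hq, ← mem_support_iff] at hs
  have h := (le_totalDegree hs).trans hf
  rw [← mon_eta s, STraceA_sum]
  rw [STraceA_sum] at h
  have h2 : q * (s 0 + s 1) + 2 * (q - 1) ≤ q * (d + 3) - 3 := by
    refine le_trans (le_of_eq ?_) h
    ring
  by_contra hlt
  have h3 : d + 1 ≤ s 0 + s 1 := by omega
  have h4 : q * (d + 1) ≤ q * (s 0 + s 1) := Nat.mul_le_mul_left q h3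
  have h5 : q * (d + 3) = q * (d + 1) + 2 * q := by ring
  have h6 : d + 3 ≤ q * (d + 3) := Nat.le_mul_of_pos_left (d + 3) hq
  omega

/-- PROOF. `tr q (x ^ (q - 1) y ^ (q - 1) f (x ^ q, y ^ q)) = f` (`MvPolynomial.expand`, or
`Finsupp.mapDomain`). -/
theorem tr_surj (q : ℕ) (hq : 1 ≤ q) : Function.Surjective (tr q : A2 k →ₗ[k] A2 k) := by
  intro f
  refine ⟨expand q f * monomial (mon (q - 1) (q - 1)) 1, ?_⟩
  have e : (q - 1) + 1 = q := by omega
  rw [STraceA_expand q hq, tr_monomial, mon_zero', mon_one', e, if_pos ⟨dvd_rfl, dvd_rfl⟩,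
    Nat.div_self hq]
  have : mon (1 - 1) (1 - 1) = 0 := by simp [mon]
  rw [this, ← C_apply, C_1, mul_one]

/-- PROOF. `expand q g` is `g (x ^ q, y ^ q)`; both sides are linear in `g`, `f`: check on monomials. -/
theorem tr_expand (q : ℕ) (hq : 1 ≤ q) (g f : A2 k) :
    tr q (expand q g * f) = g * tr q f := by
  exact STraceA_expand q hq g f

end Pool.MP_70e04f_ag.Strip
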