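import Pool.Agent.Lib_MP_70e04f_strip.SXu
import Pool.Agent.Lib_MP_70e04f_strip.SGon

/-!
# Piece STWO: curves of self intersection `-1` with two simple generic points
-/

set_option autoImplicit false

namespace Pool.MP_70e04f_ag.Strip

open MvPolynomial

/-- PROOF. Let `e = deg F`, `μ s = mu (gp s) F`, `Gi`, `Gj` from `xu_der` for `i` and `j`. Let `β s = μ s` for
`s ≠ i, j`, `β i = β j = 0`. Then `Gi, Gj ∈ Iz (gp) β`, of degree `≤ e`, and
`dotp e β = e ^ 2 - (∑ μ ^ 2 - 2) = 1`. With `q = gp j`, `r = 1`: `Gi ∈ mp (gp j)` (`μ j = 1`), `Gj ∉ mp (gp j)`,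
and `mp (gp j) ^ 1 ⊔ pr F = mp (gp j)`. `gon` (`t = e`, `infinite_KK`, `gp_inj`) gives
`e (e - 3) < ∑ μ (μ - 1) = e ^ 2 + 1 - ∑ μ`, so `∑ μ ≤ 3 e`. Since `μ ^ 2 ≡ μ` modulo 2,
`∑ μ ≡ ∑ μ ^ 2 = e ^ 2 + 1 ≡ 3 e + 1` modulo 2, so `∑ μ ≠ 3 e`. -/
theorem two_simple {n ℓ : ℕ} [Fact ℓ.Prime] {F : A2 (KK n ℓ)} (hF : Irreducible F)
    (hdeg : F.totalDegree < ℓ) {i j : Fin n} (hij : i ≠ j) (hi : mu (gp n ℓ i) F = 1)
    (hj : mu (gp n ℓ j) F = 1) (hs : ∑ s, mu (gp n ℓ s) F ^ 2 = F.totalDegree ^ 2 + 1) :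
    ∑ s, mu (gp n ℓ s) F + 1 ≤ 3 * F.totalDegree := by
  classical
  obtain ⟨Gi, i1, i2, i3, i4, i5⟩ := xu_der hF hdeg i (by omega)
  obtain ⟨Gj, j1, j2, j3, j4, j5⟩ := xu_der hF hdeg j (by omega)
  have hn : 0 < n := lt_of_le_of_lt (Nat.zero_le _) i.2
  have hinf : Infinite (KK n ℓ) := infinite_KK ℓ hn
  set β : Fin n → ℕ := fun s => if s = i ∨ s = j then 0 else mu (gp n ℓ s) F with hβdef
  have hβ : ∀ s, mu (gp n ℓ s) F ≤ β s + 1 := by
    intro s
    rw [hβdef]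
    simp only
    split_ifs with h
    · rcases h with rfl | rfl <;> omega
    · omega
  have hsum : ∑ s, mu (gp n ℓ s) F ^ 2 = ∑ s, β s * mu (gp n ℓ s) F + 2 := by
    have h1 : ∀ s, mu (gp n ℓ s) F ^ 2 = β s * mu (gp n ℓ s) F +
        ((if s = i then 1 else 0) + (if s = j then 1 else 0)) := by
      intro s
      rw [hβdef]
      simp only
      by_cases h1 : s = i
      · subst h1
        simp [hi, hij]
      · by_cases h2 : s = j
        · subst h2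
          simp [hj, h1]
        · simp [h1, h2, sq]
    rw [Finset.sum_congr rfl fun s _ => h1 s, Finset.sum_add_distrib, Finset.sum_add_distrib]
    simp
  have hδ : dotp F.totalDegree β (gp n ℓ) F = 1 := by
    unfold dotp
    have h1 : ((∑ s, β s * mu (gp n ℓ s) F + 2 : ℕ) : ℤ) = ((F.totalDegree ^ 2 + 1 : ℕ) : ℤ) := by
      rw [← hsum, hs]
    push_cast at h1
    linarith
  have hG : ∀ (a : Fin n) (G : A2 (KK n ℓ)), (a = i ∨ a = j) →
      (∀ s, s ≠ a → G ∈ mp (gp n ℓ s) ^ mu (gp n ℓ s) F) → G ∈ Iz (gp n ℓ) β := by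
    intro a G ha h
    rw [mem_Iz]
    intro s
    by_cases h1 : s = i ∨ s = j
    · have : β s = 0 := by rw [hβdef]; simp only; rw [if_pos h1]
      rw [this, pow_zero, Ideal.one_eq_top]
      trivial
    · have : β s = mu (gp n ℓ s) F := by rw [hβdef]; simp only; rw [if_neg h1]
      rw [this]
      apply h
      rintro rfl
      exact h1 ha
  have hFj : F ∈ mp (gp n ℓ j) := (one_le_mu hF.ne_zero).1 (by omega)
  have hg := gon (gp_inj n ℓ) hF F.totalDegree β hβ hδ (mem_Pt.2 i1) (mem_Pt.2 j1)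
    (hG i Gi (Or.inl rfl) i3) (hG j Gj (Or.inr rfl) j3) i2 hj (r := 1)
    (by
      apply Ideal.mem_sup_left
      have := i3 j (Ne.symm hij)
      rw [hj] at this
      exact this)
    (by
      rw [pow_one]
      have : mp (gp n ℓ j) ⊔ pr F = mp (gp n ℓ j) := by
        apply sup_eq_left.2
        unfold pr
        rw [Ideal.span_singleton_le_iff_mem]
        exact hFj
      rw [this]
      exact j5 hj)
  have h1 : ∑ s, (mu (gp n ℓ s) F : ℤ) * ((mu (gp n ℓ s) F : ℤ) - 1) =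
      (F.totalDegree : ℤ) ^ 2 + 1 - ∑ s, (mu (gp n ℓ s) F : ℤ) := by
    have h2 : ((∑ s, mu (gp n ℓ s) F ^ 2 : ℕ) : ℤ) = ((F.totalDegree ^ 2 + 1 : ℕ) : ℤ) := by
      rw [hs]
    push_cast at h2
    rw [← h2, ← Finset.sum_sub_distrib]
    exact Finset.sum_congr rfl fun s _ => by ring
  rw [h1] at hg
  have h3 : ((∑ s, mu (gp n ℓ s) F : ℕ) : ℤ) < 3 * F.totalDegree + 1 := by
    push_cast
    nlinarith
  have h4 : (∑ s, mu (gp n ℓ s) F) % 2 = (∑ s, mu (gp n ℓ s) F ^ 2) % 2 := by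
    rw [Finset.sum_nat_mod, Finset.sum_nat_mod (f := fun s => mu (gp n ℓ s) F ^ 2)]
    congr 1
    apply Finset.sum_congr rfl
    intro s _
    rcases Nat.mod_two_eq_zero_or_one (mu (gp n ℓ s) F) with h | h <;> simp [Nat.pow_mod, h]
  have h5 : (F.totalDegree ^ 2) % 2 = F.totalDegree % 2 := by
    rcases Nat.mod_two_eq_zero_or_one F.totalDegree with h | h <;> simp [Nat.pow_mod, h]
  rw [hs] at h4
  have h6 : ∑ s, mu (gp n ℓ s) F < 3 * F.totalDegree + 1 := by exact_mod_cast h3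
  omega

end Pool.MP_70e04f_ag.Strip
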