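import Pool.Agent.Lib_MP_70e04f_strip.SDer
import Pool.Agent.Lib_MP_70e04f_strip.SMB

/-!
# Piece SXU: the lemma of Xu for curves through generic points
-/

set_option autoImplicit false

namespace Pool.MP_70e04f_ag.Strip

open MvPolynomial

variable {n ℓ : ℕ} [Fact ℓ.Prime]

theorem SXu_core {F : A2 (KK n ℓ)} (hF : Irreducible F) (j : Fin n) (v : Fin 2 → KK n ℓ) {a b : ℕ}
    (hab : a + b + 1 = mu (gp n ℓ j) F)
    (hne : v 0 * (((a : KK n ℓ) + 1) * coeff (mon (a + 1) b) (shift (gp n ℓ j) F))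
          + v 1 * (((b : KK n ℓ) + 1) * coeff (mon a (b + 1)) (shift (gp n ℓ j) F)) ≠ 0) :
    ∃ G : A2 (KK n ℓ), G.totalDegree ≤ F.totalDegree ∧ ¬ F ∣ G ∧
      (∀ i, i ≠ j → G ∈ mp (gp n ℓ i) ^ mu (gp n ℓ i) F) ∧
      G ∈ mp (gp n ℓ j) ^ (mu (gp n ℓ j) F - 1) ∧
      (mu (gp n ℓ j) F = 1 → G ∉ mp (gp n ℓ j)) := by
  obtain ⟨G, hG1, hG2, hG3⟩ := der hF.ne_zero j v
  have hG : G ∉ mp (gp n ℓ j) ^ mu (gp n ℓ j) F := by
    intro h
    have h1 := mem_mp_pow.1 h a b (by omega)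
    rw [hG3 a b (by omega), neg_eq_zero] at h1
    exact hne h1
  refine ⟨G, hG1, ?_, hG2, der_mem hF.ne_zero j v hG3, ?_⟩
  · intro hd
    obtain ⟨h, rfl⟩ := hd
    exact hG (Ideal.mul_mem_right _ _ ((mem_iff_le_mu hF.ne_zero _).2 le_rfl))
  · intro h1 h2
    rw [h1, pow_one] at hG
    exact hG h2

/-- PROOF. Let `μ = mu (gp j) F`. Choose `a0 + b0 = μ` with `coeff (mon a0 b0) (shift (gp j) F) ≠ 0`
(`exists_coeff_ne`). One of `a0, b0` is positive, say `a0` (the other case is symmetric): take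
`v = (1, 0)` in `der` (resp. `(0, 1)`). The coefficient `(a0 - 1, b0)` of `shift (gp j) G` is
`- a0 * coeff (mon a0 b0) ≠ 0` (`cast_ne_zero_KK`, `a0 ≤ μ ≤ deg F < ℓ` by `mu_le_deg`), so
`G ∉ mp (gp j) ^ μ` (`mem_mp_pow`); in particular `G ≠ 0`. If `F ∣ G`, `G = F * h`, then by degrees `h` is a
constant, so `G ∈ mp (gp j) ^ μ` since `F` is: contradiction. `der_mem` gives the fourth property, and if
`μ = 1` the last one is `G ∉ mp (gp j) ^ μ`. -/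
theorem xu_der {F : A2 (KK n ℓ)} (hF : Irreducible F) (hdeg : F.totalDegree < ℓ) (j : Fin n)
    (hj : 1 ≤ mu (gp n ℓ j) F) :
    ∃ G : A2 (KK n ℓ), G.totalDegree ≤ F.totalDegree ∧ ¬ F ∣ G ∧
      (∀ i, i ≠ j → G ∈ mp (gp n ℓ i) ^ mu (gp n ℓ i) F) ∧
      G ∈ mp (gp n ℓ j) ^ (mu (gp n ℓ j) F - 1) ∧
      (mu (gp n ℓ j) F = 1 → G ∉ mp (gp n ℓ j)) := by
  obtain ⟨a0, b0, hab, hne⟩ := exists_coeff_ne (q := gp n ℓ j) hF.ne_zero
  have hle : mu (gp n ℓ j) F ≤ F.totalDegree := mu_le_deg hF.ne_zero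
  rcases Nat.eq_zero_or_pos a0 with ha | ha
  · subst ha
    obtain ⟨b, rfl⟩ : ∃ b, b0 = b + 1 := ⟨b0 - 1, by omega⟩
    refine SXu_core hF j ![0, 1] (a := 0) (b := b) (by omega) ?_
    have h1 : ((b + 1 : ℕ) : KK n ℓ) ≠ 0 := cast_ne_zero_KK (by omega) (by omega)
    rw [Nat.cast_add, Nat.cast_one] at h1
    simpa using And.intro h1 hne
  · obtain ⟨a, rfl⟩ : ∃ a, a0 = a + 1 := ⟨a0 - 1, by omega⟩
    refine SXu_core hF j ![1, 0] (a := a) (b := b0) (by omega) ?_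
    have h1 : ((a + 1 : ℕ) : KK n ℓ) ≠ 0 := cast_ne_zero_KK (by omega) (by omega)
    rw [Nat.cast_add, Nat.cast_one] at h1
    simpa using And.intro h1 hne

/-- Xu's lemma.
PROOF. `G` from `xu_der`, and `mulbez` for `β i = mu (gp i) F` (`i ≠ j`), `β j = mu (gp j) F - 1`:
`∑ mu ^ 2 - mu_j = ∑ mu i * β i ≤ deg F * deg G ≤ (deg F) ^ 2`. -/
theorem xu {F : A2 (KK n ℓ)} (hF : Irreducible F) (hdeg : F.totalDegree < ℓ) (j : Fin n)
    (hj : 1 ≤ mu (gp n ℓ j) F) :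
    ∑ i, mu (gp n ℓ i) F ^ 2 ≤ F.totalDegree ^ 2 + mu (gp n ℓ j) F := by
  obtain ⟨G, hG1, hG2, hG3, hG4, -⟩ := xu_der hF hdeg j hj
  have hI : G ∈ Iz (gp n ℓ) (fun i => if i = j then mu (gp n ℓ j) F - 1 else mu (gp n ℓ i) F) := by
    rw [mem_Iz]
    intro i
    by_cases hi : i = j
    · subst hi
      rw [if_pos rfl]
      exact hG4
    · rw [if_neg hi]
      exact hG3 i hi
  have hb := mulbez (gp_inj n ℓ) hF hG2 _ (Ideal.mem_sup_left hI)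
  have hs : ∑ i, mu (gp n ℓ i) F ^ 2 =
      ∑ i, mu (gp n ℓ i) F * (if i = j then mu (gp n ℓ j) F - 1 else mu (gp n ℓ i) F)
        + mu (gp n ℓ j) F := by
    have h1 : ∀ i ∈ Finset.univ, mu (gp n ℓ i) F ^ 2 =
        mu (gp n ℓ i) F * (if i = j then mu (gp n ℓ j) F - 1 else mu (gp n ℓ i) F)
          + (if i = j then mu (gp n ℓ j) F else 0) := by
      intro i _
      by_cases hi : i = j
      · subst hi
        rw [if_pos rfl, if_pos rfl]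
        obtain ⟨m, hm⟩ : ∃ m, mu (gp n ℓ i) F = m + 1 := ⟨mu (gp n ℓ i) F - 1, by omega⟩
        rw [hm, Nat.add_sub_cancel]
        ring
      · rw [if_neg hi, if_neg hi, add_zero, sq]
    rw [Finset.sum_congr rfl h1, Finset.sum_add_distrib, Finset.sum_ite_eq' Finset.univ j,
      if_pos (Finset.mem_univ j)]
  rw [hs, sq]
  exact Nat.add_le_add_right (hb.trans (Nat.mul_le_mul_left _ hG1)) _

end Pool.MP_70e04f_ag.Strip
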